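import Pool.Agent.S7b.Sys
import Pool.Agent.Mrd.Defs2

/-! bridge: the window form of (E2) for `Mrd.lio` gives `E2` -/

set_option autoImplicit false

namespace Pool.Agent.S7

open MeasureTheory Filter Topology S7b

theorem lio_eq_lam {n : ℕ} (hn : 1 ≤ n) : Pool.Agent.Mrd.lio n = (lam n : ℂ) := by
  unfold Pool.Agent.Mrd.lio lam
  rw [if_neg (by omega)]
  push_cast
  rfl

theorem E2_of (h : ∀ w : ℂ, ‖w‖ = 1 → ∀ A ε : ℝ, 0 < ε → ∃ H₀ : ℕ, ∀ H : ℕ, H₀ ≤ H → ∃ N₀ : ℕ,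
    ∀ N : ℕ, N₀ ≤ N → ∀ I : Finset ℕ, (∀ n ∈ I, (N : ℝ) * Real.exp (-A) ≤ n ∧ (n : ℝ) ≤ N * Real.exp A) →
      ∑ n ∈ I, (1 / (n : ℝ)) * ‖(H : ℂ)⁻¹ * ∑ h ∈ Finset.range H, w ^ h * Pool.Agent.Mrd.lio (n + h)‖ ^ 2 ≤ ε) :
    E2 := by
  intro w φ hφ hc h0 ε hε
  -- bound and support of `φ`
  obtain ⟨C, hC⟩ : ∃ C : ℝ, 0 < C ∧ ∀ s, φ s ≤ C := by
    obtain ⟨C, hC⟩ := hc.exists_bound_of_continuous hφ
    exact ⟨max C 1, lt_max_of_lt_right one_pos, fun s => (le_abs_self _).trans ((hC s).trans (le_max_left _ _))⟩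
  obtain ⟨A, hA0, hA⟩ := exists_Sup (W := Unit) (fun z => φ z.2) (by
    have hK : IsCompact ((Set.univ : Set Unit) ×ˢ tsupport φ) := isCompact_univ.prod hc
    refine HasCompactSupport.of_support_subset_isCompact hK ?_
    rintro ⟨a, s⟩ hz
    exact ⟨Set.mem_univ _, subset_tsupport φ hz⟩)
  obtain ⟨hCp, hC⟩ := hC
  obtain ⟨H₀, hH₀⟩ := h (w : ℂ) (Circle.norm_coe w) A (ε / C) (by positivity)
  refine ⟨H₀, fun H hH => ?_⟩
  obtain ⟨N₀, hN₀⟩ := hH₀ H hH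
  refine ⟨max N₀ 1, fun N hN => ?_⟩
  have hN1 : 1 ≤ N := (le_max_right _ _).trans hN
  have hN2 : N₀ ≤ N := (le_max_left _ _).trans hN
  have hNpos : (0 : ℝ) < N := by exact_mod_cast hN1
  set F : ℕ → ℝ := fun n => ‖(H : ℂ)⁻¹ * ∑ h ∈ Finset.range H, (w : ℂ) ^ h * (lam (n + h) : ℂ)‖ ^ 2 with hF
  -- the sum is the sum over the window
  set I : Finset ℕ := Finset.Icc ⌈(N : ℝ) * Real.exp (-A)⌉₊ ⌊(N : ℝ) * Real.exp A⌋₊ with hI
  have hwin : ∀ n ∈ I, (N : ℝ) * Real.exp (-A) ≤ n ∧ (n : ℝ) ≤ N * Real.exp A := by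
    intro n hn
    rw [hI, Finset.mem_Icc] at hn
    exact ⟨(Nat.le_ceil _).trans (by exact_mod_cast hn.1), (Nat.le_floor_iff (by positivity)).mp hn.2⟩
  have hts : ∑' n : ℕ, (1 / (n : ℝ)) * (F n * φ (Real.log ((n : ℝ) / N))) =
      ∑ n ∈ I, (1 / (n : ℝ)) * (F n * φ (Real.log ((n : ℝ) / N))) := by
    refine tsum_eq_sum fun n hn => ?_
    rcases Nat.eq_zero_or_pos n with h00 | hnpos
    · subst h00; simp
    have hnR : (0 : ℝ) < n := by exact_mod_cast hnpos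
    have hz : φ (Real.log ((n : ℝ) / N)) = 0 := by
      refine hA ((), Real.log ((n : ℝ) / N)) ?_
      by_contra hcon
      rw [not_lt, abs_le] at hcon
      apply hn
      rw [hI, Finset.mem_Icc]
      have e1 : Real.exp (Real.log ((n : ℝ) / N)) = n / N := Real.exp_log (by positivity)
      constructor
      · rw [Nat.ceil_le]
        have := Real.exp_le_exp.mpr hcon.1
        rw [e1, le_div_iff₀ hNpos] at this
        linarith
      · rw [Nat.le_floor_iff (by positivity)]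
        have := Real.exp_le_exp.mpr hcon.2
        rw [e1, div_le_iff₀ hNpos] at this
        linarith
    rw [hz]; ring
  have hgoal : ∑' n : ℕ, (1 / (n : ℝ)) * (F n * φ (Real.log ((n : ℝ) / N))) ≤ ε := by
    rw [hts]
    have h1 : ∀ n ∈ I, (1 / (n : ℝ)) * (F n * φ (Real.log ((n : ℝ) / N))) ≤
        C * ((1 / (n : ℝ)) * ‖(H : ℂ)⁻¹ * ∑ h ∈ Finset.range H, (w : ℂ) ^ h * Pool.Agent.Mrd.lio (n + h)‖ ^ 2) := by
      intro n hn
      have hw := hwin n hn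
      have hn1 : 1 ≤ n := by
        have : (0 : ℝ) < n := lt_of_lt_of_le (by positivity) hw.1
        exact_mod_cast this
      have e : ∑ h ∈ Finset.range H, (w : ℂ) ^ h * Pool.Agent.Mrd.lio (n + h) =
          ∑ h ∈ Finset.range H, (w : ℂ) ^ h * (lam (n + h) : ℂ) :=
        Finset.sum_congr rfl fun h _ => by rw [lio_eq_lam (by omega)]
      rw [e]
      have h2 : (0 : ℝ) ≤ 1 / (n : ℝ) := by positivity
      have h3 : F n * φ (Real.log ((n : ℝ) / N)) ≤ F n * C := mul_le_mul_of_nonneg_left (hC _) (by positivity)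
      calc (1 / (n : ℝ)) * (F n * φ (Real.log ((n : ℝ) / N))) ≤ (1 / (n : ℝ)) * (F n * C) :=
            mul_le_mul_of_nonneg_left h3 h2
        _ = C * ((1 / (n : ℝ)) * F n) := by ring
    refine (Finset.sum_le_sum h1).trans ?_
    rw [← Finset.mul_sum]
    have := hN₀ N hN2 I hwin
    calc C * _ ≤ C * (ε / C) := mul_le_mul_of_nonneg_left this hCp.le
      _ = ε := by field_simp
  exact hgoal

end Pool.Agent.S7
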