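import Pool.Agent.S7A.Final

/-! S7: the theorems of block A in the form used by block B. -/

set_option autoImplicit false

namespace Pool.Agent.S7

open MeasureTheory Filter Topology

section A

variable {X : Type*} [MetricSpace X] [CompactSpace X] [Nonempty X] [MeasurableSpace X]
  [BorelSpace X]

theorem countable_E0 (T : X ≃ₜ X) (_hT : IsMin T) : Countable (E0 T) :=
  Pool.Agent.S7A.countable_E0 T

/-- THEOREM A -/
theorem thmA (T : X ≃ₜ X) (hT : IsMin T) (hB : Pool.Agent.Sar.BddSeqEnt T) :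
    ∃ p : X → KG (E0 T), Continuous p ∧ (∀ x, p (T x) = uG (E0 T) * p x) ∧
      ∃ (r : ℕ) (K' : Set (KG (E0 T))) (lab : X → Fin r) (ξ : KG (E0 T) × Fin r → X),
        MeasurableSet K' ∧
        (∀ (m : Measure (KG (E0 T))) [m.IsHaarMeasure], m K'ᶜ = 0) ∧
        (∀ k, uG (E0 T) * k ∈ K' ↔ k ∈ K') ∧ Measurable lab ∧ Measurable ξ ∧
        ∀ k ∈ K', (∀ j, p (ξ (k, j)) = k ∧ lab (ξ (k, j)) = j) ∧ ∀ x, p x = k → ξ (k, lab x) = x :=
  Pool.Agent.S7A.thmA T hT hB

end A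

end Pool.Agent.S7
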