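import Pool.Agent.S7b.Sys
import Pool.Agent.S7b.Ifa
import Pool.Agent.S7.F.Zfin

/-!
# S7, block B3, B4: the joint limit measure and the final theorem
-/

set_option autoImplicit false

namespace Pool.Agent.S7

open MeasureTheory Filter Topology S7b
open scoped ENNReal

section fin

variable {X : Type*} [MetricSpace X] [CompactSpace X] [Nonempty X] [MeasurableSpace X] [BorelSpace X]

/-- the data of THEOREM A -/
structure Fib (T : X ≃ₜ X) (G' : Subgroup Circle) (r : ℕ) (p : X → KG G') (K' : Set (KG G'))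
    (lab : X → Fin r) (ξ : KG G' × Fin r → X) : Prop where
  pc : Continuous p
  pT : ∀ x, p (T x) = uG G' * p x
  Km : MeasurableSet K'
  Kn : ∀ (m : Measure (KG G')) [m.IsHaarMeasure], m K'ᶜ = 0
  Ku : ∀ k, uG G' * k ∈ K' ↔ k ∈ K'
  labm : Measurable lab
  xim : Measurable ξ
  fib : ∀ k ∈ K', (∀ j, p (ξ (k, j)) = k ∧ lab (ξ (k, j)) = j) ∧ ∀ x, p x = k → ξ (k, lab x) = x

variable {G' G : Subgroup Circle} [Countable G'] [Countable G] {r : ℕ} {T : X ≃ₜ X}
  {p : X → KG G'} {K' : Set (KG G')} {lab : X → Fin r} {ξ : KG G' × Fin r → X}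

/-- `κ(y) = k res(y)^R` -/
noncomputable def kap (k : KG G') (h : G' ≤ G) (R : ℕ) (y : KG G) : KG G' := k * resG h y ^ R

-- BEGIN f1
omit [Countable G'] [Countable G] in
theorem kap_u (k : KG G') (h : G' ≤ G) (R : ℕ) (y : KG G) :
    kap k h R (uG G * y) = uG G' ^ R * kap k h R y := by
  unfold kap
  rw [_root_.map_mul, resG_u, mul_pow, mul_left_comm]

omit [Countable G'] [Countable G] in
theorem kap_cont (k : KG G') (h : G' ≤ G) (R : ℕ) : Continuous (kap k h R) := by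
  unfold kap
  exact continuous_const.mul ((resG h).continuous_toFun.pow R)

omit [Countable G'] in
theorem p_iter (hF : Fib T G' r p K' lab ξ) (n : ℕ) (x : X) : p ((⇑T)^[n] x) = uG G' ^ n * p x := by
  induction n with
  | zero => rw [Function.iterate_zero, id_eq, pow_zero, one_mul]
  | succ n ih => rw [Function.iterate_succ_apply', hF.pT, ih, pow_succ', mul_assoc]

omit [Countable G'] in
theorem Ku_iter (hF : Fib T G' r p K' lab ξ) (n : ℕ) (k : KG G') : uG G' ^ n * k ∈ K' ↔ k ∈ K' := by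
  induction n with
  | zero => rw [pow_zero, one_mul]
  | succ n ih => rw [pow_succ', mul_assoc, hF.Ku, ih]

private theorem f1_key (hF : Fib T G' r p K' lab ξ) (h : G' ≤ G) (k : KG G') (R : ℕ) (y : KG G)
    (hy : kap k h R y ∈ K') (j : Fin r) :
    (⇑T)^[R] (ξ (kap k h R y, j)) =
      ξ (kap k h R (uG G * y), lab ((⇑T)^[R] (ξ (kap k h R y, j)))) := by
  have h1 : kap k h R (uG G * y) ∈ K' := by
    rw [kap_u]
    exact (Ku_iter hF R _).2 hy
  have h2 : p ((⇑T)^[R] (ξ (kap k h R y, j))) = kap k h R (uG G * y) := by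
    rw [p_iter hF, ((hF.fib _ hy).1 j).1, kap_u]
  exact ((hF.fib _ h1).2 _ h2).symm

private theorem f1_inj (hF : Fib T G' r p K' lab ξ) (h : G' ≤ G) (k : KG G') (R : ℕ) (y : KG G)
    (hy : kap k h R y ∈ K') :
    Function.Injective fun j : Fin r => lab ((⇑T)^[R] (ξ (kap k h R y, j))) := by
  intro i j hij
  have hij' : lab ((⇑T)^[R] (ξ (kap k h R y, i))) = lab ((⇑T)^[R] (ξ (kap k h R y, j))) := hij
  have h1 := f1_key hF h k R y hy i
  have h2 := f1_key hF h k R y hy j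
  rw [hij'] at h1
  have h3 : (⇑T)^[R] (ξ (kap k h R y, i)) = (⇑T)^[R] (ξ (kap k h R y, j)) := h1.trans h2.symm
  have h4 : ξ (kap k h R y, i) = ξ (kap k h R y, j) := (T.injective.iterate R) h3
  rw [← ((hF.fib _ hy).1 i).2, h4, ((hF.fib _ hy).1 j).2]

/-- THE COCYCLE. For `κ y ∈ K'` put `σ y j = lab (T^R ξ(κ y, j))`: `T^R ξ(κ y, j)` lies over `κ (u y) = u₀^R κ y ∈ K'`
(`kap_u`, `p_iter`, `Ku_iter`), so it is `ξ (κ (u y), σ y j)` (`fib`); injective in `j` (labels), so a permutation of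
`Fin r`; `σ y = 1` if `κ y ∉ K'`. `{y | σ y = τ}` is measurable (finite intersection of `{y | lab (T^R ξ(κ y, j)) = τ j}`). -/
theorem exists_coc (hF : Fib T G' r p K' lab ξ) (h : G' ≤ G) (k : KG G') (R : ℕ) :
    ∃ σ : KG G → Equiv.Perm (Fin r), FM σ ∧ ∀ y, kap k h R y ∈ K' → ∀ j,
      (⇑T)^[R] (ξ (kap k h R y, j)) = ξ (kap k h R (uG G * y), σ y j) := by
  classical
  have hs : ∀ j : Fin r, Measurable fun y : KG G => lab ((⇑T)^[R] (ξ (kap k h R y, j))) := by
    intro j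
    exact hF.labm.comp ((T.continuous.iterate R).measurable.comp
      (hF.xim.comp ((kap_cont k h R).measurable.prodMk measurable_const)))
  have hK : MeasurableSet {y : KG G | kap k h R y ∈ K'} := (kap_cont k h R).measurable hF.Km
  refine ⟨fun y => if hy : kap k h R y ∈ K' then
    Equiv.ofBijective _ (Finite.injective_iff_bijective.1 (f1_inj hF h k R y hy)) else 1,
    ⟨Set.toFinite _, fun τ => ?_⟩, fun y hy j => ?_⟩
  · have h1 : ((fun y => if hy : kap k h R y ∈ K' then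
        Equiv.ofBijective _ (Finite.injective_iff_bijective.1 (f1_inj hF h k R y hy)) else 1) ⁻¹' {τ}) =
        ({y : KG G | kap k h R y ∈ K'} ∩
          ⋂ j : Fin r, {y | lab ((⇑T)^[R] (ξ (kap k h R y, j))) = τ j}) ∪
        ({y : KG G | kap k h R y ∈ K'}ᶜ ∩ {_y | (1 : Equiv.Perm (Fin r)) = τ}) := by
      ext y
      by_cases hy : kap k h R y ∈ K'
      · simp only [Set.mem_preimage, Set.mem_singleton_iff, dif_pos hy, Set.mem_union,
          Set.mem_inter_iff, Set.mem_setOf_eq, hy, true_and, Set.mem_compl_iff, not_true_eq_false,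
          false_and, or_false, Set.mem_iInter]
        constructor
        · rintro rfl j
          rfl
        · intro h2
          exact Equiv.ext h2
      · simp only [Set.mem_preimage, Set.mem_singleton_iff, dif_neg hy, Set.mem_union,
          Set.mem_inter_iff, Set.mem_setOf_eq, hy, false_and, Set.mem_compl_iff,
          not_false_eq_true, true_and, false_or]
        rw [dif_neg not_false]
    rw [h1]
    refine MeasurableSet.union (hK.inter (MeasurableSet.iInter fun j => ?_))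
      (hK.compl.inter (MeasurableSet.const _))
    exact hs j (measurableSet_singleton (τ j))
  · dsimp only
    rw [dif_pos hy]
    exact f1_key hF h k R y hy j
-- END f1

-- BEGIN f2
/-- by induction on `H` from `hσ`, `fib`, `kap_u`, `Ku_iter` (`R * (H+1) = R + R * H`) -/
theorem iter_coc (hF : Fib T G' r p K' lab ξ) (h : G' ≤ G) (k : KG G') (R : ℕ)
    (σ : KG G → Equiv.Perm (Fin r))
    (hσ : ∀ y, kap k h R y ∈ K' → ∀ j,
      (⇑T)^[R] (ξ (kap k h R y, j)) = ξ (kap k h R (uG G * y), σ y j))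
    {y : KG G} (hy : kap k h R y ∈ K') {x' : X} (hx : p x' = kap k h R y) (H : ℕ) :
    kap k h R (uG G ^ H * y) ∈ K' ∧
      (⇑T)^[R * H] x' = ξ (kap k h R (uG G ^ H * y), itc (uG G) σ H y (lab x')) := by
  induction H with
  | zero =>
    rw [pow_zero, one_mul, mul_zero, Function.iterate_zero, id_eq]
    exact ⟨hy, ((hF.fib _ hy).2 _ hx).symm⟩
  | succ H ih =>
    obtain ⟨h1, h2⟩ := ih
    have h3 : uG G ^ (H + 1) * y = uG G * (uG G ^ H * y) := by rw [pow_succ', mul_assoc]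
    constructor
    · rw [h3, kap_u]
      exact (Ku_iter hF R _).2 h1
    · have h4 : R * (H + 1) = R + R * H := by ring
      rw [h4, Function.iterate_add_apply, h2, hσ _ h1, h3]
      rfl
-- END f2

/-- the joint points -/
noncomputable def w1 (G : Subgroup Circle) (T : X ≃ₜ X) (x : X) (R : ℕ) (n : ℕ) : ((ℤ → Bool) × KG G) × X :=
  (w0 (uG G) n, (⇑T)^[R * n] x)

variable {U : Filter ℕ} [U.NeBot] {M₁ : Measure ((((ℤ → Bool) × KG G) × X) × ℝ)}

-- BEGIN f3
/-- `LL.inv` with `σ = Prod.map (sh u) (T^R)` -/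
theorem joint_inv (hU : U ≤ atTop) (x : X) (R : ℕ) (hM : LL U (w1 G T x R) M₁) :
    M₁.map (Prod.map (Prod.map (sh (uG G)) ((⇑T)^[R])) id) = M₁ := by
  refine LL.inv hU hM (Prod.map (sh (uG G)) ((⇑T)^[R]))
    ((sh_cont (uG G)).prodMap (T.continuous.iterate R)) fun n _ => ?_
  refine Prod.ext (w0_succ (uG G) n) ?_
  show (⇑T)^[R * (n + 1)] x = (⇑T)^[R] ((⇑T)^[R * n] x)
  rw [← Function.iterate_add_apply, mul_add, mul_one, add_comm R]

/-- `LL.carr` with the closed set `{(w, x') | p x' = κ(w.2)}`; for the points: `p (T^(R n) x) = u₀^(R n) p x` and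
`κ (u^n) = p x * u₀^(n R)` -/
theorem joint_carr (hF : Fib T G' r p K' lab ξ) (h : G' ≤ G) (x : X) (R : ℕ)
    (hM : LL U (w1 G T x R) M₁) : ∀ᵐ z ∂M₁, p z.1.2 = kap (p x) h R z.1.1.2 := by
  have hC : IsClosed {z : ((ℤ → Bool) × KG G) × X | p z.2 = kap (p x) h R z.1.2} :=
    isClosed_eq (hF.pc.comp continuous_snd)
      ((kap_cont (p x) h R).comp (continuous_snd.comp continuous_fst))
  refine LL.carr hM _ hC fun n _ => ?_
  show p ((⇑T)^[R * n] x) = p x * resG h (uG G ^ n) ^ R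
  rw [p_iter hF, _root_.map_pow, resG_u, ← pow_mul, mul_comm R n, mul_comm]

/-- the image of `M₁` under the projection is a limit measure for `w0` -/
theorem joint_fst (x : X) (R : ℕ) (hM : LL U (w1 G T x R) M₁) :
    LL U (w0 (uG G)) (M₁.map (Prod.map Prod.fst id)) :=
  LL.map hM Prod.fst continuous_fst

/-- the law of `y` is absolutely continuous with respect to Haar measure (`law0` for the image measure, `joint_fst`) and
`{y | κ y ∉ K'}` is null (`resG_null`, `Kn`; Haar probability measures exist: `haarMeasure ⊤`) -/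
theorem joint_good (hF : Fib T G' r p K' lab ξ) (hG : Sat G) (h : G' ≤ G) (hU : U ≤ atTop) (x : X) {R : ℕ}
    (hR : 1 ≤ R) (hM : LL U (w1 G T x R) M₁) : ∀ᵐ z ∂M₁, kap (p x) h R z.1.1.2 ∈ K' := by
  have hex : ∀ G₀ : Subgroup Circle, ∃ m : Measure (KG G₀), m.IsHaarMeasure ∧ IsProbabilityMeasure m := by
    intro G₀
    refine ⟨Measure.haarMeasure ⊤, inferInstance, ⟨?_⟩⟩
    exact Measure.haarMeasure_self
  obtain ⟨m, hm1, hm2⟩ := hex G
  obtain ⟨m', hm1', hm2'⟩ := hex G'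
  have h1 : m {y | p x * resG h y ^ R ∈ K'ᶜ} = 0 := resG_null h hG m m' hR (p x) (hF.Kn m')
  have h2 : ∀ᵐ y ∂m, kap (p x) h R y ∈ K' := by
    rw [ae_iff]
    exact h1
  have h3 : ∀ᵐ w ∂(m.prod (volume : Measure ℝ)), kap (p x) h R w.1 ∈ K' :=
    Measure.quasiMeasurePreserving_fst.ae h2
  rw [← law0 (m := m) hU (joint_fst x R hM)] at h3
  have hm3 : Measurable fun z : ((ℤ → Bool) × KG G) × ℝ => (z.1.2, z.2) :=
    (measurable_snd.comp measurable_fst).prodMk measurable_snd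
  have h4 := ae_of_ae_map hm3.aemeasurable h3
  have hm4 : Measurable (Prod.map Prod.fst id : ((((ℤ → Bool) × KG G) × X) × ℝ) → ((ℤ → Bool) × KG G) × ℝ) :=
    measurable_fst.prodMap measurable_id
  exact ae_of_ae_map hm4.aemeasurable h4
-- END f3

-- BEGIN f4
omit [CompactSpace X] [Nonempty X] [MeasurableSpace X] [BorelSpace X] [Countable G] in
private theorem f4_iter (R i : ℕ) (z : (((ℤ → Bool) × KG G) × X) × ℝ) :
    (Prod.map (Prod.map (sh (uG G)) ((⇑T)^[R])) id)^[i] z =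
      ((((fun j => z.1.1.1 (j + i)), uG G ^ i * z.1.1.2), (⇑T)^[R * i] z.1.2), z.2) := by
  induction i with
  | zero => simp
  | succ i ih =>
    rw [Function.iterate_succ_apply', ih]
    refine Prod.ext (Prod.ext (Prod.ext ?_ ?_) ?_) rfl
    · funext j
      show z.1.1.1 (j + 1 + i) = z.1.1.1 (j + ((i + 1 : ℕ) : ℤ))
      push_cast
      ring_nf
    · show uG G * (uG G ^ i * z.1.1.2) = uG G ^ (i + 1) * z.1.1.2
      rw [pow_succ', mul_assoc]
    · show (⇑T)^[R] ((⇑T)^[R * i] z.1.2) = (⇑T)^[R * (i + 1)] z.1.2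
      rw [← Function.iterate_add_apply, mul_add, mul_one, add_comm R]

/-- AVERAGES. By `joint_inv` (applied `i` times, `i < H`) `∫ F dM₁ = ∫ (1/H) Σ_{i<H} F ∘ S₁^i dM₁`, `F z = sgn(l_0) g(x') φ(s)`,
`S₁^i (l, y, x', s) = (l(·+i), u^i y, T^(R i) x', s)`. `F` is continuous with compact support. -/
theorem avg_eq (hU : U ≤ atTop) (x : X) (R : ℕ) (hM : LL U (w1 G T x R) M₁) (g : X → ℝ)
    (hg : Continuous g) (φ : ℝ → ℝ) (hφ : Continuous φ) (hc : HasCompactSupport φ) {H : ℕ} (hH : 1 ≤ H) :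
    ∫ z, sgn (z.1.1.1 0) * g z.1.2 * φ z.2 ∂M₁ =
      ∫ z, (H : ℝ)⁻¹ * (∑ i ∈ Finset.range H, sgn (z.1.1.1 i) * g ((⇑T)^[R * i] z.1.2)) * φ z.2 ∂M₁ := by
  set F : (((ℤ → Bool) × KG G) × X) × ℝ → ℝ := fun z => sgn (z.1.1.1 0) * g z.1.2 * φ z.2 with hFd
  set S₁ : (((ℤ → Bool) × KG G) × X) × ℝ → (((ℤ → Bool) × KG G) × X) × ℝ :=
    Prod.map (Prod.map (sh (uG G)) ((⇑T)^[R])) id with hS₁
  have hS₁m : Measurable S₁ :=
    (((sh_cont (uG G)).prodMap (T.continuous.iterate R)).prodMap continuous_id).measurable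
  have hmp : MeasurePreserving S₁ M₁ M₁ := ⟨hS₁m, joint_inv hU x R hM⟩
  have hFc : Continuous F := by
    have h1 : Continuous fun z : (((ℤ → Bool) × KG G) × X) × ℝ => sgn (z.1.1.1 0) :=
      (continuous_of_discreteTopology (f := sgn)).comp
        ((continuous_apply (0 : ℤ)).comp (continuous_fst.comp (continuous_fst.comp continuous_fst)))
    exact (h1.mul (hg.comp (continuous_snd.comp continuous_fst))).mul (hφ.comp continuous_snd)
  have hFs : HasCompactSupport F := by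
    obtain ⟨A, hA⟩ := hc.isCompact.isBounded.exists_norm_le
    have h1 : S7b.Sup A F := by
      intro z hz
      have h2 : φ z.2 = 0 := by
        by_contra hne
        have h3 := hA z.2 (subset_tsupport φ hne)
        rw [Real.norm_eq_abs] at h3
        exact absurd (lt_of_le_of_lt h3 hz) (lt_irrefl _)
      show _ * φ z.2 = 0
      rw [h2, mul_zero]
    exact h1.compact
  have hfin : IsFiniteMeasureOnCompacts M₁ := hM.fin
  have hFi : Integrable F M₁ := hFc.integrable_of_hasCompactSupport hFs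
  have hi : ∀ i : ℕ, Integrable (fun z => F (S₁^[i] z)) M₁ ∧ ∫ z, F (S₁^[i] z) ∂M₁ = ∫ z, F z ∂M₁ := by
    intro i
    have h1 : MeasurePreserving S₁^[i] M₁ M₁ := hmp.iterate i
    refine ⟨h1.integrable_comp_of_integrable hFi, ?_⟩
    have h2 := integral_map (μ := M₁) h1.measurable.aemeasurable (f := F)
      (by rw [h1.map_eq]; exact hFi.aestronglyMeasurable)
    rw [h1.map_eq] at h2
    exact h2.symm
  have hpt : ∀ z, (H : ℝ)⁻¹ * (∑ i ∈ Finset.range H, sgn (z.1.1.1 i) * g ((⇑T)^[R * i] z.1.2)) * φ z.2 =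
      (H : ℝ)⁻¹ * ∑ i ∈ Finset.range H, F (S₁^[i] z) := by
    intro z
    rw [mul_assoc, Finset.sum_mul]
    congr 1
    refine Finset.sum_congr rfl fun i _ => ?_
    rw [hS₁, f4_iter]
    show _ = sgn (z.1.1.1 (0 + (i : ℤ))) * g ((⇑T)^[R * i] z.1.2) * φ z.2
    rw [zero_add]
  have hHne : (H : ℝ) ≠ 0 := by
    have : (0 : ℝ) < H := by exact_mod_cast hH
    exact this.ne'
  rw [integral_congr_ae (Filter.Eventually.of_forall hpt), integral_const_mul,
    integral_finsetSum _ fun i _ => (hi i).1,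
    Finset.sum_congr rfl fun i _ => (hi i).2, Finset.sum_const, Finset.card_range, nsmul_eq_mul,
    ← mul_assoc, inv_mul_cancel₀ hHne, one_mul]
-- END f4

-- BEGIN f5
private theorem f5_itc {σ : KG G → Equiv.Perm (Fin r)} (hσm : FM σ) (i : ℕ) (j : Fin r) :
    Measurable fun y : KG G => itc (uG G) σ i y j := by
  letI : MeasurableSpace (Equiv.Perm (Fin r)) := ⊤
  have h1 : Measurable σ := measurable_to_countable' hσm.2
  have h2 : ∀ i : ℕ, Measurable fun y : KG G => itc (uG G) σ i y := by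
    intro i
    induction i with
    | zero => exact measurable_const
    | succ i ih =>
      have h3 : Measurable fun y : KG G => σ (uG G ^ i * y) := h1.comp (measurable_const_mul _)
      exact (Measurable.of_discrete (f := fun q : Equiv.Perm (Fin r) × Equiv.Perm (Fin r) =>
        q.1 * q.2)).comp (h3.prodMk ih)
  exact (Measurable.of_discrete (f := fun q : Equiv.Perm (Fin r) => q j)).comp (h2 i)

/-- the averages -/
private noncomputable def f5_P (ξ : KG G' × Fin r → X) (k : KG G') (h : G' ≤ G) (R : ℕ) (g : X → ℝ)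
    (σ : KG G → Equiv.Perm (Fin r)) (H : ℕ) (j : Fin r) (z : ((ℤ → Bool) × KG G) × ℝ) : ℝ :=
  (H : ℝ)⁻¹ * ∑ i ∈ Finset.range H, sgn (z.1.1 i) *
    g (ξ (kap k h R (uG G ^ i * z.1.2), itc (uG G) σ i z.1.2 j))

private theorem f5_meas (hF : Fib T G' r p K' lab ξ) (k : KG G') (h : G' ≤ G) (R : ℕ) {g : X → ℝ}
    (hg : Continuous g) {σ : KG G → Equiv.Perm (Fin r)} (hσm : FM σ) (H : ℕ) (j : Fin r) :
    Measurable (f5_P ξ k h R g σ H j) := by
  unfold f5_P
  refine (Finset.measurable_fun_sum _ fun i _ => ?_).const_mul _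
  refine Measurable.mul ?_ ?_
  · exact sgn_meas.comp ((measurable_pi_apply _).comp (measurable_fst.comp measurable_fst))
  · refine hg.measurable.comp (hF.xim.comp (Measurable.prodMk ?_ ?_))
    · exact (kap_cont k h R).measurable.comp
        ((measurable_const_mul _).comp (measurable_snd.comp measurable_fst))
    · exact (f5_itc hσm i j).comp (measurable_snd.comp measurable_fst)

private theorem f5_sgn (b : Bool) : |sgn b| = 1 := by
  unfold sgn
  split_ifs
  · exact abs_one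
  · rw [abs_neg, abs_one]

private theorem f5_bdd {ξ : KG G' × Fin r → X} {k : KG G'} {h : G' ≤ G} {R : ℕ} {g : X → ℝ}
    {Cg : ℝ} (hCg : ∀ x, |g x| ≤ Cg) {σ : KG G → Equiv.Perm (Fin r)} (H : ℕ) (j : Fin r)
    (z : ((ℤ → Bool) × KG G) × ℝ) : |f5_P ξ k h R g σ H j z| ≤ Cg := by
  unfold f5_P
  rcases Nat.eq_zero_or_pos H with h0 | h0
  · subst h0
    rw [Finset.range_zero, Finset.sum_empty, mul_zero, abs_zero]
    exact (abs_nonneg _).trans (hCg (ξ (kap k h R z.1.2, j)))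
  · have h1 : (0 : ℝ) < H := by exact_mod_cast h0
    rw [abs_mul, abs_inv, Nat.abs_cast, inv_mul_le_iff₀ h1]
    refine (Finset.abs_sum_le_sum_abs _ _).trans ?_
    refine (Finset.sum_le_sum (g := fun _ => Cg) fun i _ => ?_).trans ?_
    · rw [abs_mul, f5_sgn, one_mul]
      exact hCg _
    · rw [Finset.sum_const, Finset.card_range, nsmul_eq_mul]

private theorem f5_le {x ε : ℝ} (hε : 0 < ε) : |x| ≤ ε + ε⁻¹ * x ^ 2 := by
  rcases le_or_gt |x| ε with h | h
  · have : 0 ≤ ε⁻¹ * x ^ 2 := by positivity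
    linarith
  · have h1 : |x| ≤ ε⁻¹ * x ^ 2 := by
      rw [← sq_abs x, le_inv_mul_iff₀ hε, sq]
      exact mul_le_mul_of_nonneg_right h.le (abs_nonneg _)
    linarith

/-- THE ESTIMATE. Let `supp φ ⊆ (α, β]`, `|φ| ≤ C`, `M = M₁.map (Prod.map Prod.fst id)`, `a y j = g (ξ (κ y, j))`. By `avg_eq`,
`joint_good`, `joint_carr`, `iter_coc`, for almost every `z = (((l, y), x'), s)` and `j₀ = lab x'`:
`(1/H) Σ_{i<H} sgn(l_i) g(T^(R i) x') = (1/H) Σ_{i<H} sgn(l_i) a (u^i y) (itc σ i y j₀)`. So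
`|∫ F dM₁| ≤ C Σ_j ∫_{s ∈ (α,β]} |(1/H) Σ_i sgn(l_i) a (u^i y) (itc σ i y j)| dM ≤ C Σ_j (β-α)^(1/2) (∫_{s ∈ (α,β]} |..|² dM)^(1/2) → 0`
by `hZ` (`M {s ∈ (α, β]} = β - α` by `LL.snd`). -/
theorem joint_zero (hF : Fib T G' r p K' lab ξ) (hG : Sat G) (h : G' ≤ G) (hU : U ≤ atTop) (x : X) {R : ℕ}
    (hR : 1 ≤ R) (hM : LL U (w1 G T x R) M₁) (g : X → ℝ) (hg : Continuous g)
    (σ : KG G → Equiv.Perm (Fin r)) (hσm : FM σ)
    (hσ : ∀ y, kap (p x) h R y ∈ K' → ∀ j,
      (⇑T)^[R] (ξ (kap (p x) h R y, j)) = ξ (kap (p x) h R (uG G * y), σ y j))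
    (hZ : ∀ (α β : ℝ) (j : Fin r), Tendsto (fun H : ℕ =>
      ∫ z in (fun z : ((ℤ → Bool) × KG G) × ℝ => z.2) ⁻¹' Set.Ioc α β,
        ‖(H : ℂ)⁻¹ * ∑ i ∈ Finset.range H, (sgn (((⇑(S0 (uG G)))^[i] z).1.1 0) : ℂ) *
          ((g (ξ (kap (p x) h R (uG G ^ i * z.1.2), itc (uG G) σ i z.1.2 j)) : ℝ) : ℂ)‖ ^ 2
          ∂(M₁.map (Prod.map Prod.fst id))) atTop (𝓝 0))
    (φ : ℝ → ℝ) (hφ : Continuous φ) (hc : HasCompactSupport φ) :
    ∫ z, sgn (z.1.1.1 0) * g z.1.2 * φ z.2 ∂M₁ = 0 := by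
  obtain ⟨Cg, hCg⟩ := isCompact_univ.exists_bound_of_continuousOn (hg.continuousOn (s := Set.univ))
  have hCg' : ∀ x, |g x| ≤ Cg := fun x => hCg x (Set.mem_univ x)
  obtain ⟨C, hC⟩ := hφ.bounded_above_of_compact_support hc
  have hC0 : 0 ≤ C := (norm_nonneg _).trans (hC 0)
  obtain ⟨A₀, hA₀⟩ := hc.isCompact.isBounded.exists_norm_le
  set A : ℝ := max A₀ 0 with hAdef
  have hA0 : 0 ≤ A := le_max_right _ _
  have hA : ∀ s ∈ tsupport φ, ‖s‖ ≤ A := fun s hs => (hA₀ s hs).trans (le_max_left _ _)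
  set α : ℝ := -A - 1 with hα
  set β : ℝ := A + 1 with hβ
  have hsupp : ∀ s, s ∉ Set.Ioc α β → φ s = 0 := by
    intro s hs
    by_contra hne
    have h1 := hA s (subset_tsupport φ hne)
    rw [Real.norm_eq_abs, abs_le] at h1
    exact hs ⟨by linarith [h1.1], by linarith [h1.2]⟩
  set M : Measure (((ℤ → Bool) × KG G) × ℝ) := M₁.map (Prod.map Prod.fst id) with hMdef
  have hM0 : LL U (w0 (uG G)) M := joint_fst x R hM
  set S : Set (((ℤ → Bool) × KG G) × ℝ) :=
    (fun z : ((ℤ → Bool) × KG G) × ℝ => z.2) ⁻¹' Set.Ioc α β with hS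
  have hSm : MeasurableSet S := measurable_snd measurableSet_Ioc
  have hMS : M S = ENNReal.ofReal (β - α) := by
    have h1 := LL.snd hU hM0
    rw [← Real.volume_Ioc, ← h1, Measure.map_apply measurable_snd measurableSet_Ioc]
  have hMSf : M S ≠ ⊤ := by
    rw [hMS]
    exact ENNReal.ofReal_ne_top
  have hpm : Measurable (Prod.map Prod.fst id : (((ℤ → Bool) × KG G) × X) × ℝ →
      ((ℤ → Bool) × KG G) × ℝ) := measurable_fst.prodMap measurable_id
  set P : ℕ → Fin r → ((ℤ → Bool) × KG G) × ℝ → ℝ := fun H j => f5_P ξ (p x) h R g σ H j with hP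
  have hPm : ∀ H j, Measurable (P H j) := fun H j => f5_meas hF (p x) h R hg hσm H j
  have hPb : ∀ H j z, |P H j z| ≤ Cg := fun H j z => f5_bdd hCg' H j z
  have hfin : IsFiniteMeasure (M.restrict S) := ⟨by
    rw [Measure.restrict_apply_univ]
    exact lt_top_iff_ne_top.2 hMSf⟩
  have hi1 : ∀ H j, Integrable (fun z => |P H j z|) (M.restrict S) := by
    intro H j
    refine Integrable.of_bound (hPm H j).abs.aestronglyMeasurable Cg
      (Filter.Eventually.of_forall fun z => ?_)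
    rw [Real.norm_eq_abs, abs_abs]
    exact hPb H j z
  have hi2 : ∀ H j, Integrable (fun z => P H j z ^ 2) (M.restrict S) := by
    intro H j
    refine Integrable.of_bound ((hPm H j).pow_const 2).aestronglyMeasurable (Cg ^ 2)
      (Filter.Eventually.of_forall fun z => ?_)
    rw [norm_pow, Real.norm_eq_abs]
    exact pow_le_pow_left₀ (abs_nonneg _) (hPb H j z) 2
  -- the complex form
  have hZ' : ∀ j, Tendsto (fun H : ℕ => ∫ z in S, P H j z ^ 2 ∂M) atTop (𝓝 0) := by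
    intro j
    refine (hZ α β j).congr fun H => ?_
    refine setIntegral_congr_fun hSm fun z _ => ?_
    have h1 : (H : ℂ)⁻¹ * ∑ i ∈ Finset.range H, (sgn (((⇑(S0 (uG G)))^[i] z).1.1 0) : ℂ) *
          ((g (ξ (kap (p x) h R (uG G ^ i * z.1.2), itc (uG G) σ i z.1.2 j)) : ℝ) : ℂ) =
        ((P H j z : ℝ) : ℂ) := by
      simp only [hP, f5_P]
      push_cast
      congr 1
      refine Finset.sum_congr rfl fun i _ => ?_
      rw [S0_iter]
      dsimp only
      rw [zero_add]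
    rw [h1, Complex.norm_real, Real.norm_eq_abs, sq_abs]
  -- the bound for every H
  have hbound : ∀ ε : ℝ, 0 < ε → ∀ H : ℕ, 1 ≤ H →
      ‖∫ z, sgn (z.1.1.1 0) * g z.1.2 * φ z.2 ∂M₁‖ ≤
        C * ∑ j : Fin r, (ε * (β - α) + ε⁻¹ * ∫ z in S, P H j z ^ 2 ∂M) := by
    intro ε hε H hH
    rw [avg_eq hU x R hM g hg φ hφ hc hH]
    have hmap : ∀ j, ∫ z, S.indicator (fun z => |P H j z|) z ∂M =
        ∫ z, S.indicator (fun z => |P H j z|) (Prod.map Prod.fst id z) ∂M₁ := by
      intro j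
      rw [hMdef]
      exact integral_map hpm.aemeasurable
        ((hPm H j).abs.indicator hSm).aestronglyMeasurable
    have hint : ∀ j, Integrable (fun z => S.indicator (fun z => |P H j z|) (Prod.map Prod.fst id z))
        M₁ := by
      intro j
      have h1 : Integrable (S.indicator (fun z => |P H j z|)) M :=
        (integrable_indicator_iff hSm).2 (hi1 H j)
      exact (integrable_map_measure ((hPm H j).abs.indicator hSm).aestronglyMeasurable
        hpm.aemeasurable).1 h1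
    have h2 : ‖∫ z, (H : ℝ)⁻¹ * (∑ i ∈ Finset.range H, sgn (z.1.1.1 i) *
          g ((⇑T)^[R * i] z.1.2)) * φ z.2 ∂M₁‖ ≤
        ∫ z, C * ∑ j : Fin r, S.indicator (fun z => |P H j z|) (Prod.map Prod.fst id z) ∂M₁ := by
      refine norm_integral_le_of_norm_le
        ((integrable_finsetSum _ fun j _ => hint j).const_mul C) ?_
      filter_upwards [joint_carr hF h x R hM, joint_good hF hG h hU x hR hM] with z hz1 hz2
      have h3 : (H : ℝ)⁻¹ * (∑ i ∈ Finset.range H, sgn (z.1.1.1 i) * g ((⇑T)^[R * i] z.1.2)) =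
          P H (lab z.1.2) (Prod.map Prod.fst id z) := by
        simp only [hP, f5_P]
        congr 1
        refine Finset.sum_congr rfl fun i _ => ?_
        rw [(iter_coc hF h (p x) R σ hσ hz2 hz1 i).2]
        rfl
      rw [h3, norm_mul, Real.norm_eq_abs, mul_comm]
      by_cases hzS : z.2 ∈ Set.Ioc α β
      · refine mul_le_mul (hC _) ?_ (abs_nonneg _) hC0
        have hzS' : (Prod.map Prod.fst id z : ((ℤ → Bool) × KG G) × ℝ) ∈ S := hzS
        have h4 : |P H (lab z.1.2) (Prod.map Prod.fst id z)| =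
            S.indicator (fun z' => |P H (lab z.1.2) z'|) (Prod.map Prod.fst id z) := by
          rw [Set.indicator_of_mem hzS']
        rw [h4]
        exact Finset.single_le_sum (f := fun j => S.indicator (fun z => |P H j z|)
          (Prod.map Prod.fst id z)) (fun j _ => Set.indicator_nonneg (fun _ _ => abs_nonneg _) _)
          (Finset.mem_univ (lab z.1.2))
      · rw [hsupp _ hzS, norm_zero, zero_mul]
        exact mul_nonneg hC0 (Finset.sum_nonneg fun j _ =>
          Set.indicator_nonneg (fun _ _ => abs_nonneg _) _)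
    refine h2.trans ?_
    rw [integral_const_mul, integral_finsetSum _ fun j _ => hint j]
    refine mul_le_mul_of_nonneg_left (Finset.sum_le_sum fun j _ => ?_) hC0
    rw [← hmap j, integral_indicator hSm]
    have h5 : ∫ z in S, |P H j z| ∂M ≤ ∫ z in S, (ε + ε⁻¹ * P H j z ^ 2) ∂M := by
      refine integral_mono (hi1 H j) ((integrable_const ε).add ((hi2 H j).const_mul _)) fun z => ?_
      exact f5_le hε
    refine h5.trans (le_of_eq ?_)
    rw [integral_add (integrable_const ε) ((hi2 H j).const_mul _), integral_const_mul,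
      integral_const, Measure.real, Measure.restrict_apply_univ, hMS,
      ENNReal.toReal_ofReal (by rw [hα, hβ]; linarith),
      smul_eq_mul, mul_comm ε]
  have hαβ : 0 ≤ β - α := by
    rw [hα, hβ]
    linarith
  have hlim : ∀ ε : ℝ, 0 < ε → ‖∫ z, sgn (z.1.1.1 0) * g z.1.2 * φ z.2 ∂M₁‖ ≤
      C * ∑ j : Fin r, (ε * (β - α) + ε⁻¹ * 0) := by
    intro ε hε
    refine ge_of_tendsto (Tendsto.const_mul C (tendsto_finset_sum _ fun j _ =>
      Tendsto.const_add _ ((hZ' j).const_mul ε⁻¹)))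
      (Filter.eventually_atTop.2 ⟨1, fun H hH => hbound ε hε H hH⟩)
  set I : ℝ := ‖∫ z, sgn (z.1.1.1 0) * g z.1.2 * φ z.2 ∂M₁‖ with hI
  set L : ℝ := C * (r * (β - α)) with hL
  have hL0 : 0 ≤ L := by positivity
  have hlim2 : ∀ ε : ℝ, 0 < ε → I ≤ L * ε := by
    intro ε hε
    refine (hlim ε hε).trans (le_of_eq ?_)
    rw [mul_zero, add_zero, Finset.sum_const, Finset.card_univ, Fintype.card_fin, nsmul_eq_mul, hL]
    ring
  rw [← norm_eq_zero, ← hI]
  refine le_antisymm ?_ (norm_nonneg _)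
  by_contra hne
  have hIpos : 0 < I := not_le.1 hne
  have h6 := hlim2 (I / (2 * (L + 1))) (by positivity)
  have h7 : L * (I / (2 * (L + 1))) ≤ I / 2 := by
    rw [← mul_div_assoc, div_le_div_iff₀ (by positivity) (by norm_num)]
    nlinarith
  linarith
-- END f5

-- BEGIN f6
private theorem f6_polish (G : Subgroup Circle) [Countable G] : StandardBorelSpace (KG G) := by
  let _ : MetricSpace (KG G) := TopologicalSpace.metrizableSpaceMetric (KG G)
  infer_instance

private theorem f6_sgn_cont {V : Type*} [TopologicalSpace V] (f : V → Bool) (hf : Continuous f) :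
    Continuous fun v => sgn (f v) :=
  (continuous_of_discreteTopology (f := sgn)).comp hf

private theorem f6_abs_lam (n : ℕ) : |lam n| = 1 := by
  rw [lam, abs_pow, abs_neg, abs_one, one_pow]

/-- LIOUVILLE. `countable_E0`, `thmA` give `Fib`; `G = satG (E0 T)` (`sat_satG`, `le_satG`, `countable_satG`, `kd_sat`). For every
ultrafilter `U ≤ atTop` take `M₁` from `exists_LL`; `ds0` for the image measure (`joint_fst`), `thmZ` (with
`a y j = (g (ξ (κ y, j)) : ℂ)`) gives `hZ`, `joint_zero` and `LL.lim` give `LS (w1 ..) (sgn l_0 g φ) → 0` along `U`; all ultrafilters: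
`tendsto_iff_ultrafilter`; `cesaro` with `b n = lam n * g (T^(R n) x)` (`sgn_lamB`). -/
theorem lam_avg (T : X ≃ₜ X) (hT : IsMin T) (hB : Pool.Agent.Sar.BddSeqEnt T) (hE : E2) (x : X) {R : ℕ}
    (hR : 1 ≤ R) (g : X → ℝ) (hg : Continuous g) :
    Tendsto (fun N : ℕ => (1 / (N : ℝ)) * ∑ n ∈ Finset.range N, lam n * g ((⇑T)^[R * n] x)) atTop (𝓝 0) := by
  have hcE := countable_E0 T hT
  obtain ⟨p, hpc, hpT, r, K', lab, ξ, hKm, hKn, hKu, hlab, hξ, hfib⟩ := thmA T hT hB
  have hF : Fib T (E0 T) r p K' lab ξ := ⟨hpc, hpT, hKm, fun m _ => hKn m, hKu, hlab, hξ, hfib⟩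
  have hG := sat_satG (E0 T)
  have h := le_satG (E0 T)
  obtain ⟨C, hC⟩ : ∃ C : ℝ, ∀ y, |g y| ≤ C := by
    obtain ⟨C, hC⟩ := isCompact_univ.exists_bound_of_continuousOn (f := g) hg.continuousOn
    exact ⟨C, fun y => by simpa using hC y (Set.mem_univ y)⟩
  refine cesaro (fun n => lam n * g ((⇑T)^[R * n] x)) (B := C) (fun n => ?_) ?_
  · rw [abs_mul, f6_abs_lam, one_mul]
    exact hC _
  intro φ hφ hc
  rw [tendsto_iff_ultrafilter]
  intro U hU
  have hstd := f6_polish (satG (E0 T))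
  obtain ⟨M₁, hM⟩ := exists_LL U hU (w1 (satG (E0 T)) T x R)
  have hfst := joint_fst x R hM
  obtain ⟨σ, hσm, hσ⟩ := exists_coc hF h (p x) R
  let m : Measure (KG (satG (E0 T))) := Measure.haarMeasure ⊤
  have hmp : IsProbabilityMeasure m := ⟨by
    have := Measure.haarMeasure_self (K₀ := (⊤ : TopologicalSpace.PositiveCompacts (KG (satG (E0 T)))))
    simpa using this⟩
  have hds := ds0 (m := m) hG hE hU hfst
  have hZ : ∀ (α β : ℝ) (j : Fin r), Tendsto (fun H : ℕ =>
      ∫ z in (fun z : ((ℤ → Bool) × KG (satG (E0 T))) × ℝ => z.2) ⁻¹' Set.Ioc α β,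
        ‖(H : ℂ)⁻¹ * ∑ i ∈ Finset.range H, (sgn (((⇑(S0 (uG (satG (E0 T)))))^[i] z).1.1 0) : ℂ) *
          ((g (ξ (kap (p x) h R (uG (satG (E0 T)) ^ i * z.1.2), itc (uG (satG (E0 T))) σ i z.1.2 j)) : ℝ) : ℂ)‖ ^ 2
          ∂(M₁.map (Prod.map Prod.fst id))) atTop (𝓝 0) := by
    intro α β j
    have hkc := kap_cont (p x) h R
    have ha : Measurable (fun (y : KG (satG (E0 T))) (j : Fin r) => ((g (ξ (kap (p x) h R y, j)) : ℝ) : ℂ)) := by
      refine measurable_pi_lambda _ fun j => ?_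
      exact Complex.measurable_ofReal.comp (hg.measurable.comp
        (hξ.comp (hkc.measurable.prodMk measurable_const)))
    exact thmZ (kd_sat _ hG) hds r σ hσm
      (fun (y : KG (satG (E0 T))) (j : Fin r) => ((g (ξ (kap (p x) h R y, j)) : ℝ) : ℂ)) ha
      ⟨C, fun y i => by rw [Complex.norm_real, Real.norm_eq_abs]; exact hC _⟩ α β j
  have hz := joint_zero hF hG h hU x hR hM g hg σ hσm hσ hZ φ hφ hc
  obtain ⟨A, hA⟩ := hc.isCompact.isBounded.exists_norm_le
  have hS : S7b.Sup A (fun z : ((((ℤ → Bool) × KG (satG (E0 T))) × X) × ℝ) =>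
      sgn (z.1.1.1 0) * g z.1.2 * φ z.2) := by
    intro z hz'
    have h0 : φ z.2 = 0 := by
      by_contra hne
      have := hA z.2 (subset_tsupport φ hne)
      rw [Real.norm_eq_abs] at this
      exact absurd (lt_of_le_of_lt this hz') (lt_irrefl _)
    simp only [h0, mul_zero]
  have hcont : Continuous (fun z : ((((ℤ → Bool) × KG (satG (E0 T))) × X) × ℝ) =>
      sgn (z.1.1.1 0) * g z.1.2 * φ z.2) := by
    refine ((f6_sgn_cont _ ?_).mul (hg.comp (continuous_snd.comp continuous_fst))).mul (hφ.comp continuous_snd)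
    exact (continuous_apply (0 : ℤ)).comp (continuous_fst.comp (continuous_fst.comp continuous_fst))
  have hl := hM.lim _ hcont hS.compact
  rw [hz] at hl
  refine hl.congr fun N => ?_
  unfold LS
  refine tsum_congr fun n => ?_
  have h1 : sgn ((w1 (satG (E0 T)) T x R n).1.1 0) = lam n := by
    rw [← sgn_lamB]
    simp [w1, w0]
  change (1 / (n : ℝ)) * (sgn ((w1 (satG (E0 T)) T x R n).1.1 0) * g ((⇑T)^[R * n] x) * φ _) = _
  rw [h1]
-- END f6

end fin

-- BEGIN m1
private theorem m1_sq_dvd_aux {a b d : ℕ} (ha : 0 < a) (hb : 0 < b) (hsq : Squarefree a)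
    (h : d ^ 2 ∣ b ^ 2 * a) : d ∣ b := by
  have hn : b ^ 2 * a ≠ 0 := by positivity
  have hd0 : d ≠ 0 := by
    rintro rfl
    rw [zero_pow two_ne_zero, zero_dvd_iff] at h
    exact hn h
  rw [← Nat.factorization_le_iff_dvd hd0 hb.ne']
  rw [← Nat.factorization_le_iff_dvd (pow_ne_zero 2 hd0) hn] at h
  intro p
  have hp := h p
  rw [Nat.factorization_mul (pow_ne_zero 2 hb.ne') ha.ne', Nat.factorization_pow,
    Nat.factorization_pow] at hp
  have h1 := hsq.natFactorization_le_one p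
  simp only [Finsupp.coe_smul, Finsupp.coe_add, Pi.add_apply, Pi.smul_apply, smul_eq_mul] at hp
  omega

private theorem m1_moeb_id (n B : ℕ) (hn : 1 ≤ n) (hB : n ≤ B) :
    ((ArithmeticFunction.moebius n : ℤ) : ℝ) =
      ∑ d ∈ (Finset.Icc 1 B).filter (fun d => d ^ 2 ∣ n),
        ((ArithmeticFunction.moebius d : ℤ) : ℝ) * lam (n / d ^ 2) := by
  obtain ⟨a, b, ha, hb, hab, hsq⟩ := Nat.sq_mul_squarefree_of_pos hn
  have hset : (Finset.Icc 1 B).filter (fun d => d ^ 2 ∣ n) = b.divisors := by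
    ext d
    rw [Finset.mem_filter, Finset.mem_Icc, Nat.mem_divisors]
    constructor
    · rintro ⟨_, h⟩
      rw [← hab] at h
      exact ⟨m1_sq_dvd_aux ha hb hsq h, hb.ne'⟩
    · rintro ⟨h, _⟩
      have hdpos : 0 < d := Nat.pos_of_dvd_of_pos h hb
      refine ⟨⟨hdpos, ?_⟩, ?_⟩
      · have h1 : d ≤ b := Nat.le_of_dvd hb h
        have h2 : b ≤ n := by
          rw [← hab]
          nlinarith [Nat.mul_le_mul hb hb]
        omega
      · rw [← hab]
        exact Dvd.dvd.mul_right (pow_dvd_pow_of_dvd h 2) a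
  rw [hset]
  have hlio : ∀ d ∈ b.divisors, lam (n / d ^ 2) = lam n := by
    intro d hd
    rw [Nat.mem_divisors] at hd
    have hdpos : 0 < d := Nat.pos_of_dvd_of_pos hd.1 hb
    have hdn : d ^ 2 ∣ n := by
      rw [← hab]
      exact Dvd.dvd.mul_right (pow_dvd_pow_of_dvd hd.1 2) a
    obtain ⟨k, rfl⟩ := hdn
    have hk : k ≠ 0 := by
      rintro rfl
      simp at hn
    rw [Nat.mul_div_cancel_left k (by positivity)]
    unfold lam
    rw [ArithmeticFunction.cardFactors_mul (pow_ne_zero 2 hdpos.ne') hk,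
      ArithmeticFunction.cardFactors_pow, pow_add, pow_mul]
    norm_num
  rw [Finset.sum_congr rfl (fun d hd => by rw [hlio d hd]), ← Finset.sum_mul]
  have hsum : (∑ d ∈ b.divisors, ((ArithmeticFunction.moebius d : ℤ) : ℝ)) =
      if b = 1 then 1 else 0 := by
    have h1 : (ArithmeticFunction.moebius *
        (ArithmeticFunction.zeta : ArithmeticFunction ℤ)) b = (1 : ArithmeticFunction ℤ) b := by
      rw [ArithmeticFunction.moebius_mul_coe_zeta]
    rw [ArithmeticFunction.coe_mul_zeta_apply, ArithmeticFunction.one_apply] at h1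
    rw [← Int.cast_sum, h1]
    split_ifs <;> simp
  rw [hsum]
  by_cases hb1 : b = 1
  · rw [if_pos hb1, one_mul]
    have hna : n = a := by rw [← hab, hb1]; simp
    rw [← hna] at hsq
    rw [ArithmeticFunction.moebius_apply_of_squarefree hsq]
    unfold lam
    push_cast
    rfl
  · rw [if_neg hb1, zero_mul]
    have : ¬ Squarefree n := by
      intro h
      have h2 : IsUnit b := h b (by rw [← hab, pow_two]; exact Dvd.intro _ rfl)
      exact hb1 (Nat.isUnit_iff.1 h2)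
    rw [ArithmeticFunction.moebius_eq_zero_of_not_squarefree this]
    simp

private theorem m1_abs_lam (n : ℕ) : |lam n| = 1 := by
  unfold lam
  rw [abs_pow, abs_neg, abs_one, one_pow]

/-- the sum over the multiples of `e` -/
private theorem m1_mult (b : ℕ → ℝ) (N e : ℕ) (he : 0 < e) :
    ∑ n ∈ Finset.Icc 1 N, (if e ∣ n then lam (n / e) * b n else 0) =
      ∑ k ∈ Finset.Icc 1 (N / e), lam k * b (e * k) := by
  rw [← Finset.sum_filter]
  symm
  refine Finset.sum_bij (fun k _ => e * k) ?_ ?_ ?_ ?_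
  · intro k hk
    rw [Finset.mem_Icc, Nat.le_div_iff_mul_le he] at hk
    rw [Finset.mem_filter, Finset.mem_Icc]
    refine ⟨⟨Nat.mul_pos he hk.1, ?_⟩, Dvd.intro _ rfl⟩
    rw [mul_comm e k]
    exact hk.2
  · intro a _ b _ h
    exact Nat.eq_of_mul_eq_mul_left he h
  · intro n hn
    rw [Finset.mem_filter, Finset.mem_Icc] at hn
    obtain ⟨hn1, k, rfl⟩ := hn
    refine ⟨k, ?_, rfl⟩
    rw [Finset.mem_Icc, Nat.le_div_iff_mul_le he, mul_comm k e]
    exact ⟨Nat.pos_of_mul_pos_left hn1.1, hn1.2⟩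
  · intro k _
    rw [Nat.mul_div_cancel_left k he]

private theorem m1_decomp (b : ℕ → ℝ) (N : ℕ) :
    ∑ n ∈ Finset.Icc 1 N, b n * ((ArithmeticFunction.moebius n : ℤ) : ℝ) =
      ∑ d ∈ Finset.Icc 1 N, ((ArithmeticFunction.moebius d : ℤ) : ℝ) *
        ∑ k ∈ Finset.Icc 1 (N / d ^ 2), lam k * b (d ^ 2 * k) := by
  have h1 : ∀ n ∈ Finset.Icc 1 N, b n * ((ArithmeticFunction.moebius n : ℤ) : ℝ) =
      ∑ d ∈ Finset.Icc 1 N, ((ArithmeticFunction.moebius d : ℤ) : ℝ) *
        (if d ^ 2 ∣ n then lam (n / d ^ 2) * b n else 0) := by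
    intro n hn
    rw [Finset.mem_Icc] at hn
    rw [m1_moeb_id n N hn.1 hn.2, Finset.sum_filter, Finset.mul_sum]
    refine Finset.sum_congr rfl fun d _ => ?_
    split_ifs
    · ring
    · ring
  rw [Finset.sum_congr rfl h1, Finset.sum_comm]
  refine Finset.sum_congr rfl fun d hd => ?_
  rw [Finset.mem_Icc] at hd
  rw [← Finset.mul_sum, m1_mult b N (d ^ 2) (pow_pos hd.1 2)]

/-- `μ(n) = Σ_{d² ∣ n} μ(d) λ(n/d²)` (`moeb_id` in `Pool/Agent/Mrd/Mu.lean` is private: copy it), so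
`(1/N) Σ_{n ≤ N} μ(n) b(n) = Σ_d μ(d) (1/N) Σ_{k ≤ N/d²} λ(k) b(d² k)`; each `d` tends to `0`, the sum over `d > D` is at
most `B Σ_{d>D} 1/d²`. -/
theorem mu_of_lam (b : ℕ → ℝ) {B : ℝ} (hb : ∀ n, |b n| ≤ B)
    (h : ∀ d : ℕ, 1 ≤ d → Tendsto (fun N : ℕ => (1 / (N : ℝ)) * ∑ n ∈ Finset.range N, lam n * b (d ^ 2 * n))
      atTop (𝓝 0)) :
    Tendsto (fun N : ℕ => (1 / (N : ℝ)) * ∑ n ∈ Finset.Icc 1 N, b n * ((ArithmeticFunction.moebius n : ℤ) : ℝ))
      atTop (𝓝 0) := by
  have hB : 0 ≤ B := (abs_nonneg _).trans (hb 0)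
  -- the part of one `d`
  let A : ℕ → ℕ → ℝ := fun N d => ((ArithmeticFunction.moebius d : ℤ) : ℝ) *
    ((1 / (N : ℝ)) * ∑ k ∈ Finset.Icc 1 (N / d ^ 2), lam k * b (d ^ 2 * k))
  have hmu : ∀ d : ℕ, |((ArithmeticFunction.moebius d : ℤ) : ℝ)| ≤ 1 := by
    intro d
    have := ArithmeticFunction.abs_moebius_le_one (n := d)
    exact_mod_cast this
  have hbound : ∀ N d : ℕ, ‖A N d‖ ≤ B * (1 / (d : ℝ) ^ 2) := by
    intro N d
    rcases Nat.eq_zero_or_pos d with rfl | hd
    · simp [A]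
    rcases Nat.eq_zero_or_pos N with rfl | hN
    · simp only [A, Nat.zero_div]
      simp
      positivity
    have hdR : (0 : ℝ) < (d : ℝ) ^ 2 := by positivity
    have hNR : (0 : ℝ) < (N : ℝ) := by exact_mod_cast hN
    have h1 : |∑ k ∈ Finset.Icc 1 (N / d ^ 2), lam k * b (d ^ 2 * k)| ≤
        ((N / d ^ 2 : ℕ) : ℝ) * B := by
      refine (Finset.abs_sum_le_sum_abs _ _).trans ?_
      have h2 : ∀ k ∈ Finset.Icc 1 (N / d ^ 2), |lam k * b (d ^ 2 * k)| ≤ B := by
        intro k _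
        rw [abs_mul, m1_abs_lam, one_mul]
        exact hb _
      refine (Finset.sum_le_sum h2).trans ?_
      rw [Finset.sum_const, Nat.card_Icc, Nat.add_sub_cancel, nsmul_eq_mul]
    have h3 : ((N / d ^ 2 : ℕ) : ℝ) ≤ (N : ℝ) / (d : ℝ) ^ 2 := by
      refine Nat.cast_div_le.trans ?_
      push_cast
      exact le_refl _
    rw [Real.norm_eq_abs]
    simp only [A]
    rw [abs_mul, abs_mul]
    have h4 : |1 / (N : ℝ)| = 1 / N := abs_of_pos (by positivity)
    rw [h4]
    have h5 : 1 / (N : ℝ) * |∑ k ∈ Finset.Icc 1 (N / d ^ 2), lam k * b (d ^ 2 * k)| ≤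
        1 / (N : ℝ) * ((N : ℝ) / (d : ℝ) ^ 2 * B) := by
      refine mul_le_mul_of_nonneg_left (h1.trans ?_) (by positivity)
      exact mul_le_mul_of_nonneg_right h3 hB
    have h6 : 1 / (N : ℝ) * ((N : ℝ) / (d : ℝ) ^ 2 * B) = B * (1 / (d : ℝ) ^ 2) := by
      field_simp
    rw [h6] at h5
    calc |((ArithmeticFunction.moebius d : ℤ) : ℝ)| *
          (1 / (N : ℝ) * |∑ k ∈ Finset.Icc 1 (N / d ^ 2), lam k * b (d ^ 2 * k)|)
        ≤ 1 * (1 / (N : ℝ) * |∑ k ∈ Finset.Icc 1 (N / d ^ 2), lam k * b (d ^ 2 * k)|) :=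
          mul_le_mul_of_nonneg_right (hmu d) (by positivity)
      _ ≤ B * (1 / (d : ℝ) ^ 2) := by rw [one_mul]; exact h5
  have hlim : ∀ d : ℕ, Tendsto (fun N => A N d) atTop (𝓝 0) := by
    intro d
    rcases Nat.eq_zero_or_pos d with rfl | hd
    · simp [A]
    have hd2 : 0 < d ^ 2 := by positivity
    have hM : Tendsto (fun N : ℕ => N / d ^ 2 + 1) atTop atTop :=
      (tendsto_add_atTop_nat 1).comp (Nat.tendsto_div_const_atTop hd2.ne')
    have h1 := (h d hd).comp hM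
    have hN0 : Tendsto (fun N : ℕ => (1 / (N : ℝ)) * (lam 0 * b (d ^ 2 * 0))) atTop (𝓝 0) := by
      have := (tendsto_one_div_atTop_nhds_zero_nat (𝕜 := ℝ)).mul_const (lam 0 * b (d ^ 2 * 0))
      simpa using this
    -- the bounded factor
    have h2 : Tendsto (fun N : ℕ => (((N / d ^ 2 + 1 : ℕ) : ℝ) / N) *
        ((1 / ((N / d ^ 2 + 1 : ℕ) : ℝ)) *
          ∑ n ∈ Finset.range (N / d ^ 2 + 1), lam n * b (d ^ 2 * n))) atTop (𝓝 0) := by
      refine bdd_le_mul_tendsto_zero' 2 (Filter.Eventually.of_forall fun N => ?_) h1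
      rcases Nat.eq_zero_or_pos N with rfl | hN
      · simp
      have hNR : (0 : ℝ) < (N : ℝ) := by exact_mod_cast hN
      rw [abs_of_nonneg (by positivity), div_le_iff₀ hNR]
      have h3 : N / d ^ 2 + 1 ≤ 2 * N := by
        have := Nat.div_le_self N (d ^ 2)
        omega
      exact_mod_cast h3
    have h4 : Tendsto (fun N : ℕ => (1 / (N : ℝ)) *
        ∑ k ∈ Finset.Icc 1 (N / d ^ 2), lam k * b (d ^ 2 * k)) atTop (𝓝 0) := by
      have h5 := h2.sub hN0
      rw [sub_zero] at h5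
      refine h5.congr fun N => ?_
      have h6 : ∑ n ∈ Finset.range (N / d ^ 2 + 1), lam n * b (d ^ 2 * n) =
          lam 0 * b (d ^ 2 * 0) + ∑ k ∈ Finset.Icc 1 (N / d ^ 2), lam k * b (d ^ 2 * k) := by
        rw [Finset.range_eq_Ico, Finset.sum_eq_sum_Ico_succ_bot (Nat.succ_pos _)]
        rfl
      rw [h6]
      have h7 : (((N / d ^ 2 + 1 : ℕ) : ℝ)) ≠ 0 := by positivity
      field_simp
      ring
    have h8 := h4.const_mul ((ArithmeticFunction.moebius d : ℤ) : ℝ)
    rw [mul_zero] at h8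
    exact h8
  have hsum : Summable (fun d : ℕ => B * (1 / (d : ℝ) ^ 2)) :=
    (Real.summable_one_div_nat_pow.2 (by norm_num)).mul_left B
  have key := tendsto_tsum_of_dominated_convergence (𝓕 := atTop) (f := fun N d => A N d)
    (g := fun _ => (0 : ℝ)) hsum hlim (Filter.Eventually.of_forall fun N d => hbound N d)
  rw [tsum_zero] at key
  refine key.congr fun N => ?_
  have hz : ∀ d ∉ Finset.Icc 1 N, A N d = 0 := by
    intro d hd
    rw [Finset.mem_Icc] at hd
    rcases Nat.eq_zero_or_pos d with rfl | hd1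
    · simp [A]
    have h1 : N < d ^ 2 := by nlinarith [Nat.lt_of_not_le (fun h => hd ⟨hd1, h⟩)]
    simp only [A]
    rw [Nat.div_eq_of_lt h1]
    simp
  rw [tsum_eq_sum (s := Finset.Icc 1 N) (fun d hd => hz d hd), m1_decomp, Finset.mul_sum]
  refine Finset.sum_congr rfl fun d _ => ?_
  simp only [A]
  ring
-- END m1

-- BEGIN m2
/-- real and imaginary part of `g`, `lam_avg`, `mu_of_lam` -/
theorem final_of_E2 {X : Type*} [MetricSpace X] [CompactSpace X] [Nonempty X] [MeasurableSpace X] [BorelSpace X]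
    (hE : E2) (T : X ≃ₜ X) (hT : IsMin T) (hB : Pool.Agent.Sar.BddSeqEnt T) (x : X) (g : C(X, ℂ)) :
    Tendsto (fun N : ℕ => (N : ℂ)⁻¹ * ∑ n ∈ Finset.Icc 1 N,
      g ((⇑T)^[n] x) * ((ArithmeticFunction.moebius n : ℤ) : ℂ)) atTop (𝓝 0) := by
  have key : ∀ f : X → ℝ, Continuous f → Tendsto (fun N : ℕ => (1 / (N : ℝ)) * ∑ n ∈ Finset.Icc 1 N,
      f ((⇑T)^[n] x) * ((ArithmeticFunction.moebius n : ℤ) : ℝ)) atTop (𝓝 0) := by
    intro f hf
    obtain ⟨B, hB'⟩ : ∃ B : ℝ, ∀ y, |f y| ≤ B := by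
      obtain ⟨B, hB'⟩ := (isCompact_range hf).isBounded.exists_norm_le
      exact ⟨B, fun y => hB' _ ⟨y, rfl⟩⟩
    refine mu_of_lam (fun n => f ((⇑T)^[n] x)) (fun n => hB' _) fun d hd => ?_
    exact lam_avg T hT hB hE x (R := d ^ 2) (Nat.one_le_pow _ _ hd) f hf
  have h1 := key (fun y => (g y).re) (Complex.continuous_re.comp g.continuous)
  have h2 := key (fun y => (g y).im) (Complex.continuous_im.comp g.continuous)
  have h3 : Tendsto (fun N : ℕ => (((1 / (N : ℝ)) * ∑ n ∈ Finset.Icc 1 N,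
      (g ((⇑T)^[n] x)).re * ((ArithmeticFunction.moebius n : ℤ) : ℝ) : ℝ) : ℂ) +
      (((1 / (N : ℝ)) * ∑ n ∈ Finset.Icc 1 N,
      (g ((⇑T)^[n] x)).im * ((ArithmeticFunction.moebius n : ℤ) : ℝ) : ℝ) : ℂ) * Complex.I) atTop
      (𝓝 (((0 : ℝ) : ℂ) + ((0 : ℝ) : ℂ) * Complex.I)) :=
    ((Complex.continuous_ofReal.tendsto 0).comp h1).add
      (((Complex.continuous_ofReal.tendsto 0).comp h2).mul_const _)
  simp only [Complex.ofReal_zero, zero_mul, add_zero] at h3
  refine h3.congr fun N => ?_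
  push_cast
  rw [one_div, mul_assoc, ← mul_add, Finset.sum_mul, ← Finset.sum_add_distrib]
  congr 1
  refine Finset.sum_congr rfl fun n _ => ?_
  conv_rhs => rw [← Complex.re_add_im (g ((⇑T)^[n] x))]
  ring
-- END m2

end Pool.Agent.S7
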