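import Pool.Agent.S7.Grp
import Pool.Agent.S7.Kbr

/-!
# S7, block B1: the groups `KG G` (KD for saturated `G`, restriction maps)
-/

set_option autoImplicit false

namespace Pool.Agent.S7

open MeasureTheory Filter Topology
open scoped ENNReal

/-- the evaluation at `w ∈ G`, a character of `KG G` -/
noncomputable def evG {G : Subgroup Circle} (w : G) : PontryaginDual (KG G) :=
  ({ toFun := fun y => y w
     map_one' := rfl
     map_mul' := fun _ _ => rfl
     continuous_toFun := by
       have h : Continuous fun f : Dsc G →ₜ* Circle => f.toContinuousMap :=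
         (ContinuousMonoidHom.isInducing_toContinuousMap _ _).continuous
       exact (continuous_eval_const (F := C(Dsc G, Circle)) (w : Dsc G)).comp h } : KG G →ₜ* Circle)

theorem evG_apply {G : Subgroup Circle} (w : G) (y : KG G) : evG w y = y w := rfl

theorem evG_mul {G : Subgroup Circle} (w w' : G) (y : KG G) : evG (w * w') y = evG w y * evG w' y :=
  map_mul y _ _

theorem evG_u {G : Subgroup Circle} (w : G) : evG w (uG G) = (w : Circle) := rfl

theorem resG_apply {G' G : Subgroup Circle} (h : G' ≤ G) (y : KG G) (w : G') :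
    resG h y w = y (Subgroup.inclusion h w) := rfl

-- BEGIN g1
theorem sat_satG (G : Subgroup Circle) : Sat (satG G) := by
  rintro n hn w ⟨k, hk, hw⟩
  exact ⟨n * k, Nat.mul_pos hn hk, by rw [pow_mul]; exact hw⟩

theorem le_satG (G : Subgroup Circle) : G ≤ satG G := by
  intro w hw
  exact ⟨1, le_rfl, by rw [pow_one]; exact hw⟩

/-- `satG G` is the union over `n` of the preimages of `G` under `w ↦ w^n`, which has finite fibres
(roots of `X^n - c` in `ℂ`). -/
instance countable_satG (G : Subgroup Circle) [Countable G] : Countable (satG G) := by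
  have h1 : ∀ (n : ℕ) (g : G), ({w : Circle | 1 ≤ n ∧ w ^ n = g} : Set Circle).Finite := by
    intro n g
    by_cases hn : 1 ≤ n
    · have h2 : ({z : ℂ | z ^ n = (((g : Circle) : Circle) : ℂ)} : Set ℂ).Finite := by
        refine (Polynomial.nthRoots n (((g : Circle) : Circle) : ℂ)).toFinset.finite_toSet.subset ?_
        intro z hz
        rw [Finset.mem_coe, Multiset.mem_toFinset, Polynomial.mem_nthRoots hn]
        exact hz
      refine (h2.preimage (f := fun w : Circle => (w : ℂ)) Circle.coe_injective.injOn).subset ?_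
      rintro w ⟨_, hw⟩
      show ((w : Circle) : ℂ) ^ n = _
      rw [← Circle.coe_pow, hw]
    · refine Set.finite_empty.subset ?_
      rintro w ⟨h, _⟩
      exact hn h
  have h2 : (⋃ n : ℕ, ⋃ g : G, {w : Circle | 1 ≤ n ∧ w ^ n = g}).Countable :=
    Set.countable_iUnion fun n => Set.countable_iUnion fun g => (h1 n g).countable
  have h3 : {w : Circle | w ∈ satG G}.Countable := by
    refine h2.mono ?_
    rintro w ⟨n, hn, hw⟩
    rw [Set.mem_iUnion]
    refine ⟨n, ?_⟩
    rw [Set.mem_iUnion]
    exact ⟨⟨w ^ n, hw⟩, hn, rfl⟩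
  exact h3.to_subtype

theorem resG_u {G' G : Subgroup Circle} (h : G' ≤ G) : resG h (uG G) = uG G' := by
  refine DFunLike.ext _ _ fun w => ?_
  rfl
-- END g1

-- BEGIN g2
/-- the evaluation as a continuous complex function -/
private noncomputable def g2_ev {G : Subgroup Circle} (w : G) : C(KG G, ℂ) :=
  ⟨fun y => ((evG w y : Circle) : ℂ), continuous_induced_dom.comp (map_continuous (evG w))⟩

private theorem g2_ev_mul {G : Subgroup Circle} (w w' : G) :
    (g2_ev (w * w') : C(KG G, ℂ)) = g2_ev w * g2_ev w' := by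
  refine ContinuousMap.ext fun y => ?_
  show ((evG (w * w') y : Circle) : ℂ) = ((evG w y : Circle) : ℂ) * ((evG w' y : Circle) : ℂ)
  rw [evG_mul, Circle.coe_mul]

private theorem g2_ev_one {G : Subgroup Circle} : (g2_ev (1 : G) : C(KG G, ℂ)) = 1 := by
  refine ContinuousMap.ext fun y => ?_
  show ((evG (1 : G) y : Circle) : ℂ) = 1
  have h : evG (1 : G) y = 1 := map_one y
  rw [h, Circle.coe_one]

private theorem g2_ev_star {G : Subgroup Circle} (w : G) :
    star (g2_ev w : C(KG G, ℂ)) = g2_ev w⁻¹ := by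
  refine ContinuousMap.ext fun y => ?_
  show (starRingEnd ℂ) ((evG w y : Circle) : ℂ) = ((evG w⁻¹ y : Circle) : ℂ)
  have h : evG w⁻¹ y = (evG w y)⁻¹ := map_inv y w
  rw [h, Circle.coe_inv_eq_conj]

/-- the star subalgebra spanned by the evaluations -/
private noncomputable def g2_alg (G : Subgroup Circle) : StarSubalgebra ℂ C(KG G, ℂ) where
  toSubalgebra := Algebra.adjoin ℂ (Set.range g2_ev)
  star_mem' := by
    change Algebra.adjoin ℂ (Set.range (g2_ev (G := G))) ≤
      star (Algebra.adjoin ℂ (Set.range (g2_ev (G := G))))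
    refine Algebra.adjoin_le ?_
    rintro - ⟨w, rfl⟩
    exact Algebra.subset_adjoin ⟨w⁻¹, (g2_ev_star w).symm⟩

private theorem g2_alg_span (G : Subgroup Circle) :
    Subalgebra.toSubmodule (g2_alg G).toSubalgebra = Submodule.span ℂ (Set.range (g2_ev (G := G))) := by
  apply Algebra.adjoin_eq_span_of_subset
  refine Set.Subset.trans ?_ Submodule.subset_span
  intro x hx
  refine Submonoid.closure_induction (fun _ => id) ⟨1, ?_⟩ ?_ hx
  · exact g2_ev_one
  · rintro - - - - ⟨m, rfl⟩ ⟨n, rfl⟩
    exact ⟨m * n, g2_ev_mul m n⟩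

private theorem g2_sep (G : Subgroup Circle) : (g2_alg G).SeparatesPoints := by
  intro x y hxy
  have h : ∃ w : Dsc G, x w ≠ y w := by
    by_contra h
    push Not at h
    exact hxy (DFunLike.ext _ _ h)
  obtain ⟨w, hw⟩ := h
  refine ⟨g2_ev (G := G) w, ⟨g2_ev (G := G) w, Algebra.subset_adjoin ⟨w, rfl⟩, rfl⟩, fun h => hw ?_⟩
  exact Circle.coe_injective h

/-- STONE-WEIERSTRASS: the span of the functions `y ↦ (evG w y : ℂ)`, `w ∈ G`, is a star subalgebra of `C(KG G, ℂ)`
(`evG_mul`, `conj (evG w y) = evG w⁻¹ y`, `evG 1 = 1`) which separates the points: dense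
(`ContinuousMap.starSubalgebra_topologicalClosure_eq_top_of_separatesPoints`). -/
theorem ev_dense {G : Subgroup Circle} (f : KG G → ℂ) (hf : Continuous f) {ε : ℝ} (hε : 0 < ε) :
    ∃ (n : ℕ) (w : Fin n → G) (c : Fin n → ℂ), ∀ y : KG G,
      ‖f y - ∑ i, c i * ((evG (w i) y : Circle) : ℂ)‖ ≤ ε := by
  have h1 := ContinuousMap.starSubalgebra_topologicalClosure_eq_top_of_separatesPoints (g2_alg G)
    (g2_sep G)
  have h2 : (⟨f, hf⟩ : C(KG G, ℂ)) ∈ closure ((g2_alg G : Set C(KG G, ℂ))) := by
    rw [← StarSubalgebra.topologicalClosure_coe, h1]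
    trivial
  obtain ⟨g, hg, hfg⟩ := Metric.mem_closure_iff.1 h2 ε hε
  have h3 : g ∈ Submodule.span ℂ (Set.range (g2_ev (G := G))) := by
    rw [← g2_alg_span]
    exact hg
  obtain ⟨c, hc⟩ := Finsupp.mem_span_range_iff_exists_finsupp.1 h3
  let e : Fin c.support.card ≃ c.support := c.support.equivFin.symm
  refine ⟨c.support.card, fun i => (e i : G), fun i => c (e i), fun y => ?_⟩
  have h4 : ∑ i, c (e i : G) * ((evG (e i : G) y : Circle) : ℂ) = g y := by
    rw [← hc]
    have h5 : (c.sum fun i a => a • g2_ev i) y = ∑ x ∈ c.support, c x * ((evG x y : Circle) : ℂ) := by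
      unfold Finsupp.sum
      rw [ContinuousMap.coe_sum, Finset.sum_apply]
      rfl
    rw [h5, ← Finset.sum_coe_sort c.support fun x => c x * ((evG x y : Circle) : ℂ)]
    exact Equiv.sum_comp e fun x : c.support => c (x : G) * ((evG (x : G) y : Circle) : ℂ)
  rw [h4]
  have h6 := (ContinuousMap.dist_lt_iff hε).1 hfg y
  rw [dist_eq_norm] at h6
  exact h6.le
-- END g2

-- BEGIN g3
private theorem g3_int {G : Subgroup Circle} [Countable G] (χ : PontryaginDual (KG G))
    (hχ : ∀ w : G, χ ≠ evG w) (m : Measure (KG G)) [IsProbabilityMeasure m] [m.IsHaarMeasure] (w : G) :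
    ∫ y, ((evG w y : Circle) : ℂ) * (starRingEnd ℂ) ((χ y : Circle) : ℂ) ∂m = 0 := by
  have h1 : (evG w : PontryaginDual (KG G)) * χ⁻¹ ≠ 1 := by
    intro h
    exact hχ w (mul_inv_eq_one.1 h).symm
  have h2 := chr_int (m := m) _ h1
  rw [← h2]
  refine integral_congr_ae (Eventually.of_forall fun y => ?_)
  show ((evG w y : Circle) : ℂ) * (starRingEnd ℂ) ((χ y : Circle) : ℂ) =
    ((evG w y * (χ y)⁻¹ : Circle) : ℂ)
  rw [Circle.coe_mul, Circle.coe_inv_eq_conj]

private theorem g3_cont {G : Subgroup Circle} (χ : PontryaginDual (KG G)) :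
    Continuous fun y => ((χ y : Circle) : ℂ) :=
  continuous_induced_dom.comp (map_continuous χ)

/-- Every character is an evaluation: otherwise `∫ χ conj(evG w) dm = 0` for all `w` (`chr_int` for `χ (evG w)⁻¹ ≠ 1`,
`m` a Haar probability measure), so by `ev_dense` for `f = χ`: `1 = ∫ |χ|² ≤ ε`. -/
theorem ev_surj {G : Subgroup Circle} [Countable G] (χ : PontryaginDual (KG G)) :
    ∃ w : G, χ = evG w := by
  by_contra hcon
  push Not at hcon
  let m : Measure (KG G) := Measure.haarMeasure (⊤ : TopologicalSpace.PositiveCompacts (KG G))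
  have : IsProbabilityMeasure m := ⟨by
    have h := Measure.haarMeasure_self (K₀ := (⊤ : TopologicalSpace.PositiveCompacts (KG G)))
    simpa using h⟩
  obtain ⟨n, w, c, h⟩ := ev_dense (fun y => ((χ y : Circle) : ℂ)) (g3_cont χ) (half_pos one_pos)
  have h1 : ∀ y : KG G, ‖1 - ∑ i, c i * (((evG (w i) y : Circle) : ℂ) *
      (starRingEnd ℂ) ((χ y : Circle) : ℂ))‖ ≤ 1 / 2 := by
    intro y
    have h2 : 1 - ∑ i, c i * (((evG (w i) y : Circle) : ℂ) * (starRingEnd ℂ) ((χ y : Circle) : ℂ)) =
        (((χ y : Circle) : ℂ) - ∑ i, c i * ((evG (w i) y : Circle) : ℂ)) *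
          (starRingEnd ℂ) ((χ y : Circle) : ℂ) := by
      rw [sub_mul, Finset.sum_mul, Complex.mul_conj, Circle.normSq_coe, Complex.ofReal_one]
      congr 1
      exact Finset.sum_congr rfl fun i _ => by ring
    rw [h2, norm_mul, RCLike.norm_conj, Circle.norm_coe, mul_one]
    exact h y
  have hi : ∀ i, Integrable (fun y : KG G => ((evG (w i) y : Circle) : ℂ) *
      (starRingEnd ℂ) ((χ y : Circle) : ℂ)) m := by
    intro i
    have hc : Continuous fun y : KG G => ((evG (w i) y : Circle) : ℂ) *
        (starRingEnd ℂ) ((χ y : Circle) : ℂ) :=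
      (g3_cont (evG (w i))).mul (Complex.continuous_conj.comp (g3_cont χ))
    exact hc.integrable_of_hasCompactSupport (HasCompactSupport.of_compactSpace _)
  have h3 : ∫ y, (1 - ∑ i, c i * (((evG (w i) y : Circle) : ℂ) *
      (starRingEnd ℂ) ((χ y : Circle) : ℂ))) ∂m = 1 := by
    rw [integral_sub (integrable_const _) (integrable_finsetSum _ fun i _ => (hi i).const_mul _),
      integral_finsetSum _ fun i _ => (hi i).const_mul _]
    have h4 : ∀ i ∈ Finset.univ, ∫ y, c i * (((evG (w i) y : Circle) : ℂ) *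
        (starRingEnd ℂ) ((χ y : Circle) : ℂ)) ∂m = 0 := by
      intro i _
      rw [integral_const_mul, g3_int χ hcon m (w i), mul_zero]
    rw [Finset.sum_eq_zero h4, integral_const]
    simp
  have h5 := norm_integral_le_of_norm_le_const (μ := m) (Eventually.of_forall h1)
  rw [h3] at h5
  norm_num at h5

/-- `sep`: evaluations separate. `dense`: `evG w u = w = 1` gives `evG w = 1`. `div`: `v^n = w` has a solution in `Circle`,
`v ∈ G` as `G` is saturated. `roots`: `z^n = 1 ∈ G` gives `z ∈ G`, `χ = evG z`. -/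
theorem kd_sat (G : Subgroup Circle) [Countable G] (hG : Sat G) : KD (KG G) (uG G) := by
  have hpow : ∀ (n : ℕ) (v : G), (evG v : PontryaginDual (KG G)) ^ n = evG (v ^ n) := by
    intro n v
    induction n with
    | zero =>
      rw [pow_zero, pow_zero]
      exact DFunLike.ext _ _ fun y => (map_one y).symm
    | succ n ih =>
      rw [pow_succ, ih]
      refine DFunLike.ext _ _ fun y => ?_
      show evG (v ^ n) y * evG v y = evG (v ^ (n + 1)) y
      rw [pow_succ, evG_mul]
  refine ⟨?_, ?_, ?_, ?_⟩
  · intro x hx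
    refine DFunLike.ext _ _ fun w => ?_
    exact hx (evG w)
  · intro χ hχ
    obtain ⟨w, rfl⟩ := ev_surj χ
    rw [evG_u] at hχ
    have hw : w = 1 := Subtype.ext hχ
    subst hw
    refine DFunLike.ext _ _ fun y => ?_
    exact map_one y
  · intro n hn χ
    obtain ⟨w, rfl⟩ := ev_surj χ
    obtain ⟨t, ht⟩ := Circle.exp_surjective (w : Circle)
    have hn0 : (n : ℝ) ≠ 0 := by
      have h : 0 < n := hn
      exact_mod_cast h.ne'
    have hv : Circle.exp (t / n) ^ n = (w : Circle) := by
      rw [← Circle.exp_natCast_mul, mul_div_cancel₀ t hn0, ht]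
    generalize Circle.exp (t / n) = v at hv
    have hvG : v ∈ G := hG n hn v (by rw [hv]; exact w.2)
    refine ⟨evG ⟨v, hvG⟩, ?_⟩
    rw [hpow]
    congr 1
    exact Subtype.ext hv
  · intro n hn z hz
    have hzG : z ∈ G := hG n hn z (by rw [hz]; exact G.one_mem)
    exact ⟨evG ⟨z, hzG⟩, evG_u _⟩
-- END g3

-- BEGIN g4
private theorem g4_ev_ne {G : Subgroup Circle} {w : G} (hw : w ≠ 1) : evG w ≠ 1 := by
  intro h
  apply hw
  have h1 : evG w (uG G) = 1 := by rw [h]; rfl
  rw [evG_u] at h1
  exact Subtype.ext h1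

private theorem g4_ev_res {G' G : Subgroup Circle} (h : G' ≤ G) (w : G') (y : KG G) :
    evG w (resG h y) = evG (Subgroup.inclusion h w) y := rfl

private theorem g4_res_cont {G' G : Subgroup Circle} (h : G' ≤ G) :
    Continuous (resG h : KG G → KG G') := (resG h).continuous_toFun

private theorem g4_chr {G' G : Subgroup Circle} [Countable G'] [Countable G] (h : G' ≤ G)
    (m : Measure (KG G)) [m.IsHaarMeasure] [IsProbabilityMeasure m] (m' : Measure (KG G'))
    [m'.IsHaarMeasure] [IsProbabilityMeasure m'] (w : G') :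
    ∫ y, ((evG w (resG h y) : Circle) : ℂ) ∂m = ∫ x, ((evG w x : Circle) : ℂ) ∂m' := by
  by_cases hw : w = 1
  · subst hw
    have h1 : ∀ x : KG G', evG (1 : G') x = 1 := fun x => map_one x
    simp only [h1, Circle.coe_one, integral_const, probReal_univ, one_smul]
  · have hw' : Subgroup.inclusion h w ≠ 1 := by
      intro h1
      apply hw
      apply Subgroup.inclusion_injective h
      rw [h1, map_one]
    rw [chr_int (m := m') (evG w) (g4_ev_ne hw)]
    have h2 := chr_int (m := m) (evG (Subgroup.inclusion h w)) (g4_ev_ne hw')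
    exact h2

private theorem g4_int {G' G : Subgroup Circle} [Countable G'] [Countable G] (h : G' ≤ G)
    (m : Measure (KG G)) [m.IsHaarMeasure] [IsProbabilityMeasure m] (m' : Measure (KG G'))
    [m'.IsHaarMeasure] [IsProbabilityMeasure m'] (f : KG G' → ℂ) (hf : Continuous f) :
    ∫ y, f (resG h y) ∂m = ∫ x, f x ∂m' := by
  have hev : ∀ w : G', Continuous fun x : KG G' => ((evG w x : Circle) : ℂ) := fun w =>
    continuous_subtype_val.comp (evG w).continuous_toFun
  have hI : ∀ {g : KG G' → ℂ}, Continuous g → Integrable g m' := fun hg =>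
    hg.integrable_of_hasCompactSupport (HasCompactSupport.of_compactSpace _)
  have hI2 : ∀ {g : KG G' → ℂ}, Continuous g → Integrable (fun y => g (resG h y)) m := fun hg =>
    (hg.comp (g4_res_cont h)).integrable_of_hasCompactSupport (HasCompactSupport.of_compactSpace _)
  have key : ∀ ε : ℝ, 0 < ε → ‖∫ y, f (resG h y) ∂m - ∫ x, f x ∂m'‖ ≤ 2 * ε := by
    intro ε hε
    obtain ⟨n, w, c, hc⟩ := ev_dense f hf hε
    set g : KG G' → ℂ := fun y => ∑ i, c i * ((evG (w i) y : Circle) : ℂ) with hg
    let t : Fin n → KG G' → ℂ := fun i y => c i * ((evG (w i) y : Circle) : ℂ)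
    have ht : ∀ i, Continuous (t i) := fun i => continuous_const.mul (hev (w i))
    have hgc : Continuous g := continuous_finsetSum _ fun i _ => ht i
    have hti : ∀ i, ∫ y, t i (resG h y) ∂m = ∫ x, t i x ∂m' := by
      intro i
      have a1 : ∫ y, t i (resG h y) ∂m = c i * ∫ y, ((evG (w i) (resG h y) : Circle) : ℂ) ∂m :=
        integral_const_mul _ _
      have a2 : ∫ x, t i x ∂m' = c i * ∫ x, ((evG (w i) x : Circle) : ℂ) ∂m' :=
        integral_const_mul _ _
      rw [a1, a2, g4_chr h m m' (w i)]
    have hgi : ∫ y, g (resG h y) ∂m = ∫ x, g x ∂m' := by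
      have b1 : ∫ y, g (resG h y) ∂m = ∑ i, ∫ y, t i (resG h y) ∂m :=
        integral_finsetSum _ (fun i _ => hI2 (ht i))
      have b2 : ∫ x, g x ∂m' = ∑ i, ∫ x, t i x ∂m' := integral_finsetSum _ (fun i _ => hI (ht i))
      rw [b1, b2]
      exact Finset.sum_congr rfl fun i _ => hti i
    have e1 : ‖∫ y, f (resG h y) ∂m - ∫ y, g (resG h y) ∂m‖ ≤ ε := by
      rw [← integral_sub (hI2 hf) (hI2 hgc)]
      refine (norm_integral_le_of_norm_le_const (C := ε) (ae_of_all _ fun y => hc _)).trans ?_
      simp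
    have e2 : ‖∫ x, g x ∂m' - ∫ x, f x ∂m'‖ ≤ ε := by
      rw [← integral_sub (hI hgc) (hI hf)]
      refine (norm_integral_le_of_norm_le_const (C := ε) (ae_of_all _ fun y => ?_)).trans ?_
      · rw [norm_sub_rev]; exact hc y
      · simp
    calc ‖∫ y, f (resG h y) ∂m - ∫ x, f x ∂m'‖
        = ‖(∫ y, f (resG h y) ∂m - ∫ y, g (resG h y) ∂m) + (∫ x, g x ∂m' - ∫ x, f x ∂m')‖ := by
          rw [hgi]; ring_nf
      _ ≤ ε + ε := (norm_add_le _ _).trans (add_le_add e1 e2)
      _ = 2 * ε := by ring
  have h0 : ‖∫ y, f (resG h y) ∂m - ∫ x, f x ∂m'‖ ≤ 0 := by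
    refine le_of_forall_pos_le_add fun ε hε => ?_
    have := key (ε / 2) (by positivity)
    linarith
  exact sub_eq_zero.1 (norm_le_zero_iff.1 h0)

/-- The two probability measures have the same integrals of all `evG w`: `evG w ∘ resG h = evG (inclusion w)`, both integrals
are `0` for `w ≠ 1` (`chr_int`), `1` for `w = 1`. By `ev_dense` they have the same integrals of all continuous functions
(`ext_of_forall_integral_eq_of_IsFiniteMeasure` or `Measure.ext_of_integral_eq_on_compactlySupported`). -/
theorem resG_map {G' G : Subgroup Circle} [Countable G'] [Countable G] (h : G' ≤ G)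
    (m : Measure (KG G)) [m.IsHaarMeasure] [IsProbabilityMeasure m] (m' : Measure (KG G'))
    [m'.IsHaarMeasure] [IsProbabilityMeasure m'] : m.map (resG h) = m' := by
  have hmeas : Measurable (resG h : KG G → KG G') := (g4_res_cont h).measurable
  have : IsProbabilityMeasure (m.map (resG h)) := Measure.isProbabilityMeasure_map hmeas.aemeasurable
  let _ : MetricSpace (KG G') := TopologicalSpace.metrizableSpaceMetric (KG G')
  refine ext_of_forall_integral_eq_of_IsFiniteMeasure fun f => ?_
  rw [integral_map hmeas.aemeasurable f.continuous.measurable.aestronglyMeasurable]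
  have h1 := g4_int h m m' (fun x => ((f x : ℝ) : ℂ)) (Complex.continuous_ofReal.comp f.continuous)
  have h2 : ∫ y, ((f (resG h y) : ℝ) : ℂ) ∂m = ((∫ y, f (resG h y) ∂m : ℝ) : ℂ) := integral_complex_ofReal
  have h3 : ∫ x, ((f x : ℝ) : ℂ) ∂m' = ((∫ x, f x ∂m' : ℝ) : ℂ) := integral_complex_ofReal
  exact Complex.ofReal_injective (h2.symm.trans (h1.trans h3))

/-- The range is compact, so closed; its complement is open and null for the Haar measure `m.map (resG h)` (`resG_map`;
for the existence of Haar probability measures: `haarMeasure ⊤`). Countability is not needed for the truth of the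
statement, but one may also argue by divisibility of the circle; here we assume it. -/
theorem resG_surj {G' G : Subgroup Circle} [Countable G'] [Countable G] (h : G' ≤ G) :
    Function.Surjective (resG h) := by
  let m : Measure (KG G) := Measure.haarMeasure ⊤
  let m' : Measure (KG G') := Measure.haarMeasure ⊤
  have : IsProbabilityMeasure m := ⟨by
    have h1 := Measure.haarMeasure_self (K₀ := (⊤ : TopologicalSpace.PositiveCompacts (KG G)))
    rwa [TopologicalSpace.PositiveCompacts.coe_top] at h1⟩
  have : IsProbabilityMeasure m' := ⟨by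
    have h1 := Measure.haarMeasure_self (K₀ := (⊤ : TopologicalSpace.PositiveCompacts (KG G')))
    rwa [TopologicalSpace.PositiveCompacts.coe_top] at h1⟩
  have hmeas : Measurable (resG h : KG G → KG G') := (g4_res_cont h).measurable
  have hcl : IsClosed (Set.range (resG h : KG G → KG G')) :=
    (isCompact_range (g4_res_cont h)).isClosed
  have h0 : m' (Set.range (resG h : KG G → KG G'))ᶜ = 0 := by
    rw [← resG_map h m m', Measure.map_apply hmeas hcl.isOpen_compl.measurableSet]
    have h2 : (resG h : KG G → KG G') ⁻¹' (Set.range (resG h : KG G → KG G'))ᶜ = ∅ := by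
      ext x
      simp
    rw [h2, measure_empty]
  have h3 : (Set.range (resG h : KG G → KG G'))ᶜ = ∅ := by
    by_contra hne
    exact (hcl.isOpen_compl.measure_pos m' (Set.nonempty_iff_ne_empty.2 hne)).ne' h0
  intro x
  have : x ∈ Set.range (resG h : KG G → KG G') := by
    rw [Set.compl_empty_iff] at h3
    rw [h3]; trivial
  exact this
-- END g4

-- BEGIN g5
/-- `resG h y ^ R = resG h (y ^ R)`. Replace `A` by a measurable null superset; `A' = {x | k * x ∈ A}` is null (`m'`
translation invariant); `(resG h)⁻¹ A'` is null by `resG_map`; its preimage under `y ↦ y^R` is null by `map_pow`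
(`kd_sat`): `m {y | y^R ∈ B} = (m.map (· ^ R)) B ≤ R * m B = 0`. -/
theorem resG_null {G' G : Subgroup Circle} [Countable G'] [Countable G] (h : G' ≤ G) (hG : Sat G)
    (m : Measure (KG G)) [m.IsHaarMeasure] [IsProbabilityMeasure m] (m' : Measure (KG G'))
    [m'.IsHaarMeasure] [IsProbabilityMeasure m'] {R : ℕ} (hR : 1 ≤ R) (k : KG G') {A : Set (KG G')}
    (hA : m' A = 0) : m {y | k * resG h y ^ R ∈ A} = 0 := by
  have hAm : MeasurableSet (toMeasurable m' A) := measurableSet_toMeasurable m' A
  have h0 : m' (toMeasurable m' A) = 0 := by rw [measure_toMeasurable, hA]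
  have h1 : m' ((fun x => k * x) ⁻¹' toMeasurable m' A) = 0 := by
    rw [measure_preimage_mul, h0]
  have h2 : MeasurableSet ((fun x => k * x) ⁻¹' toMeasurable m' A) :=
    measurable_const_mul k hAm
  have hr : Measurable (resG h) := (resG h).continuous_toFun.measurable
  have h3 : m (resG h ⁻¹' ((fun x => k * x) ⁻¹' toMeasurable m' A)) = 0 := by
    rw [← Measure.map_apply hr h2, resG_map h m m', h1]
  have h4 : MeasurableSet (resG h ⁻¹' ((fun x => k * x) ⁻¹' toMeasurable m' A)) := hr h2
  have hp : Measurable fun x : KG G => x ^ R := (continuous_pow R).measurable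
  have h5 : m ((fun x : KG G => x ^ R) ⁻¹' (resG h ⁻¹' ((fun x => k * x) ⁻¹' toMeasurable m' A)))
      = 0 := by
    rw [← Measure.map_apply hp h4, map_pow (kd_sat G hG) hR, Measure.smul_apply,
      Measure.restrict_apply h4]
    have h6 : m (resG h ⁻¹' ((fun x => k * x) ⁻¹' toMeasurable m' A) ∩ Kq (KG G) R) = 0 :=
      measure_mono_null Set.inter_subset_left h3
    rw [h6, smul_zero]
  refine measure_mono_null ?_ h5
  intro y hy
  have hy' : k * resG h y ^ R ∈ A := hy
  show k * resG h (y ^ R) ∈ toMeasurable m' A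
  rw [_root_.map_pow]
  exact subset_toMeasurable m' A hy'
-- END g5

end Pool.Agent.S7
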