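import Mathlib

/-!
# S7, block B: logarithmic limit measures (abstract part)

`W` compact metrizable, `w : ℕ → W`.  The measures `Σ_{n ≥ 1} (1/n) δ_(w n, log (n/N))` on `W × ℝ` have a vague limit
along every ultrafilter; its basic properties.
-/

namespace S7b

open MeasureTheory Filter Topology Uniformity

/-- logarithmic sums: `Σ_{n ≥ 1} (1/n) f (w n, log (n/N))` (the term `n = 0` vanishes) -/
noncomputable def LS {W : Type*} (w : ℕ → W) (f : W × ℝ → ℝ) (N : ℕ) : ℝ :=
  ∑' n : ℕ, (1 / (n : ℝ)) * f (w n, Real.log ((n : ℝ) / N))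

/-- `f (w, s) = 0` for `|s| > A` -/
def Sup {W : Type*} (A : ℝ) (f : W × ℝ → ℝ) : Prop := ∀ z : W × ℝ, A < |z.2| → f z = 0

section sums

variable {W V : Type*}

-- BEGIN b1
/-- Only the `n` with `|log (n/N)| ≤ A`, i.e. `N e^{-A} ≤ n ≤ N e^A`, count. For `n = 0` the term is `1/0 * .. = 0`. -/
theorem LS_eq (w : ℕ → W) (f : W × ℝ → ℝ) {A : ℝ} (hA : 0 ≤ A) (hf : Sup A f) {N : ℕ} (hN : 1 ≤ N) :
    LS w f N = ∑ n ∈ Finset.Icc ⌈(N : ℝ) * Real.exp (-A)⌉₊ ⌊(N : ℝ) * Real.exp A⌋₊,
      (1 / (n : ℝ)) * f (w n, Real.log ((n : ℝ) / N)) := by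
  have hN0 : (0 : ℝ) < N := by exact_mod_cast hN
  unfold LS
  refine tsum_eq_sum fun n hn => ?_
  rcases Nat.eq_zero_or_pos n with rfl | hn0
  · simp
  have hn0' : (0 : ℝ) < n := by exact_mod_cast hn0
  have h1 : A < |Real.log ((n : ℝ) / N)| := by
    rw [Finset.mem_Icc, not_and_or, not_le, not_le] at hn
    rcases hn with hn | hn
    · have h2 : (n : ℝ) < N * Real.exp (-A) := Nat.lt_ceil.1 hn
      have h3 : (n : ℝ) / N < Real.exp (-A) := by
        rw [div_lt_iff₀ hN0]; linarith [mul_comm (N : ℝ) (Real.exp (-A))]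
      have h4 : Real.log ((n : ℝ) / N) < -A := by
        rw [Real.log_lt_iff_lt_exp (div_pos hn0' hN0)]; exact h3
      rw [lt_abs]
      right; linarith
    · have h2 : (N : ℝ) * Real.exp A < n :=
        (Nat.floor_lt (mul_nonneg hN0.le (Real.exp_pos _).le)).1 hn
      have h3 : Real.exp A < (n : ℝ) / N := by
        rw [lt_div_iff₀ hN0]; linarith [mul_comm (N : ℝ) (Real.exp A)]
      have h4 : A < Real.log ((n : ℝ) / N) := by
        rw [Real.lt_log_iff_exp_lt (div_pos hn0' hN0)]; exact h3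
      rw [lt_abs]
      left; exact h4
  rw [hf (w n, Real.log ((n : ℝ) / N)) h1, mul_zero]

private lemma b1_sum (a : ℕ) (ha : 1 ≤ a) (k : ℕ) :
    ∑ n ∈ Finset.Icc a (a + k), (1 / (n : ℝ)) ≤ 1 + Real.log ((a + k : ℕ) : ℝ) - Real.log a := by
  have ha0 : (0 : ℝ) < a := by exact_mod_cast ha
  induction k with
  | zero =>
    simp only [Nat.add_zero, Finset.Icc_self, Finset.sum_singleton]
    have : (1 : ℝ) / a ≤ 1 := by
      rw [div_le_one ha0]; exact_mod_cast ha
    linarith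
  | succ k ih =>
    have h1 : Finset.Icc a (a + (k + 1)) = insert (a + k + 1) (Finset.Icc a (a + k)) := by
      ext x
      simp only [Finset.mem_Icc, Finset.mem_insert]
      omega
    rw [h1, Finset.sum_insert (by simp)]
    have hb : (0 : ℝ) < ((a + k : ℕ) : ℝ) := by
      exact_mod_cast Nat.lt_of_lt_of_le ha (Nat.le_add_right a k)
    have h2 := Real.one_sub_inv_le_log_of_pos
      (div_pos (by positivity : (0 : ℝ) < ((a + k : ℕ) : ℝ) + 1) hb)
    rw [Real.log_div (by positivity) hb.ne', inv_div] at h2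
    have h3 : 1 - ((a + k : ℕ) : ℝ) / (((a + k : ℕ) : ℝ) + 1) = 1 / (((a + k + 1 : ℕ)) : ℝ) := by
      push_cast
      field_simp
      ring
    have h4 : ((a + (k + 1) : ℕ) : ℝ) = ((a + k : ℕ) : ℝ) + 1 := by push_cast; ring
    rw [h4]
    rw [h3] at h2
    linarith

/-- `Σ_{N e^{-A} ≤ n ≤ N e^A} 1/n ≤ 2 A + 1`: first term at most `1`, `1/n ≤ log n - log (n-1)` for the others. -/
theorem sum_inv_le {A : ℝ} (hA : 0 ≤ A) {N : ℕ} (hN : 1 ≤ N) :
    ∑ n ∈ Finset.Icc ⌈(N : ℝ) * Real.exp (-A)⌉₊ ⌊(N : ℝ) * Real.exp A⌋₊, (1 / (n : ℝ)) ≤ 2 * A + 1 := by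
  have hN0 : (0 : ℝ) < N := by exact_mod_cast hN
  set a := ⌈(N : ℝ) * Real.exp (-A)⌉₊ with hadef
  set b := ⌊(N : ℝ) * Real.exp A⌋₊ with hbdef
  have ha : 1 ≤ a := Nat.one_le_ceil_iff.2 (mul_pos hN0 (Real.exp_pos _))
  have ha0 : (0 : ℝ) < a := by exact_mod_cast ha
  rcases Nat.lt_or_ge b a with hab | hab
  · rw [Finset.Icc_eq_empty (by omega), Finset.sum_empty]
    linarith
  obtain ⟨k, hk⟩ := Nat.exists_eq_add_of_le hab
  have h1 := b1_sum a ha k
  rw [← hk] at h1
  have hb0 : (0 : ℝ) < b := lt_of_lt_of_le ha0 (by exact_mod_cast hab)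
  have h2 : (b : ℝ) ≤ N * Real.exp A := Nat.floor_le (mul_nonneg hN0.le (Real.exp_pos _).le)
  have h3 : (N : ℝ) * Real.exp (-A) ≤ a := Nat.le_ceil _
  have h4 : Real.log b ≤ Real.log N + A := by
    have := Real.log_le_log hb0 h2
    rwa [Real.log_mul hN0.ne' (Real.exp_pos _).ne', Real.log_exp] at this
  have h5 : Real.log N + -A ≤ Real.log a := by
    have := Real.log_le_log (mul_pos hN0 (Real.exp_pos _)) h3
    rwa [Real.log_mul hN0.ne' (Real.exp_pos _).ne', Real.log_exp] at this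
  linarith
-- END b1

-- BEGIN b2
/-- from `LS_eq`, `sum_inv_le` -/
theorem LS_le (w : ℕ → W) (f : W × ℝ → ℝ) {A C : ℝ} (hA : 0 ≤ A) (hf : Sup A f) (hC : ∀ z, |f z| ≤ C)
    {N : ℕ} (hN : 1 ≤ N) : |LS w f N| ≤ C * (2 * A + 1) := by
  have hC0 : 0 ≤ C := (abs_nonneg _).trans (hC (w 0, 0))
  rw [LS_eq w f hA hf hN]
  calc |∑ n ∈ Finset.Icc ⌈(N : ℝ) * Real.exp (-A)⌉₊ ⌊(N : ℝ) * Real.exp A⌋₊,
        (1 / (n : ℝ)) * f (w n, Real.log ((n : ℝ) / N))|
      ≤ ∑ n ∈ Finset.Icc ⌈(N : ℝ) * Real.exp (-A)⌉₊ ⌊(N : ℝ) * Real.exp A⌋₊,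
        |(1 / (n : ℝ)) * f (w n, Real.log ((n : ℝ) / N))| := Finset.abs_sum_le_sum_abs _ _
    _ ≤ ∑ n ∈ Finset.Icc ⌈(N : ℝ) * Real.exp (-A)⌉₊ ⌊(N : ℝ) * Real.exp A⌋₊, C * (1 / (n : ℝ)) := by
        refine Finset.sum_le_sum fun n _ => ?_
        have h0 : (0 : ℝ) ≤ 1 / (n : ℝ) := by positivity
        rw [abs_mul, abs_of_nonneg h0, mul_comm]
        exact mul_le_mul_of_nonneg_right (hC _) h0
    _ = C * ∑ n ∈ Finset.Icc ⌈(N : ℝ) * Real.exp (-A)⌉₊ ⌊(N : ℝ) * Real.exp A⌋₊, (1 / (n : ℝ)) :=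
        (Finset.mul_sum _ _ _).symm
    _ ≤ C * (2 * A + 1) := mul_le_mul_of_nonneg_left (sum_inv_le hA hN) hC0

/-- comparison of two log sums: from `LS_eq`, `sum_inv_le` -/
theorem LS_sub_le (w : ℕ → W) (w' : ℕ → V) (f : W × ℝ → ℝ) (f' : V × ℝ → ℝ) {A ε : ℝ} (hA : 0 ≤ A)
    (hf : Sup A f) (hf' : Sup A f') {N : ℕ} (hN : 1 ≤ N)
    (h : ∀ n : ℕ, 1 ≤ n → (N : ℝ) * Real.exp (-A) ≤ n →
      |f (w n, Real.log ((n : ℝ) / N)) - f' (w' n, Real.log ((n : ℝ) / N))| ≤ ε) :
    |LS w f N - LS w' f' N| ≤ ε * (2 * A + 1) := by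
  have hN0 : (0 : ℝ) < (N : ℝ) := by exact_mod_cast hN
  have hε : 0 ≤ ε := by
    refine (abs_nonneg _).trans (h N hN ?_)
    have h1 : Real.exp (-A) ≤ 1 := Real.exp_le_one_iff.mpr (by linarith)
    nlinarith
  rw [LS_eq w f hA hf hN, LS_eq w' f' hA hf' hN, ← Finset.sum_sub_distrib]
  calc |∑ n ∈ Finset.Icc ⌈(N : ℝ) * Real.exp (-A)⌉₊ ⌊(N : ℝ) * Real.exp A⌋₊,
        ((1 / (n : ℝ)) * f (w n, Real.log ((n : ℝ) / N))
          - (1 / (n : ℝ)) * f' (w' n, Real.log ((n : ℝ) / N)))|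
      ≤ ∑ n ∈ Finset.Icc ⌈(N : ℝ) * Real.exp (-A)⌉₊ ⌊(N : ℝ) * Real.exp A⌋₊,
        |(1 / (n : ℝ)) * f (w n, Real.log ((n : ℝ) / N))
          - (1 / (n : ℝ)) * f' (w' n, Real.log ((n : ℝ) / N))| := Finset.abs_sum_le_sum_abs _ _
    _ ≤ ∑ n ∈ Finset.Icc ⌈(N : ℝ) * Real.exp (-A)⌉₊ ⌊(N : ℝ) * Real.exp A⌋₊, ε * (1 / (n : ℝ)) := by
        refine Finset.sum_le_sum fun n hn => ?_
        have h0 : (0 : ℝ) ≤ 1 / (n : ℝ) := by positivity
        have h1 : (N : ℝ) * Real.exp (-A) ≤ n := Nat.ceil_le.mp (Finset.mem_Icc.mp hn).1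
        have h2 : 1 ≤ n := by
          have h3 : (0 : ℝ) < (n : ℝ) := lt_of_lt_of_le (mul_pos hN0 (Real.exp_pos _)) h1
          exact_mod_cast h3
        rw [← mul_sub, abs_mul, abs_of_nonneg h0, mul_comm]
        exact mul_le_mul_of_nonneg_right (h n h2 h1) h0
    _ = ε * ∑ n ∈ Finset.Icc ⌈(N : ℝ) * Real.exp (-A)⌉₊ ⌊(N : ℝ) * Real.exp A⌋₊, (1 / (n : ℝ)) :=
        (Finset.mul_sum _ _ _).symm
    _ ≤ ε * (2 * A + 1) := mul_le_mul_of_nonneg_left (sum_inv_le hA hN) hε

theorem LS_add (w : ℕ → W) (f g : W × ℝ → ℝ) {A : ℝ} (hA : 0 ≤ A) (hf : Sup A f) (hg : Sup A g)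
    {N : ℕ} (hN : 1 ≤ N) : LS w (fun z => f z + g z) N = LS w f N + LS w g N := by
  have hfg : Sup A (fun z => f z + g z) := fun z hz => by
    show f z + g z = 0
    rw [hf z hz, hg z hz, add_zero]
  rw [LS_eq w f hA hf hN, LS_eq w g hA hg hN, LS_eq w _ hA hfg hN, ← Finset.sum_add_distrib]
  exact Finset.sum_congr rfl fun n _ => mul_add _ _ _

theorem LS_smul (w : ℕ → W) (f : W × ℝ → ℝ) (c : ℝ) (N : ℕ) :
    LS w (fun z => c * f z) N = c * LS w f N := by
  unfold LS
  rw [← tsum_mul_left]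
  exact tsum_congr fun n => mul_left_comm _ _ _

theorem LS_nonneg (w : ℕ → W) (f : W × ℝ → ℝ) (hf : ∀ z, 0 ≤ f z) (N : ℕ) : 0 ≤ LS w f N :=
  tsum_nonneg fun n => mul_nonneg (by positivity) (hf _)
-- END b2

-- BEGIN b3
/-- the function in the variable `x = e^s` -/
private noncomputable def b3_F (φ : ℝ → ℝ) (x : ℝ) : ℝ := φ (Real.log x) / x

private lemma b3_zero_small {φ : ℝ → ℝ} {A : ℝ} (hA : ∀ s, A ≤ |s| → φ s = 0) {x : ℝ}
    (hx : |x| ≤ Real.exp (-A)) : b3_F φ x = 0 := by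
  unfold b3_F
  rcases eq_or_ne x 0 with rfl | hx0
  · simp
  have h1 : Real.log x ≤ -A := by
    rw [← Real.log_abs, Real.log_le_iff_le_exp (abs_pos.mpr hx0)]
    exact hx
  rw [hA _ (le_abs.mpr (Or.inr (by linarith))), zero_div]

private lemma b3_zero_big {φ : ℝ → ℝ} {A : ℝ} (hA : ∀ s, A ≤ |s| → φ s = 0) {x : ℝ}
    (hx : Real.exp A ≤ |x|) : b3_F φ x = 0 := by
  unfold b3_F
  have hx0 : 0 < |x| := (Real.exp_pos A).trans_le hx
  have h1 : A ≤ Real.log x := by
    rw [← Real.log_abs, Real.le_log_iff_exp_le hx0]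
    exact hx
  rw [hA _ (le_abs.mpr (Or.inl h1)), zero_div]

private lemma b3_cont {φ : ℝ → ℝ} (hφ : Continuous φ) {A : ℝ} (hA : ∀ s, A ≤ |s| → φ s = 0) :
    Continuous (b3_F φ) := by
  rw [continuous_iff_continuousAt]
  intro x
  rcases eq_or_ne x 0 with rfl | hx0
  · have h1 : b3_F φ =ᶠ[𝓝 0] fun _ => (0 : ℝ) := by
      have h2 : ∀ᶠ y : ℝ in 𝓝 0, |y| < Real.exp (-A) := by
        have h3 : Tendsto (fun y : ℝ => |y|) (𝓝 0) (𝓝 0) := by
          have := (continuous_abs (G := ℝ)).tendsto 0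
          rwa [abs_zero] at this
        exact h3.eventually (gt_mem_nhds (Real.exp_pos _))
      filter_upwards [h2] with y hy
      exact b3_zero_small hA hy.le
    exact (continuousAt_congr h1).mpr continuousAt_const
  · unfold b3_F
    exact ((hφ.continuousAt).comp (Real.continuousAt_log hx0)).div continuousAt_id hx0

private lemma b3_supp {φ : ℝ → ℝ} {A : ℝ} (hA : ∀ s, A ≤ |s| → φ s = 0) :
    HasCompactSupport (b3_F φ) := by
  refine HasCompactSupport.of_support_subset_isCompact (isCompact_Icc (a := -Real.exp A) (b := Real.exp A)) ?_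
  intro x hx
  rw [Set.mem_Icc, ← abs_le]
  by_contra hne
  exact hx (b3_zero_big hA (not_le.mp hne).le)

private lemma b3_int {φ : ℝ → ℝ} (hφ : Continuous φ) {A : ℝ} (hA0 : 0 < A) (hA : ∀ s, A ≤ |s| → φ s = 0)
    (m : ℕ) (hm : Real.exp A ≤ m) : ∫ x in (0 : ℝ)..m, b3_F φ x = ∫ s, φ s := by
  have hcont := b3_cont hφ hA
  have hii : ∀ a b : ℝ, IntervalIntegrable (b3_F φ) volume a b := fun a b => hcont.intervalIntegrable a b
  have hle : Real.exp (-A) ≤ Real.exp A := Real.exp_le_exp.mpr (by linarith)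
  have h1 : ∫ x in (0 : ℝ)..Real.exp (-A), b3_F φ x = 0 := by
    rw [intervalIntegral.integral_congr (g := fun _ => (0 : ℝ))]
    · simp
    · intro x hx
      rw [Set.uIcc_of_le (Real.exp_pos _).le] at hx
      exact b3_zero_small hA (by rw [abs_of_nonneg hx.1]; exact hx.2)
  have h2 : ∫ x in Real.exp A..m, b3_F φ x = 0 := by
    rw [intervalIntegral.integral_congr (g := fun _ => (0 : ℝ))]
    · simp
    · intro x hx
      rw [Set.uIcc_of_le hm] at hx
      exact b3_zero_big hA (hx.1.trans (le_abs_self x))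
  have h3 : ∫ x in Real.exp (-A)..Real.exp A, b3_F φ x = ∫ s in (-A)..A, φ s := by
    have hpos : ∀ x ∈ Set.uIcc (Real.exp (-A)) (Real.exp A), x ≠ 0 := by
      intro x hx
      rw [Set.uIcc_of_le hle] at hx
      exact ((Real.exp_pos _).trans_le hx.1).ne'
    have h5 := intervalIntegral.integral_comp_mul_deriv (a := Real.exp (-A)) (b := Real.exp A)
      (f := Real.log) (f' := fun x => x⁻¹) (g := φ) (fun x hx => Real.hasDerivAt_log (hpos x hx))
      (ContinuousOn.inv₀ continuousOn_id hpos) hφ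
    rw [Real.log_exp, Real.log_exp] at h5
    rw [← h5]
    rfl
  have h4 : ∫ s in (-A)..A, φ s = ∫ s, φ s := by
    rw [intervalIntegral.integral_of_le (by linarith)]
    refine setIntegral_eq_integral_of_forall_compl_eq_zero fun x hx => ?_
    rw [Set.mem_Ioc, not_and_or, not_lt, not_le] at hx
    rcases hx with hx | hx
    · exact hA _ (le_abs.mpr (Or.inr (by linarith)))
    · exact hA _ (le_abs.mpr (Or.inl hx.le))
  rw [← intervalIntegral.integral_add_adjacent_intervals (hii 0 (Real.exp (-A))) (hii _ m),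
    ← intervalIntegral.integral_add_adjacent_intervals (hii (Real.exp (-A)) (Real.exp A)) (hii _ m), h1, h2, h3, h4]
  ring

/-- RIEMANN SUMS. `φ` is uniformly continuous; `log (n+1) - log n = 1/n + O(1/n^2)`; the window is `N e^{-A} ≤ n ≤ N e^A`. -/
theorem riemann (φ : ℝ → ℝ) (hφ : Continuous φ) (hc : HasCompactSupport φ) :
    Tendsto (fun N : ℕ => ∑' n : ℕ, (1 / (n : ℝ)) * φ (Real.log ((n : ℝ) / N))) atTop (𝓝 (∫ s, φ s)) := by
  obtain ⟨A, hA0, hA⟩ : ∃ A : ℝ, 0 < A ∧ ∀ s, A ≤ |s| → φ s = 0 := by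
    obtain ⟨A, hA⟩ := hc.isCompact.isBounded.exists_norm_le
    refine ⟨max A 0 + 1, by positivity, fun s hs => ?_⟩
    by_contra hne
    have := hA s (subset_tsupport φ hne)
    rw [Real.norm_eq_abs] at this
    linarith [le_max_left A 0]
  obtain ⟨m, hm⟩ := exists_nat_ge (Real.exp A + 1)
  have hm0 : 0 < m := by
    have : (0 : ℝ) < m := by linarith [Real.exp_pos A]
    exact_mod_cast this
  have huc : UniformContinuous (b3_F φ) := (b3_supp hA).uniformContinuous_of_continuous (b3_cont hφ hA)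
  rw [Metric.tendsto_atTop]
  intro ε hε
  have hε' : 0 < ε / (2 * m) := by positivity
  obtain ⟨δ, hδ, hδ'⟩ := Metric.uniformContinuous_iff.mp huc (ε / (2 * m)) hε'
  obtain ⟨N₀, hN₀⟩ := exists_nat_gt (1 / δ)
  refine ⟨max N₀ 1, fun N hN => ?_⟩
  have hN1 : 1 ≤ N := (le_max_right _ _).trans hN
  have hNR : (0 : ℝ) < N := by exact_mod_cast hN1
  have hNδ : 1 / (N : ℝ) < δ := by
    rw [div_lt_comm₀ hNR hδ]
    exact hN₀.trans_le (by exact_mod_cast (le_max_left _ _).trans hN)
  have hsum : ∑' n : ℕ, (1 / (n : ℝ)) * φ (Real.log ((n : ℝ) / N))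
      = ∑ n ∈ Finset.range (m * N), (1 / (N : ℝ)) * b3_F φ ((n : ℝ) / N) := by
    rw [tsum_eq_sum (s := Finset.range (m * N))]
    · refine Finset.sum_congr rfl fun n _ => ?_
      unfold b3_F
      rcases Nat.eq_zero_or_pos n with rfl | hn
      · simp
      · have : (0 : ℝ) < n := by exact_mod_cast hn
        field_simp
    · intro n hn
      rw [Finset.mem_range, not_lt] at hn
      have h1 : (m : ℝ) ≤ (n : ℝ) / N := by
        rw [le_div_iff₀ hNR]
        exact_mod_cast hn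
      have h2 : A < Real.log ((n : ℝ) / N) := by
        rw [Real.lt_log_iff_exp_lt (by linarith [Real.exp_pos A])]
        linarith
      rw [hA _ (le_abs.mpr (Or.inl h2.le)), mul_zero]
  have hint : ∫ s, φ s = ∑ n ∈ Finset.range (m * N), ∫ x in ((n : ℝ) / N)..(((n + 1 : ℕ) : ℝ) / N), b3_F φ x := by
    have h1 := intervalIntegral.sum_integral_adjacent_intervals (f := b3_F φ) (μ := volume)
      (a := fun n : ℕ => (n : ℝ) / N) (n := m * N) (fun k _ => (b3_cont hφ hA).intervalIntegrable _ _)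
    rw [h1, ← b3_int hφ hA0 hA m (by linarith)]
    congr 1
    · simp
    · push_cast
      field_simp
  rw [hsum, hint, Real.dist_eq, ← Finset.sum_sub_distrib]
  have hterm : ∀ n ∈ Finset.range (m * N), |(1 / (N : ℝ)) * b3_F φ ((n : ℝ) / N)
      - ∫ x in ((n : ℝ) / N)..(((n + 1 : ℕ) : ℝ) / N), b3_F φ x| ≤ ε / (2 * m) * (1 / N) := by
    intro n _
    have hlen : ((n + 1 : ℕ) : ℝ) / N - (n : ℝ) / N = 1 / N := by
      push_cast; ring
    have hle : (n : ℝ) / N ≤ ((n + 1 : ℕ) : ℝ) / N := by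
      have : 0 < 1 / (N : ℝ) := by positivity
      linarith
    have hconst : (1 / (N : ℝ)) * b3_F φ ((n : ℝ) / N)
        = ∫ x in ((n : ℝ) / N)..(((n + 1 : ℕ) : ℝ) / N), b3_F φ ((n : ℝ) / N) := by
      rw [intervalIntegral.integral_const, hlen, smul_eq_mul]
    rw [hconst, ← intervalIntegral.integral_sub (intervalIntegrable_const) ((b3_cont hφ hA).intervalIntegrable _ _),
      ← Real.norm_eq_abs]
    refine (intervalIntegral.norm_integral_le_of_norm_le_const (C := ε / (2 * m)) ?_).trans ?_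
    · intro x hx
      rw [Set.uIoc_of_le hle] at hx
      rw [← dist_eq_norm]
      refine (hδ' ?_).le
      rw [dist_comm, Real.dist_eq, abs_of_pos (by linarith [hx.1])]
      linarith [hx.2]
    · rw [hlen, abs_of_pos (by positivity)]
  refine (Finset.abs_sum_le_sum_abs _ _).trans_lt ((Finset.sum_le_sum hterm).trans_lt ?_)
  rw [Finset.sum_const, Finset.card_range, nsmul_eq_mul]
  have hmR : (0 : ℝ) < m := by exact_mod_cast hm0
  have : ((m * N : ℕ) : ℝ) * (ε / (2 * m) * (1 / N)) = ε / 2 := by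
    push_cast
    field_simp
  rw [this]
  linarith
-- END b3

-- BEGIN b4
private theorem b4_tau {η : ℝ} (hη : 0 < η) :
    ∃ τ : ℝ → ℝ, Continuous τ ∧ (∀ u, 0 ≤ τ u) ∧ (∀ u, τ u ≤ 1) ∧ (∀ u, u ≤ η / 2 → τ u = 0) ∧
      (∀ u, 1 ≤ u → τ u = 0) ∧ ∀ u, η ≤ u → u ≤ 1 - η → τ u = 1 := by
  refine ⟨fun u => max 0 (min 1 (min (2 * u / η - 1) ((1 - u) / η))), ?_, ?_, ?_, ?_, ?_, ?_⟩
  · fun_prop
  · intro u
    exact le_max_left _ _
  · intro u
    exact max_le zero_le_one (min_le_left _ _)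
  · intro u hu
    have h1 : 2 * u / η ≤ 1 := by
      rw [div_le_one hη]
      linarith
    exact max_eq_left ((min_le_right _ _).trans ((min_le_left _ _).trans (by linarith)))
  · intro u hu
    have h1 : (1 - u) / η ≤ 0 := div_nonpos_of_nonpos_of_nonneg (by linarith) hη.le
    exact max_eq_left ((min_le_right _ _).trans ((min_le_right _ _).trans h1))
  · intro u h1 h2
    have h3 : 1 ≤ 2 * u / η - 1 := by
      have : 2 ≤ 2 * u / η := by
        rw [le_div_iff₀ hη]
        linarith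
      linarith
    have h4 : 1 ≤ (1 - u) / η := by
      rw [le_div_iff₀ hη]
      linarith
    show max 0 (min 1 (min (2 * u / η - 1) ((1 - u) / η))) = 1
    rw [min_eq_left (le_min h3 h4)]
    exact max_eq_right zero_le_one

private theorem b4_count {η : ℝ} (hη : 0 < η) (τ : ℝ → ℝ) (h0 : ∀ u, 0 ≤ τ u)
    (h2 : ∀ u, η ≤ u → u ≤ 1 - η → τ u = 1) {N : ℕ} (hN : 1 ≤ N) :
    ∑ n ∈ Finset.range N, (1 - τ ((n : ℝ) / N)) ≤ 2 * η * N + 1 := by
  have hN0 : (0 : ℝ) < (N : ℝ) := by exact_mod_cast hN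
  have hle : ∀ n ∈ Finset.range N, 1 - τ ((n : ℝ) / N) ≤
      (if n ∈ Finset.range ⌈η * N⌉₊ then (1 : ℝ) else 0) +
        (if n ∈ Finset.Ico ⌈(1 - η) * N⌉₊ N then (1 : ℝ) else 0) := by
    intro n hn
    have hn' : n < N := Finset.mem_range.mp hn
    by_cases ha : (n : ℝ) / N < η
    · have : n ∈ Finset.range ⌈η * N⌉₊ := by
        rw [Finset.mem_range, Nat.lt_ceil]
        rwa [div_lt_iff₀ hN0] at ha
      rw [if_pos this]
      have : (0 : ℝ) ≤ (if n ∈ Finset.Ico ⌈(1 - η) * N⌉₊ N then (1 : ℝ) else 0) := by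
        split_ifs <;> norm_num
      linarith [h0 ((n : ℝ) / N)]
    · by_cases hb : (n : ℝ) / N ≤ 1 - η
      · rw [h2 _ (not_lt.mp ha) hb, sub_self]
        have e1 : (0 : ℝ) ≤ (if n ∈ Finset.range ⌈η * N⌉₊ then (1 : ℝ) else 0) := by
          split_ifs <;> norm_num
        have e2 : (0 : ℝ) ≤ (if n ∈ Finset.Ico ⌈(1 - η) * N⌉₊ N then (1 : ℝ) else 0) := by
          split_ifs <;> norm_num
        linarith
      · have : n ∈ Finset.Ico ⌈(1 - η) * N⌉₊ N := by
          rw [Finset.mem_Ico]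
          refine ⟨Nat.ceil_le.mpr ?_, hn'⟩
          have := (not_le.mp hb).le
          rwa [le_div_iff₀ hN0] at this
        rw [if_pos this]
        have : (0 : ℝ) ≤ (if n ∈ Finset.range ⌈η * N⌉₊ then (1 : ℝ) else 0) := by
          split_ifs <;> norm_num
        linarith [h0 ((n : ℝ) / N)]
  refine (Finset.sum_le_sum hle).trans ?_
  rw [Finset.sum_add_distrib]
  have c1 : ∑ n ∈ Finset.range N, (if n ∈ Finset.range ⌈η * N⌉₊ then (1 : ℝ) else 0) ≤ η * N + 1 := by
    rw [← Finset.sum_filter, Finset.sum_const, nsmul_eq_mul, mul_one]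
    have h3 : (((Finset.range N).filter (fun n => n ∈ Finset.range ⌈η * N⌉₊)).card : ℝ)
        ≤ ((⌈η * N⌉₊ : ℕ) : ℝ) := by
      have := Finset.card_le_card (s := (Finset.range N).filter (fun n => n ∈ Finset.range ⌈η * N⌉₊))
        (t := Finset.range ⌈η * N⌉₊) (fun n hn => (Finset.mem_filter.mp hn).2)
      rw [Finset.card_range] at this
      exact_mod_cast this
    exact h3.trans (Nat.ceil_lt_add_one (by positivity)).le
  have c2 : ∑ n ∈ Finset.range N, (if n ∈ Finset.Ico ⌈(1 - η) * N⌉₊ N then (1 : ℝ) else 0) ≤ η * N := by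
    rw [← Finset.sum_filter, Finset.sum_const, nsmul_eq_mul, mul_one]
    have h3 : (((Finset.range N).filter (fun n => n ∈ Finset.Ico ⌈(1 - η) * N⌉₊ N)).card : ℝ)
        ≤ ((N - ⌈(1 - η) * N⌉₊ : ℕ) : ℝ) := by
      have := Finset.card_le_card
        (s := (Finset.range N).filter (fun n => n ∈ Finset.Ico ⌈(1 - η) * N⌉₊ N))
        (t := Finset.Ico ⌈(1 - η) * N⌉₊ N) (fun n hn => (Finset.mem_filter.mp hn).2)
      rw [Nat.card_Ico] at this
      exact_mod_cast this
    refine h3.trans ?_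
    have h4 : ⌈(1 - η) * N⌉₊ ≤ N := Nat.ceil_le.mpr (by nlinarith)
    rw [Nat.cast_sub h4]
    have h5 : (1 - η) * N ≤ ((⌈(1 - η) * N⌉₊ : ℕ) : ℝ) := Nat.le_ceil _
    linarith
  linarith

/-- FROM LOGARITHMIC TO CESARO. `1/N = (1/n) e^s` for `s = log (n/N)`. Take `φ s = e^s * τ s`, `τ` the trapezoid with
`τ = 1` on `[-A, -δ]`, `0` outside `[-A-1, 0]`: the sums differ by at most `(1/N) #{n ≤ N e^{-A}} + (1/N) #{N e^{-δ} ≤ n ≤ N}`
times the bound for `b`. -/
theorem cesaro (b : ℕ → ℝ) {B : ℝ} (hb : ∀ n, |b n| ≤ B)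
    (h : ∀ φ : ℝ → ℝ, Continuous φ → HasCompactSupport φ →
      Tendsto (fun N : ℕ => ∑' n : ℕ, (1 / (n : ℝ)) * (b n * φ (Real.log ((n : ℝ) / N)))) atTop (𝓝 0)) :
    Tendsto (fun N : ℕ => (1 / (N : ℝ)) * ∑ n ∈ Finset.range N, b n) atTop (𝓝 0) := by
  have hB : 0 ≤ B := (abs_nonneg _).trans (hb 0)
  rw [Metric.tendsto_atTop]
  intro ε hε
  obtain ⟨η, hη0, hη1, hηB⟩ : ∃ η : ℝ, 0 < η ∧ η ≤ 1 / 4 ∧ B * (2 * η) ≤ ε / 4 := by
    refine ⟨min (1 / 4) (ε / (8 * (B + 1))), lt_min (by norm_num) (by positivity), min_le_left _ _, ?_⟩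
    have h1 : min (1 / 4) (ε / (8 * (B + 1))) ≤ ε / (8 * (B + 1)) := min_le_right _ _
    have h2 : B * (2 * min (1 / 4) (ε / (8 * (B + 1)))) ≤ B * (2 * (ε / (8 * (B + 1)))) :=
      mul_le_mul_of_nonneg_left (by linarith) hB
    refine h2.trans ?_
    have h3 : B * (2 * (ε / (8 * (B + 1)))) = ε / 4 * (B / (B + 1)) := by
      field_simp
      ring
    rw [h3]
    have h4 : B / (B + 1) ≤ 1 := by
      rw [div_le_one (by linarith)]
      linarith
    nlinarith
  obtain ⟨τ, hτc, hτ0, hτ1, hτs, hτe, hτm⟩ := b4_tau hη0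
  have hφc : Continuous fun s : ℝ => Real.exp s * τ (Real.exp s) :=
    Real.continuous_exp.mul (hτc.comp Real.continuous_exp)
  have hφs : HasCompactSupport fun s : ℝ => Real.exp s * τ (Real.exp s) := by
    refine HasCompactSupport.intro (K := Set.Icc (Real.log (η / 2)) 0) isCompact_Icc ?_
    intro s hs
    rw [Set.mem_Icc, not_and_or, not_le, not_le] at hs
    rcases hs with hs | hs
    · have : Real.exp s ≤ η / 2 := by
        have h1 := (Real.exp_lt_exp.mpr hs).le
        rwa [Real.exp_log (by positivity)] at h1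
      show Real.exp s * τ (Real.exp s) = 0
      rw [hτs _ this, mul_zero]
    · show Real.exp s * τ (Real.exp s) = 0
      rw [hτe _ (Real.one_le_exp hs.le), mul_zero]
  have hlim := h _ hφc hφs
  rw [Metric.tendsto_atTop] at hlim
  obtain ⟨N1, hN1⟩ := hlim (ε / 4) (by positivity)
  obtain ⟨N2, hN2⟩ := exists_nat_gt (4 * B / ε)
  refine ⟨max (max N1 N2) 1, fun N hN => ?_⟩
  have hNN1 : N1 ≤ N := (le_max_left _ _).trans ((le_max_left _ _).trans hN)
  have hNN2 : N2 ≤ N := (le_max_right _ _).trans ((le_max_left _ _).trans hN)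
  have hN1' : 1 ≤ N := (le_max_right _ _).trans hN
  have hN0 : (0 : ℝ) < (N : ℝ) := by exact_mod_cast hN1'
  have key : ∑' n : ℕ, (1 / (n : ℝ)) * (b n * (Real.exp (Real.log ((n : ℝ) / N)) *
      τ (Real.exp (Real.log ((n : ℝ) / N))))) =
      (1 / (N : ℝ)) * ∑ n ∈ Finset.range N, b n * τ ((n : ℝ) / N) := by
    have h1 : ∀ n : ℕ, (1 / (n : ℝ)) * (b n * (Real.exp (Real.log ((n : ℝ) / N)) *
        τ (Real.exp (Real.log ((n : ℝ) / N))))) = (1 / (N : ℝ)) * (b n * τ ((n : ℝ) / N)) := by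
      intro n
      rcases Nat.eq_zero_or_pos n with hn | hn
      · subst hn
        have : τ (((0 : ℕ) : ℝ) / N) = 0 := hτs _ (by rw [Nat.cast_zero, zero_div]; positivity)
        rw [this]
        simp
      · have hn0 : (0 : ℝ) < (n : ℝ) := by exact_mod_cast hn
        rw [Real.exp_log (by positivity)]
        generalize τ ((n : ℝ) / N) = t
        have e1 : 1 / (n : ℝ) * (b n * ((n : ℝ) / N * t)) = ((n : ℝ) / n) * (1 / (N : ℝ) * (b n * t)) := by ring
        rw [e1, div_self hn0.ne', one_mul]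
    rw [tsum_congr h1, tsum_mul_left]
    refine congrArg _ (tsum_eq_sum fun n hn => ?_)
    have hn' : N ≤ n := by
      by_contra hlt
      exact hn (Finset.mem_range.mpr (not_le.mp hlt))
    have : (1 : ℝ) ≤ (n : ℝ) / N := by
      rw [one_le_div hN0]
      exact_mod_cast hn'
    rw [hτe _ this, mul_zero]
  have h1 := hN1 N hNN1
  rw [Real.dist_eq, sub_zero] at h1
  have h1' : |(1 / (N : ℝ)) * ∑ n ∈ Finset.range N, b n * τ ((n : ℝ) / N)| < ε / 4 := by
    rw [← key]
    exact h1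
  have h2 : |(1 / (N : ℝ)) * ∑ n ∈ Finset.range N, b n -
      (1 / (N : ℝ)) * ∑ n ∈ Finset.range N, b n * τ ((n : ℝ) / N)| ≤ B * (2 * η) + B / N := by
    rw [← mul_sub, ← Finset.sum_sub_distrib, abs_mul, abs_of_nonneg (by positivity : (0 : ℝ) ≤ 1 / (N : ℝ))]
    have h3 : |∑ n ∈ Finset.range N, (b n - b n * τ ((n : ℝ) / N))| ≤ B * (2 * η * N + 1) := by
      refine (Finset.abs_sum_le_sum_abs _ _).trans ?_
      have h4 : ∀ n ∈ Finset.range N, |b n - b n * τ ((n : ℝ) / N)| ≤ B * (1 - τ ((n : ℝ) / N)) := by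
        intro n _
        have h5 : b n - b n * τ ((n : ℝ) / N) = b n * (1 - τ ((n : ℝ) / N)) := by ring
        have h6 : 0 ≤ 1 - τ ((n : ℝ) / N) := by linarith [hτ1 ((n : ℝ) / N)]
        rw [h5, abs_mul, abs_of_nonneg h6]
        exact mul_le_mul_of_nonneg_right (hb n) h6
      refine (Finset.sum_le_sum h4).trans ?_
      rw [← Finset.mul_sum]
      exact mul_le_mul_of_nonneg_left (b4_count hη0 τ hτ0 hτm hN1') hB
    calc 1 / (N : ℝ) * |∑ n ∈ Finset.range N, (b n - b n * τ ((n : ℝ) / N))|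
        ≤ 1 / (N : ℝ) * (B * (2 * η * N + 1)) := mul_le_mul_of_nonneg_left h3 (by positivity)
      _ = ((N : ℝ) / N) * (B * (2 * η)) + B / N := by ring
      _ = B * (2 * η) + B / N := by rw [div_self hN0.ne', one_mul]
  have h3 : B / N < ε / 4 := by
    have h4 : 4 * B / ε < (N : ℝ) := hN2.trans_le (by exact_mod_cast hNN2)
    rw [div_lt_iff₀ hε] at h4
    rw [div_lt_iff₀ hN0]
    linarith
  rw [Real.dist_eq, sub_zero]
  have h4 := abs_sub_abs_le_abs_sub ((1 / (N : ℝ)) * ∑ n ∈ Finset.range N, b n)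
    ((1 / (N : ℝ)) * ∑ n ∈ Finset.range N, b n * τ ((n : ℝ) / N))
  linarith
-- END b4

end sums

section limit

variable {W : Type*} [TopologicalSpace W] [CompactSpace W] [T2Space W] [SecondCountableTopology W]
  [MeasurableSpace W] [BorelSpace W]

/-- `M` is the limit along `U` of the measures `Σ (1/n) δ_(w n, log (n/N))` -/
structure LL (U : Filter ℕ) (w : ℕ → W) (M : Measure (W × ℝ)) : Prop where
  fin : IsFiniteMeasureOnCompacts M
  lim : ∀ f : W × ℝ → ℝ, Continuous f → HasCompactSupport f → Tendsto (LS w f) U (𝓝 (∫ z, f z ∂M))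

/-- compact support on `W × ℝ` gives `Sup A` for some `A ≥ 0` -/
theorem exists_Sup {W : Type*} [TopologicalSpace W] (f : W × ℝ → ℝ) (hf : HasCompactSupport f) :
    ∃ A : ℝ, 0 ≤ A ∧ Sup A f := by
  have h1 : IsCompact (Prod.snd '' tsupport f) := hf.isCompact.image continuous_snd
  obtain ⟨A, hA⟩ := h1.isBounded.exists_norm_le
  refine ⟨max A 0, le_max_right _ _, ?_⟩
  intro z hz
  by_contra hne
  have hz' : z ∈ tsupport f := subset_tsupport f hne
  have := hA z.2 ⟨z, hz', rfl⟩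
  rw [Real.norm_eq_abs] at this
  exact absurd (lt_of_le_of_lt (this.trans (le_max_left _ _)) hz) (lt_irrefl _)

/-- `Sup A` gives compact support, `W` being compact -/
theorem Sup.compact {W : Type*} [TopologicalSpace W] [CompactSpace W] [T2Space W] {A : ℝ} {f : W × ℝ → ℝ} (hf : Sup A f) :
    HasCompactSupport f := by
  have hK : IsCompact ((Set.univ : Set W) ×ˢ Set.Icc (-A) A) := isCompact_univ.prod isCompact_Icc
  refine HasCompactSupport.of_support_subset_isCompact hK ?_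
  intro z hz
  refine ⟨Set.mem_univ _, ?_⟩
  by_contra hne
  exact hz (hf z (by rw [Set.mem_Icc, ← abs_le] at hne; exact not_le.mp hne))

-- BEGIN b5
private theorem b5_lim (U : Ultrafilter ℕ) (hU : (U : Filter ℕ) ≤ atTop) (w : ℕ → W)
    (f : W × ℝ → ℝ) (hf : Continuous f) (hs : HasCompactSupport f) :
    ∃ l : ℝ, Tendsto (LS w f) (U : Filter ℕ) (𝓝 l) := by
  obtain ⟨A, hA0, hA⟩ := exists_Sup f hs
  obtain ⟨C, hC⟩ := hs.exists_bound_of_continuous hf
  have h1 : ∀ᶠ N in (U : Filter ℕ), LS w f N ∈ Set.Icc (-(C * (2 * A + 1))) (C * (2 * A + 1)) := by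
    filter_upwards [hU (eventually_ge_atTop 1)] with N hN
    exact abs_le.1 (LS_le w f hA0 hA (fun z => hC z) hN)
  have h2 : ((U.map (LS w f) : Ultrafilter ℝ) : Filter ℝ) ≤
      𝓟 (Set.Icc (-(C * (2 * A + 1))) (C * (2 * A + 1))) := by
    rw [le_principal_iff]
    exact h1
  obtain ⟨l, -, hl⟩ := isCompact_Icc.ultrafilter_le_nhds (U.map (LS w f)) h2
  exact ⟨l, hl⟩

/-- EXISTENCE. For `f ∈ C_c(W × ℝ)` the sequence `LS w f N`, `N ≥ 1`, is bounded (`LS_le`, `exists_Sup`), so it has a limit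
along the ultrafilter; the limit is a positive linear functional of `f` (`LS_add`, `LS_smul`, `LS_nonneg`;
`PositiveLinearMap.mk₀`, `C_c(W × ℝ, ℝ) →ₚ[ℝ] ℝ`); take `RealRMK.rieszMeasure` and `RealRMK.integral_rieszMeasure`. -/
theorem exists_LL (U : Ultrafilter ℕ) (hU : (U : Filter ℕ) ≤ atTop) (w : ℕ → W) :
    ∃ M : Measure (W × ℝ), LL (U : Filter ℕ) w M := by
  classical
  choose! l hl using b5_lim (W := W) U hU w
  have hl' : ∀ f : CompactlySupportedContinuousMap (W × ℝ) ℝ,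
      Tendsto (LS w f) (U : Filter ℕ) (𝓝 (l f)) := fun f => hl f f.continuous f.hasCompactSupport
  let Λ₀ : CompactlySupportedContinuousMap (W × ℝ) ℝ →ₗ[ℝ] ℝ :=
    { toFun := fun f => l f
      map_add' := by
        intro f g
        obtain ⟨A, hA0, hA⟩ := exists_Sup f f.hasCompactSupport
        obtain ⟨B, hB0, hB⟩ := exists_Sup g g.hasCompactSupport
        have hA' : Sup (max A B) (f : W × ℝ → ℝ) := fun z hz =>
          hA z (lt_of_le_of_lt (le_max_left _ _) hz)
        have hB' : Sup (max A B) (g : W × ℝ → ℝ) := fun z hz =>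
          hB z (lt_of_le_of_lt (le_max_right _ _) hz)
        refine tendsto_nhds_unique (hl' (f + g)) (((hl' f).add (hl' g)).congr' ?_)
        filter_upwards [hU (eventually_ge_atTop 1)] with N hN
        exact (LS_add w f g (hA0.trans (le_max_left _ _)) hA' hB' hN).symm
      map_smul' := by
        intro c f
        refine tendsto_nhds_unique (hl' (c • f)) (((hl' f).const_mul c).congr fun N => ?_)
        exact (LS_smul w f c N).symm }
  have hpos : ∀ f, 0 ≤ f → 0 ≤ Λ₀ f := by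
    intro f hf
    refine ge_of_tendsto' (hl' f) fun N => LS_nonneg w f (fun z => ?_) N
    exact hf z
  let Λ := PositiveLinearMap.mk₀ Λ₀ hpos
  refine ⟨RealRMK.rieszMeasure Λ, ?_, ?_⟩
  · infer_instance
  · intro f hf hs
    let f' : CompactlySupportedContinuousMap (W × ℝ) ℝ := ⟨⟨f, hf⟩, hs⟩
    have h1 : ∫ z, f' z ∂(RealRMK.rieszMeasure Λ) = Λ f' := RealRMK.integral_rieszMeasure Λ f'
    have h2 : Tendsto (LS w f') (U : Filter ℕ) (𝓝 (Λ f')) := hl' f'
    rw [← h1] at h2
    exact h2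
-- END b5

variable {U : Filter ℕ} [U.NeBot] {w : ℕ → W} {M : Measure (W × ℝ)}

-- BEGIN b6
private theorem b6_reg {V : Type*} [TopologicalSpace V] [T2Space V] [SecondCountableTopology V]
    [LocallyCompactSpace V] [MeasurableSpace V] [BorelSpace V] (μ : Measure V)
    [IsFiniteMeasureOnCompacts μ] : μ.Regular := by
  infer_instance

/-- IMAGES. `f ∘ (π × id)` is again continuous with compact support (`Sup.compact`), `integral_map`. -/
theorem LL.map {V : Type*} [TopologicalSpace V] [CompactSpace V] [T2Space V] [SecondCountableTopology V]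
    [MeasurableSpace V] [BorelSpace V] (h : LL U w M) (π : W → V) (hπ : Continuous π) :
    LL U (fun n => π (w n)) (M.map (Prod.map π id)) := by
  have hc : Continuous (Prod.map π (id : ℝ → ℝ)) := hπ.prodMap continuous_id
  have hm : Measurable (Prod.map π (id : ℝ → ℝ)) := hc.measurable
  have hfin := h.fin
  constructor
  · constructor
    intro K hK
    rw [Measure.map_apply hm hK.isClosed.measurableSet]
    have h1 : IsCompact ((Set.univ : Set W) ×ˢ (Prod.snd '' K)) :=
      isCompact_univ.prod (hK.image continuous_snd)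
    refine lt_of_le_of_lt (measure_mono ?_) h1.measure_lt_top
    intro z hz
    exact ⟨Set.mem_univ _, ⟨_, hz, rfl⟩⟩
  · intro f hf hs
    obtain ⟨A, -, hA⟩ := exists_Sup f hs
    have h2 : Sup A (fun z : W × ℝ => f (Prod.map π id z)) := fun z hz => hA _ hz
    have h3 := h.lim (fun z : W × ℝ => f (Prod.map π id z)) (hf.comp hc) h2.compact
    rw [integral_map hm.aemeasurable hf.aestronglyMeasurable]
    exact h3

/-- UNIQUENESS: `MeasureTheory.Measure.ext_of_integral_eq_on_compactlySupported` (both measures are regular). -/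
theorem LL.uniq {M' : Measure (W × ℝ)} (h : LL U w M) (h' : LL U w M') : M = M' := by
  have hfin := h.fin
  have hfin' := h'.fin
  have hr := b6_reg M
  have hr' := b6_reg M'
  refine Measure.ext_of_integral_eq_on_compactlySupported fun f => ?_
  exact tendsto_nhds_unique (h.lim f f.continuous f.hasCompactSupport)
    (h'.lim f f.continuous f.hasCompactSupport)

/-- the law of `s` is Lebesgue measure: `riemann`, and `Measure.ext_of_integral_eq_on_compactlySupported` on `ℝ` -/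
theorem LL.snd (hU : U ≤ atTop) (h : LL U w M) : M.map Prod.snd = volume := by
  have hfin := h.fin
  have hf2 : IsFiniteMeasureOnCompacts (M.map (Prod.snd : W × ℝ → ℝ)) := by
    constructor
    intro K hK
    rw [Measure.map_apply measurable_snd hK.isClosed.measurableSet]
    have h1 : IsCompact ((Set.univ : Set W) ×ˢ K) := isCompact_univ.prod hK
    refine lt_of_le_of_lt (measure_mono ?_) h1.measure_lt_top
    intro z hz
    exact ⟨Set.mem_univ _, hz⟩
  have hr := b6_reg (M.map (Prod.snd : W × ℝ → ℝ))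
  refine Measure.ext_of_integral_eq_on_compactlySupported fun f => ?_
  have hf := f.continuous
  have hs := f.hasCompactSupport
  have h2 : HasCompactSupport (fun z : W × ℝ => f z.2) := by
    have h3 : IsCompact ((Set.univ : Set W) ×ˢ (tsupport f)) := isCompact_univ.prod hs
    refine HasCompactSupport.of_support_subset_isCompact h3 ?_
    intro z hz
    exact ⟨Set.mem_univ _, subset_tsupport f hz⟩
  have h4 := h.lim (fun z : W × ℝ => f z.2) (hf.comp continuous_snd) h2
  have h5 := (riemann f hf hs).mono_left hU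
  have h6 : ∫ x, f x ∂(M.map (Prod.snd : W × ℝ → ℝ)) = ∫ z, f z.2 ∂M :=
    integral_map measurable_snd.aemeasurable hf.aestronglyMeasurable
  refine h6.trans (tendsto_nhds_unique h4 ?_)
  exact h5
-- END b6

-- BEGIN b7
private theorem b7_log {n N : ℕ} (hn : 1 ≤ n) (hN : 1 ≤ N) :
    Real.log (((n + 1 : ℕ) : ℝ) / N) - Real.log ((n : ℝ) / N) ≤ 1 / n ∧
      Real.log ((n : ℝ) / N) ≤ Real.log (((n + 1 : ℕ) : ℝ) / N) := by
  have hn0 : (0 : ℝ) < n := by exact_mod_cast hn
  have hN0 : (0 : ℝ) < N := by exact_mod_cast hN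
  have h1 : Real.log (((n + 1 : ℕ) : ℝ) / N) - Real.log ((n : ℝ) / N) = Real.log (1 + 1 / n) := by
    rw [← Real.log_div (by positivity) (by positivity)]
    congr 1
    push_cast
    field_simp
  constructor
  · rw [h1]
    have h2 := Real.log_le_sub_one_of_pos (show (0 : ℝ) < 1 + 1 / n by positivity)
    linarith
  · refine Real.log_le_log (by positivity) ?_
    push_cast
    gcongr
    linarith

private theorem b7_shift {W : Type*} (w : ℕ → W) (f : W × ℝ → ℝ) {A : ℝ} (hA : 0 ≤ A)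
    (hf : Sup A f) {N : ℕ} (hN : 1 ≤ N) (hN2 : Real.exp A < N) :
    LS w f N = LS (fun n : ℕ => n) (fun z : ℕ × ℝ => if |z.2| ≤ A + 1 then
      ((z.1 : ℝ) / (z.1 + 1)) * f (w (z.1 + 1), Real.log (((z.1 + 1 : ℕ) : ℝ) / N)) else 0) N := by
  have hN0 : (0 : ℝ) < N := by exact_mod_cast hN
  have hsum : Summable (fun n : ℕ => (1 / (n : ℝ)) * f (w n, Real.log ((n : ℝ) / N))) := by
    refine summable_of_ne_finset_zero (s := Finset.range (⌊(N : ℝ) * Real.exp A⌋₊ + 1)) ?_
    intro n hn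
    rw [Finset.mem_range, not_lt] at hn
    have h1 : (N : ℝ) * Real.exp A < n := Nat.lt_of_floor_lt hn
    have h2 : A < Real.log ((n : ℝ) / N) := by
      rw [Real.lt_log_iff_exp_lt (by
        have : 0 < (N : ℝ) * Real.exp A := by positivity
        exact div_pos (this.trans h1) hN0), lt_div_iff₀ hN0]
      linarith
    rw [hf _ (lt_of_lt_of_le h2 (le_abs_self _)), mul_zero]
  unfold LS
  rw [hsum.tsum_eq_zero_add]
  have h0 : (1 / ((0 : ℕ) : ℝ)) * f (w 0, Real.log (((0 : ℕ) : ℝ) / N)) = 0 := by simp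
  rw [h0, zero_add]
  refine tsum_congr fun n => ?_
  rcases Nat.eq_zero_or_pos n with hn | hn
  · subst hn
    have h1 : A < |Real.log (((0 + 1 : ℕ) : ℝ) / N)| := by
      have h2 : Real.log (((0 + 1 : ℕ) : ℝ) / N) = - Real.log N := by
        push_cast
        rw [one_div, Real.log_inv]
      rw [h2, abs_neg]
      refine lt_of_lt_of_le ?_ (le_abs_self _)
      rw [Real.lt_log_iff_exp_lt hN0]
      exact hN2
    rw [hf _ h1, mul_zero]
    simp
  · have hn0 : (0 : ℝ) < n := by exact_mod_cast hn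
    obtain ⟨h1, h2⟩ := b7_log hn hN
    have h3 : 1 / (n : ℝ) ≤ 1 := by
      rw [div_le_one hn0]
      exact_mod_cast hn
    change _ = (1 / (n : ℝ)) * (if |Real.log ((n : ℝ) / N)| ≤ A + 1 then
      ((n : ℝ) / (n + 1)) * f (w (n + 1), Real.log (((n + 1 : ℕ) : ℝ) / N)) else 0)
    by_cases hc : |Real.log ((n : ℝ) / N)| ≤ A + 1
    · rw [if_pos hc, ← mul_assoc]
      congr 1
      push_cast
      field_simp
    · rw [if_neg hc, mul_zero]
      have h4 : A < |Real.log (((n + 1 : ℕ) : ℝ) / N)| := by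
        rw [not_le, lt_abs] at hc
        rw [lt_abs]
        rcases hc with hc | hc
        · left
          linarith
        · right
          linarith
      rw [hf _ h4, mul_zero]

/-- INVARIANCE. (`letI : UniformSpace W := uniformSpaceOfCompactR1` for uniform continuity.) With `f' (x, s) = f (σ x, s)`: `LS w f' N = Σ (1/n) f (w (n+1), log (n/N))`, compare with
`Σ (1/(n+1)) f (w (n+1), log ((n+1)/N)) = LS w f N - (term n = 1, which is 0 for large N)`: `f` is uniformly continuous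
(`HasCompactSupport.uniformContinuous_of_continuous`), `log ((n+1)/n) ≤ 1/n ≤ e^A/N`, `Σ (1/n - 1/(n+1))` over the window
is at most `2 e^A / N`. Then uniqueness (`Measure.ext_of_integral_eq_on_compactlySupported`, `integral_map`). -/
theorem LL.inv (hU : U ≤ atTop) (h : LL U w M) (σ : W → W) (hσ : Continuous σ)
    (hw : ∀ n, 1 ≤ n → w (n + 1) = σ (w n)) : M.map (Prod.map σ id) = M := by
  let _ : MetricSpace W := TopologicalSpace.metrizableSpaceMetric W
  have hm := h.map σ hσ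
  refine (LL.uniq (U := U) (w := w) h ⟨hm.fin, fun f hf hfc => ?_⟩).symm
  have hlim := hm.lim f hf hfc
  -- the difference of the two logarithmic sums tends to `0`
  obtain ⟨A, hA, hS⟩ := exists_Sup f hfc
  obtain ⟨C, hC⟩ : ∃ C : ℝ, ∀ z, |f z| ≤ C := by
    obtain ⟨C, hC⟩ := hfc.exists_bound_of_continuous hf
    exact ⟨C, fun z => by rw [← Real.norm_eq_abs]; exact hC z⟩
  have hC0 : 0 ≤ C := (abs_nonneg _).trans (hC (w 0, 0))
  have huc := hfc.uniformContinuous_of_continuous hf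
  rw [Metric.uniformContinuous_iff] at huc
  have hdiff : Tendsto (fun N => LS w f N - LS (fun n => σ (w n)) f N) atTop (𝓝 0) := by
    rw [Metric.tendsto_atTop]
    intro ε hε
    obtain ⟨δ, hδ, hδ2⟩ := huc (ε / (4 * (2 * (A + 1) + 1))) (by positivity)
    obtain ⟨N0, hN0⟩ := exists_nat_gt (max (Real.exp A) (max (Real.exp (A + 1) / δ)
      (4 * (2 * (A + 1) + 1) * C * Real.exp (A + 1) / ε)))
    refine ⟨N0 + 1, fun N hN => ?_⟩
    have hNN : (N0 : ℝ) ≤ N := by
      have : N0 ≤ N := by omega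
      exact_mod_cast this
    have hN1 : 1 ≤ N := by omega
    have hNp : (0 : ℝ) < N := by exact_mod_cast hN1
    have hNa : Real.exp A < N := lt_of_lt_of_le (lt_of_le_of_lt (le_max_left _ _) hN0) hNN
    have hNb : Real.exp (A + 1) / δ < N :=
      lt_of_lt_of_le (lt_of_le_of_lt ((le_max_left _ _).trans (le_max_right _ _)) hN0) hNN
    have hNc : 4 * (2 * (A + 1) + 1) * C * Real.exp (A + 1) / ε < N :=
      lt_of_lt_of_le (lt_of_le_of_lt ((le_max_right _ _).trans (le_max_right _ _)) hN0) hNN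
    rw [b7_shift w f hA hS hN1 hNa]
    have hS' : Sup (A + 1) f := fun z hz => hS z (by linarith)
    have hkey := LS_sub_le (fun n : ℕ => n) (fun n => σ (w n))
      (fun z : ℕ × ℝ => if |z.2| ≤ A + 1 then
        ((z.1 : ℝ) / (z.1 + 1)) * f (w (z.1 + 1), Real.log (((z.1 + 1 : ℕ) : ℝ) / N)) else 0) f
      (A := A + 1) (ε := ε / (2 * (2 * (A + 1) + 1))) (by linarith)
      (fun z hz => if_neg (not_le.2 hz)) hS' hN1 (fun n hn hn2 => by
        change |(if |Real.log ((n : ℝ) / N)| ≤ A + 1 then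
          ((n : ℝ) / (n + 1)) * f (w (n + 1), Real.log (((n + 1 : ℕ) : ℝ) / N)) else 0) -
          f (σ (w n), Real.log ((n : ℝ) / N))| ≤ _
        have hn0 : (0 : ℝ) < n := by exact_mod_cast hn
        by_cases hc : |Real.log ((n : ℝ) / N)| ≤ A + 1
        · rw [if_pos hc, ← hw n hn]
          obtain ⟨h1, h2⟩ := b7_log hn hN1
          have h3 : 1 / (n : ℝ) ≤ Real.exp (A + 1) / N := by
            rw [div_le_div_iff₀ hn0 hNp, one_mul]
            rw [Real.exp_neg, ← div_eq_mul_inv, div_le_iff₀ (Real.exp_pos _)] at hn2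
            linarith
          have h4 : Real.exp (A + 1) / N < δ := by
            rw [div_lt_iff₀ hδ] at hNb
            rw [div_lt_iff₀ hNp]
            linarith
          have h5 : dist (f (w (n + 1), Real.log (((n + 1 : ℕ) : ℝ) / N)))
              (f (w (n + 1), Real.log ((n : ℝ) / N))) < ε / (4 * (2 * (A + 1) + 1)) := by
            refine hδ2 ?_
            rw [Prod.dist_eq, dist_self, max_lt_iff]
            refine ⟨hδ, ?_⟩
            rw [Real.dist_eq, abs_lt]
            constructor <;> linarith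
          rw [Real.dist_eq] at h5
          have h6 : ((n : ℝ) / (n + 1)) * f (w (n + 1), Real.log (((n + 1 : ℕ) : ℝ) / N)) -
              f (w (n + 1), Real.log ((n : ℝ) / N)) =
              (f (w (n + 1), Real.log (((n + 1 : ℕ) : ℝ) / N)) -
                f (w (n + 1), Real.log ((n : ℝ) / N))) -
              (1 / ((n : ℝ) + 1)) * f (w (n + 1), Real.log (((n + 1 : ℕ) : ℝ) / N)) := by
            field_simp
            ring
          rw [h6]
          have h7 : |(1 / ((n : ℝ) + 1)) * f (w (n + 1), Real.log (((n + 1 : ℕ) : ℝ) / N))| ≤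
              ε / (4 * (2 * (A + 1) + 1)) := by
            rw [abs_mul, abs_of_pos (by positivity)]
            have h8 : 1 / ((n : ℝ) + 1) ≤ Real.exp (A + 1) / N := by
              refine le_trans ?_ h3
              exact one_div_le_one_div_of_le hn0 (by linarith)
            have h9 : 1 / ((n : ℝ) + 1) * |f (w (n + 1), Real.log (((n + 1 : ℕ) : ℝ) / N))| ≤
                Real.exp (A + 1) / N * C :=
              mul_le_mul h8 (hC _) (abs_nonneg _) (by positivity)
            refine h9.trans ?_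
            rw [div_mul_eq_mul_div, div_le_div_iff₀ hNp (by positivity)]
            rw [div_lt_iff₀ hε] at hNc
            nlinarith
          refine (abs_sub _ _).trans ?_
          have h10 : ε / (4 * (2 * (A + 1) + 1)) + ε / (4 * (2 * (A + 1) + 1)) =
              ε / (2 * (2 * (A + 1) + 1)) := by
            field_simp
            ring
          linarith
        · rw [if_neg hc, hS' _ (not_le.1 hc), sub_zero, abs_zero]
          positivity)
    rw [Real.dist_eq, sub_zero]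
    refine lt_of_le_of_lt hkey ?_
    have h11 : ε / (2 * (2 * (A + 1) + 1)) * (2 * (A + 1) + 1) = ε / 2 := by
      field_simp
    rw [h11]
    linarith
  have h12 := (hdiff.mono_left hU).add hlim
  rw [zero_add] at h12
  refine h12.congr fun N => ?_
  ring
-- END b7

-- BEGIN b8
/-- CARRIER. `W` is metrizable: `δ x = infDist x C` (for some metric) is continuous, `0` on `C`, positive off `C` (`C` is
nonempty as `w 1 ∈ C`); for every `A` the function `f (x, s) = δ x * max 0 (A - |s|)` has `LS w f N = 0`, so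
`∫ f dM = 0`, `f = 0` a.e. -/
theorem LL.carr (h : LL U w M) (C : Set W) (hC : IsClosed C) (hw : ∀ n, 1 ≤ n → w n ∈ C) :
    ∀ᵐ z ∂M, z.1 ∈ C := by
  let _ : MetricSpace W := TopologicalSpace.metrizableSpaceMetric W
  have := h.fin
  have hne : C.Nonempty := ⟨w 1, hw 1 le_rfl⟩
  have hall : ∀ᵐ z ∂M, ∀ k : ℕ, Metric.infDist z.1 C * max 0 ((k : ℝ) - |z.2|) = 0 := by
    rw [ae_all_iff]
    intro k
    have hcont : Continuous (fun z : W × ℝ => Metric.infDist z.1 C * max 0 ((k : ℝ) - |z.2|)) := by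
      have h1 : Continuous (fun z : W × ℝ => Metric.infDist z.1 C) :=
        (Metric.continuous_infDist_pt C).comp continuous_fst
      have h2 : Continuous (fun z : W × ℝ => max 0 ((k : ℝ) - |z.2|)) :=
        continuous_const.max (continuous_const.sub continuous_snd.abs)
      exact h1.mul h2
    have hsup : Sup (k : ℝ) (fun z : W × ℝ => Metric.infDist z.1 C * max 0 ((k : ℝ) - |z.2|)) := by
      intro z hz
      change Metric.infDist z.1 C * max 0 ((k : ℝ) - |z.2|) = 0
      rw [max_eq_left (by linarith), mul_zero]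
    have hcs := hsup.compact
    have hlim := h.lim _ hcont hcs
    have hzero : LS w (fun z : W × ℝ => Metric.infDist z.1 C * max 0 ((k : ℝ) - |z.2|)) =
        fun _ => 0 := by
      funext N
      unfold LS
      rw [← tsum_zero (L := SummationFilter.unconditional ℕ)]
      refine tsum_congr fun n => ?_
      rcases Nat.eq_zero_or_pos n with hn | hn
      · subst hn
        simp
      · change (1 / (n : ℝ)) * (Metric.infDist (w n) C * _) = 0
        rw [(hC.mem_iff_infDist_zero hne).1 (hw n hn), zero_mul, mul_zero]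
    rw [hzero] at hlim
    have hint : ∫ z, Metric.infDist z.1 C * max 0 ((k : ℝ) - |z.2|) ∂M = 0 :=
      tendsto_nhds_unique hlim tendsto_const_nhds
    have hi : Integrable (fun z : W × ℝ => Metric.infDist z.1 C * max 0 ((k : ℝ) - |z.2|)) M :=
      hcont.integrable_of_hasCompactSupport hcs
    have hnn : 0 ≤ fun z : W × ℝ => Metric.infDist z.1 C * max 0 ((k : ℝ) - |z.2|) := fun z =>
      mul_nonneg Metric.infDist_nonneg (le_max_left _ _)
    exact (integral_eq_zero_iff_of_nonneg hnn hi).1 hint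
  filter_upwards [hall] with z hz
  obtain ⟨k, hk⟩ := exists_nat_gt |z.2|
  have h1 := hz k
  have h2 : 0 < max 0 ((k : ℝ) - |z.2|) := lt_max_of_lt_right (by linarith)
  rw [hC.mem_iff_infDist_zero hne]
  rcases mul_eq_zero.1 h1 with h3 | h3
  · exact h3
  · exact absurd h3 h2.ne'
-- END b8

-- BEGIN b9
/-- re-indexing of the logarithmic sum of the dilated function -/
private lemma b9_sum {W : Type*} (w : ℕ → W) (f f' : W × ℝ → ℝ) (q : ℕ) (hq : 1 ≤ q) (C : Set W)
    (hw : ∀ n, 1 ≤ n → (w n ∈ C ↔ q ∣ n)) (d : W → W)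
    (hf1 : ∀ z : W × ℝ, z.1 ∈ C → f' z = f (d z.1, z.2 - Real.log q))
    (hf0 : ∀ z : W × ℝ, z.1 ∉ C → f' z = 0) {N : ℕ} (hN : 1 ≤ N) :
    (q : ℝ) * LS w f' N = LS (fun k => d (w (q * k))) f N := by
  have hq0 : (0 : ℝ) < q := by exact_mod_cast hq
  have hN0 : (0 : ℝ) < N := by exact_mod_cast hN
  have hinj : Function.Injective (fun k : ℕ => q * k) := fun a b hab =>
    Nat.eq_of_mul_eq_mul_left (by omega) hab
  have h1 : ∑' k : ℕ, (1 / ((q * k : ℕ) : ℝ)) * f' (w (q * k), Real.log (((q * k : ℕ) : ℝ) / N))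
      = LS w f' N := by
    unfold LS
    refine hinj.tsum_eq (f := fun n : ℕ => (1 / (n : ℝ)) * f' (w n, Real.log ((n : ℝ) / N))) ?_
    intro n hn
    rcases Nat.eq_zero_or_pos n with rfl | hn0
    · exact absurd (by simp) hn
    · by_cases hmem : w n ∈ C
      · obtain ⟨k, hk⟩ := (hw n hn0).mp hmem
        exact ⟨k, hk.symm⟩
      · refine absurd ?_ hn
        show (1 / (n : ℝ)) * f' (w n, Real.log ((n : ℝ) / N)) = 0
        rw [hf0 _ hmem, mul_zero]
  rw [← h1, ← tsum_mul_left]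
  unfold LS
  refine tsum_congr fun k => ?_
  rcases Nat.eq_zero_or_pos k with rfl | hk0
  · simp
  have hk : (0 : ℝ) < k := by exact_mod_cast hk0
  have hmem : w (q * k) ∈ C := (hw _ (Nat.mul_pos (by omega) hk0)).mpr (Dvd.intro k rfl)
  rw [hf1 _ hmem]
  have hlog : Real.log (((q * k : ℕ) : ℝ) / N) - Real.log q = Real.log ((k : ℝ) / N) := by
    rw [← Real.log_div (by positivity) hq0.ne']
    congr 1
    push_cast
    field_simp
  show (q : ℝ) * ((1 / ((q * k : ℕ) : ℝ)) * f (d (w (q * k)), Real.log (((q * k : ℕ) : ℝ) / N) - Real.log q)) = _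
  rw [hlog]
  push_cast
  field_simp

/-- DILATION. For `f ∈ C_c(W × ℝ)` put `f' (x, s) = f (d x, s - log q)` for `x ∈ C` and `0` otherwise: continuous with compact
support (`C` is clopen). `LS w f' N = Σ_{q ∣ n} (1/n) f (d (w n), log (n/(qN)))`; with `n = q k` this is
`(1/q) Σ_k (1/k) f (d (w (q k)), log (k/N))`, and by `hlim` it differs from `(1/q) LS w f N` by `o(1)` (only `k ≥ N e^{-A}` count, `LS_sub_le`). So `q ∫ f' dM = ∫ f dM`. -/
theorem LL.dil (hU : U ≤ atTop) (h : LL U w M) (q : ℕ) (hq : 1 ≤ q) (C : Set W) (hC : IsClopen C)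
    (hw : ∀ n, 1 ≤ n → (w n ∈ C ↔ q ∣ n)) (d : W → W) (hd : ContinuousOn d C) (hdm : Measurable d)
    (hlim : ∀ F : W × ℝ → ℝ, Continuous F → HasCompactSupport F → ∀ ε : ℝ, 0 < ε →
      ∃ k₀ : ℕ, ∀ k : ℕ, k₀ ≤ k → ∀ s : ℝ, |F (d (w (q * k)), s) - F (w k, s)| ≤ ε) :
    (q : ENNReal) • (M.restrict (C ×ˢ Set.univ)).map (fun z => (d z.1, z.2 - Real.log q)) = M := by
  have := h.fin
  have hCm : MeasurableSet C := hC.1.measurableSet
  have hCu : MeasurableSet (C ×ˢ (Set.univ : Set ℝ)) := hCm.prod MeasurableSet.univ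
  have hT : Measurable (fun z : W × ℝ => (d z.1, z.2 - Real.log q)) :=
    (hdm.comp measurable_fst).prodMk (measurable_snd.sub_const _)
  set T : W × ℝ → W × ℝ := fun z => (d z.1, z.2 - Real.log q) with hTdef
  have hfin : IsFiniteMeasureOnCompacts ((M.restrict (C ×ˢ Set.univ)).map T) := by
    refine ⟨fun K hK => ?_⟩
    rw [Measure.map_apply hT hK.measurableSet]
    obtain ⟨A, hA⟩ := (hK.image continuous_snd).isBounded.exists_norm_le
    have hsub : T ⁻¹' K ⊆ (Set.univ : Set W) ×ˢ Set.Icc (-A + Real.log q) (A + Real.log q) := by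
      intro z hz
      have := hA (z.2 - Real.log q) ⟨T z, hz, rfl⟩
      rw [Real.norm_eq_abs, abs_le] at this
      exact ⟨Set.mem_univ _, by linarith [this.1], by linarith [this.2]⟩
    refine (measure_mono hsub).trans_lt ?_
    exact ((Measure.restrict_apply_le _ _).trans_lt (isCompact_univ.prod isCompact_Icc).measure_lt_top)
  have hfin2 : IsFiniteMeasureOnCompacts ((q : ENNReal) • (M.restrict (C ×ˢ Set.univ)).map T) := by
    refine ⟨fun K hK => ?_⟩
    rw [Measure.smul_apply, smul_eq_mul]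
    exact ENNReal.mul_lt_top (ENNReal.natCast_lt_top q) hK.measure_lt_top
  refine Measure.ext_of_integral_eq_on_compactlySupported fun f => ?_
  obtain ⟨A, hA0, hA⟩ := exists_Sup f f.hasCompactSupport
  have hlq : 0 ≤ Real.log q := Real.log_nonneg (by exact_mod_cast hq)
  have hclo : IsClopen (C ×ˢ (Set.univ : Set ℝ)) := hC.prod isClopen_univ
  set f' : W × ℝ → ℝ := (C ×ˢ (Set.univ : Set ℝ)).indicator (fun z => f (T z)) with hf'def
  have hf1 : ∀ z : W × ℝ, z.1 ∈ C → f' z = f (d z.1, z.2 - Real.log q) := by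
    intro z hz
    rw [hf'def, Set.indicator_of_mem (show z ∈ C ×ˢ (Set.univ : Set ℝ) from ⟨hz, Set.mem_univ _⟩)]
  have hf0 : ∀ z : W × ℝ, z.1 ∉ C → f' z = 0 := by
    intro z hz
    rw [hf'def, Set.indicator_of_notMem (fun hz' => hz hz'.1)]
  have hf'c : Continuous f' := by
    refine continuous_indicator ?_ ?_
    · intro z hz
      rw [hclo.frontier_eq] at hz
      exact absurd hz (Set.notMem_empty z)
    · rw [hclo.1.closure_eq]
      refine f.continuous.comp_continuousOn ?_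
      refine (hd.comp continuousOn_fst fun z hz => hz.1).prodMk ?_
      exact continuousOn_snd.sub continuousOn_const
  have hf'S : Sup (A + Real.log q) f' := by
    intro z hz
    by_cases hzC : z.1 ∈ C
    · rw [hf1 z hzC]
      refine hA _ ?_
      show A < |z.2 - Real.log q|
      have h1 : |z.2| ≤ |z.2 - Real.log q| + |Real.log q| := by
        have := abs_add_le (z.2 - Real.log q) (Real.log q)
        rwa [sub_add_cancel] at this
      rw [abs_of_nonneg hlq] at h1
      linarith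
    · exact hf0 z hzC
  have hint : ∫ z, f z ∂((q : ENNReal) • (M.restrict (C ×ˢ Set.univ)).map T) = (q : ℝ) * ∫ z, f' z ∂M := by
    have hfc : Continuous (fun z : W × ℝ => f z) := f.continuous
    have h6 : ∫ z, f z ∂((M.restrict (C ×ˢ Set.univ)).map T) = ∫ z, f (T z) ∂(M.restrict (C ×ˢ Set.univ)) :=
      integral_map hT.aemeasurable hfc.aestronglyMeasurable
    rw [integral_smul_measure, h6, hf'def, integral_indicator hCu]
    simp
  rw [hint]
  have hl1 := (h.lim f' hf'c hf'S.compact).const_mul (q : ℝ)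
  have hl2 := h.lim f f.continuous f.hasCompactSupport
  have hl3 : Tendsto (fun N => (q : ℝ) * LS w f' N - LS w f N) U (𝓝 0) := by
    refine Tendsto.mono_left ?_ hU
    rw [Metric.tendsto_atTop]
    intro ε hε
    obtain ⟨k₀, hk₀⟩ := hlim f f.continuous f.hasCompactSupport (ε / (2 * (2 * A + 1))) (by positivity)
    obtain ⟨N₀, hN₀⟩ := exists_nat_ge ((k₀ : ℝ) * Real.exp A)
    refine ⟨max N₀ 1, fun N hN => ?_⟩
    have hN1 : 1 ≤ N := (le_max_right _ _).trans hN
    rw [dist_zero_right, Real.norm_eq_abs, b9_sum w f f' q hq C hw d hf1 hf0 hN1]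
    refine (LS_sub_le (fun k => d (w (q * k))) w f f hA0 hA hA hN1 (ε := ε / (2 * (2 * A + 1))) ?_).trans_lt ?_
    · intro n _ hn
      refine hk₀ n ?_ _
      have h2 : (k₀ : ℝ) ≤ n := by
        have h3 : (k₀ : ℝ) * Real.exp A ≤ N := hN₀.trans (by exact_mod_cast (le_max_left _ _).trans hN)
        have h4 : (k₀ : ℝ) * Real.exp A * Real.exp (-A) ≤ N * Real.exp (-A) :=
          mul_le_mul_of_nonneg_right h3 (Real.exp_pos _).le
        rw [mul_assoc, ← Real.exp_add, add_neg_cancel, Real.exp_zero, mul_one] at h4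
        exact h4.trans hn
      exact_mod_cast h2
    · have h5 : ε / (2 * (2 * A + 1)) * (2 * A + 1) = ε / 2 := by
        field_simp
      rw [h5]
      linarith
  have hl4 := hl1.sub hl3
  have hl5 : Tendsto (LS w f) U (𝓝 ((q : ℝ) * ∫ z, f' z ∂M - 0)) := by
    refine hl4.congr fun N => ?_
    ring
  rw [sub_zero] at hl5
  exact tendsto_nhds_unique hl5 hl2
-- END b9

end limit

end S7b
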