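import Pool.Agent.S7b.Lim
import Pool.Agent.S7b.Grp1

/-!
# S7, block B2: the dilation system of the Liouville function over `KG G`

`W₀ = (ℤ → Bool) × KG G`, points `w₀ n = ((λ(n + j))_j, u^n)`, `M` a logarithmic limit measure (`S7b.LL`) on `W₀ × ℝ`.
-/

set_option autoImplicit false

namespace Pool.Agent.S7

open MeasureTheory Filter Topology S7b
open scoped ENNReal

/-- Liouville's function with real values; `lam 0 = 1` -/
noncomputable def lam (n : ℕ) : ℝ := (-1) ^ (ArithmeticFunction.cardFactors n)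

/-- `true` iff `Ω(k)` is even (`true` for `k ≤ 0`) -/
noncomputable def lamB (k : ℤ) : Bool := decide (Even (ArithmeticFunction.cardFactors k.toNat))

/-- sign of a Boolean: `true ↦ 1`, `false ↦ -1` -/
noncomputable def sgn (b : Bool) : ℝ := if b then 1 else -1

/-- the points `((λ(n + j))_j, u^n)` -/
noncomputable def w0 {K : Type*} [Monoid K] (u : K) (n : ℕ) : (ℤ → Bool) × K :=
  (fun j => lamB (n + j), u ^ n)

/-- the shift -/
def sh {K : Type*} [Mul K] (u : K) (x : (ℤ → Bool) × K) : (ℤ → Bool) × K :=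
  (fun j => x.1 (j + 1), u * x.2)

/-- the dilation -/
noncomputable def dq {K : Type*} [CommGroup K] (q : ℕ) (x : (ℤ → Bool) × K) : (ℤ → Bool) × K :=
  (fun j => !(x.1 (q * j)), rt q x.2)

-- BEGIN s1
theorem sgn_lamB (n : ℕ) : sgn (lamB n) = lam n := by
  unfold sgn lamB lam
  rw [Int.toNat_natCast]
  by_cases h : Even (ArithmeticFunction.cardFactors n)
  · simp [h]
  · rw [Nat.not_even_iff_odd] at h
    rw [h.neg_one_pow, decide_eq_false (Nat.not_even_iff_odd.2 h)]
    simp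

theorem sgn_not (b : Bool) : sgn (!b) = - sgn b := by
  cases b <;> simp [sgn]

/-- `Ω(q k) = Ω(k) + 1` -/
theorem lamB_mul {q : ℕ} (hq : q.Prime) {k : ℤ} (hk : 0 < k) : lamB (q * k) = !(lamB k) := by
  obtain ⟨n, rfl⟩ := Int.eq_ofNat_of_zero_le hk.le
  have hn : n ≠ 0 := by
    rintro rfl
    simp at hk
  have h1 : ((q : ℤ) * (n : ℤ)).toNat = q * n := by
    rw [← Nat.cast_mul, Int.toNat_natCast]
  unfold lamB
  rw [h1, Int.toNat_natCast, ArithmeticFunction.cardFactors_mul hq.ne_zero hn,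
    ArithmeticFunction.cardFactors_apply_prime hq]
  by_cases h : Even (ArithmeticFunction.cardFactors n)
  · have h2 : ¬ Even (1 + ArithmeticFunction.cardFactors n) := by
      rw [Nat.even_add, Nat.even_iff]; simp [h]
    simp [h, h2]
  · have h2 : Even (1 + ArithmeticFunction.cardFactors n) := by
      rw [Nat.even_add]; simp [h]
    simp [h, h2]

theorem w0_succ {K : Type*} [Monoid K] (u : K) (n : ℕ) : w0 u (n + 1) = sh u (w0 u n) := by
  unfold w0 sh
  refine Prod.ext ?_ ?_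
  · funext j
    show lamB (((n + 1 : ℕ) : ℤ) + j) = lamB ((n : ℤ) + (j + 1))
    congr 1
    push_cast
    ring
  · exact pow_succ' u n

theorem sgn_meas : Measurable sgn := Measurable.of_discrete
-- END s1

section top

variable {K : Type*} [CommGroup K] [TopologicalSpace K] [IsTopologicalGroup K] [CompactSpace K]
  [T2Space K] [SecondCountableTopology K] [MeasurableSpace K] [BorelSpace K]

/-- the shift on `Z = W₀ × ℝ` as a measurable equivalence -/
noncomputable def S0 (u : K) : (((ℤ → Bool) × K) × ℝ) ≃ᵐ (((ℤ → Bool) × K) × ℝ) where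
  toFun z := (sh u z.1, z.2)
  invFun z := ((fun j => z.1.1 (j - 1), u⁻¹ * z.1.2), z.2)
  left_inv := by
    rintro ⟨⟨l, y⟩, s⟩
    simp [sh]
  right_inv := by
    rintro ⟨⟨l, y⟩, s⟩
    simp [sh]
  measurable_toFun := by
    refine Measurable.prodMk (Measurable.prodMk ?_ ?_) measurable_snd
    · exact measurable_pi_lambda _ fun j => (measurable_pi_apply (j + 1)).comp (measurable_fst.comp measurable_fst)
    · exact (measurable_const_mul u).comp (measurable_snd.comp measurable_fst)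
  measurable_invFun := by
    refine Measurable.prodMk (Measurable.prodMk ?_ ?_) measurable_snd
    · exact measurable_pi_lambda _ fun j => (measurable_pi_apply (j - 1)).comp (measurable_fst.comp measurable_fst)
    · exact (measurable_const_mul u⁻¹).comp (measurable_snd.comp measurable_fst)

theorem S0_apply (u : K) (z : ((ℤ → Bool) × K) × ℝ) : S0 u z = (sh u z.1, z.2) := rfl

-- BEGIN s2
theorem S0_iter (u : K) (h : ℕ) (z : ((ℤ → Bool) × K) × ℝ) :
    (⇑(S0 u))^[h] z = ((fun j => z.1.1 (j + h), u ^ h * z.1.2), z.2) := by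
  induction h with
  | zero => simp
  | succ h ih =>
    rw [Function.iterate_succ_apply', ih, S0_apply]
    refine Prod.ext (Prod.ext ?_ ?_) rfl
    · funext j
      show z.1.1 (j + 1 + (h : ℤ)) = z.1.1 (j + ((h + 1 : ℕ) : ℤ))
      have e : j + 1 + (h : ℤ) = j + ((h + 1 : ℕ) : ℤ) := by push_cast; ring
      rw [e]
    · simp only [sh]
      rw [pow_succ', mul_assoc]

theorem sh_cont (u : K) : Continuous (sh u) := by
  unfold sh
  refine Continuous.prodMk ?_ ?_
  · exact continuous_pi fun j => (continuous_apply (j + 1)).comp continuous_fst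
  · exact (continuous_const_mul u).comp continuous_snd

/-- CYLINDER UNIFORM CONTINUITY. `letI : UniformSpace K := uniformSpaceOfCompactR1`; `F` is uniformly continuous
(`HasCompactSupport.uniformContinuous_of_continuous`), the uniformity of `ℤ → Bool` (`Pi.uniformSpace`, `Bool` discrete)
has the basis of the cylinder entourages. -/
theorem cyl_uc (F : ((ℤ → Bool) × K) × ℝ → ℝ) (hF : Continuous F) (hc : HasCompactSupport F) {ε : ℝ}
    (hε : 0 < ε) : ∃ J : ℕ, ∀ l l' : ℤ → Bool, (∀ j : ℤ, |j| ≤ J → l j = l' j) →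
      ∀ (y : K) (s : ℝ), |F ((l, y), s) - F ((l', y), s)| ≤ ε := by
  letI : UniformSpace K := uniformSpaceOfCompactR1
  have hu : UniformContinuous F := hc.uniformContinuous_of_continuous hF
  by_contra hcon
  push Not at hcon
  choose l l' hl y s hF' using hcon
  -- the pairs converge to the diagonal
  have h1 : Tendsto (fun J : ℕ => (((l J, y J), s J), ((l' J, y J), s J))) atTop
      (uniformity (((ℤ → Bool) × K) × ℝ)) := by
    rw [uniformity_prod_eq_comap_prod, tendsto_comap_iff, uniformity_prod_eq_comap_prod]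
    refine Filter.Tendsto.prodMk (tendsto_comap_iff.mpr (Filter.Tendsto.prodMk ?_ ?_)) ?_
    · rw [Pi.uniformity, tendsto_iInf]
      intro j
      rw [tendsto_comap_iff]
      have : ∀ᶠ J : ℕ in atTop, (l J j, l' J j) = (l J j, l J j) := by
        filter_upwards [eventually_ge_atTop j.natAbs] with J hJ
        rw [hl J j (by rw [Int.abs_eq_natAbs]; exact_mod_cast hJ)]
      refine Tendsto.congr' (this.mono fun J hJ => hJ.symm) ?_
      exact tendsto_diag_uniformity _ _
    · exact tendsto_diag_uniformity _ _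
    · exact tendsto_diag_uniformity _ _
  have h2 := Tendsto.comp hu h1
  have h3 := h2 (Metric.dist_mem_uniformity hε)
  rw [mem_map, mem_atTop_sets] at h3
  obtain ⟨J, hJ⟩ := h3
  have h4 : dist (F ((l J, y J), s J)) (F ((l' J, y J), s J)) < ε := hJ J le_rfl
  rw [Real.dist_eq] at h4
  exact absurd (hF' J) (not_lt.mpr h4.le)
-- END s2

variable {u : K} {U : Filter ℕ} [U.NeBot] {M : Measure (((ℤ → Bool) × K) × ℝ)}

-- BEGIN s3
/-- DILATION. `LL.dil` with `C = {x | x.2 ∈ Kq K q}` (`Kq_open`), `upow_mem`, `d = dq q` (`rt_cont`, `rt_meas`); `hlim`: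
`dq q (w0 u (q k)) = (fun j => !lamB (q k + q j), u^k)` (`rt_pow`) agrees with `w0 u k` in the coordinates `j > -k`
(`lamB_mul`), `cyl_uc`. Then divide by `q`. -/
theorem dil0 (hK : KD K u) (hU : U ≤ atTop) (h : LL U (w0 u) M) {q : ℕ} (hq : q.Prime) :
    (M.restrict {z | z.1.2 ∈ Kq K q}).map (fun z => (dq q z.1, z.2 - Real.log q)) =
      ((q : ℝ≥0∞))⁻¹ • M := by
  have hq1 : 1 ≤ q := hq.one_lt.le
  have hC : IsClopen ({x : (ℤ → Bool) × K | x.2 ∈ Kq K q}) :=
    ⟨(Kq_open hK hq1).2.preimage continuous_snd, (Kq_open hK hq1).1.preimage continuous_snd⟩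
  have hw : ∀ n : ℕ, 1 ≤ n → (w0 u n ∈ ({x : (ℤ → Bool) × K | x.2 ∈ Kq K q}) ↔ q ∣ n) :=
    fun n _ => upow_mem hK hq1 n
  have hfst : Continuous (fun x : (ℤ → Bool) × K => (fun j : ℤ => !(x.1 ((q : ℤ) * j)))) := by
    refine continuous_pi fun j => ?_
    have hn : Continuous (fun b : Bool => !b) := continuous_of_discreteTopology
    have hj : Continuous (fun l : ℤ → Bool => l ((q : ℤ) * j)) := continuous_apply ((q : ℤ) * j)
    exact hn.comp (hj.comp continuous_fst)
  have hd : ContinuousOn (dq q : (ℤ → Bool) × K → (ℤ → Bool) × K)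
      ({x : (ℤ → Bool) × K | x.2 ∈ Kq K q}) := by
    refine ContinuousOn.prodMk hfst.continuousOn ?_
    exact (rt_cont hK hq1).comp continuousOn_snd fun x hx => hx
  have hdm : Measurable (dq q : (ℤ → Bool) × K → (ℤ → Bool) × K) := by
    refine Measurable.prodMk ?_ ((rt_meas hK hq1).comp measurable_snd)
    refine measurable_pi_lambda _ fun j => ?_
    have hn : Measurable (fun b : Bool => !b) := measurable_of_countable _
    have hj : Measurable (fun l : ℤ → Bool => l ((q : ℤ) * j)) := measurable_pi_apply ((q : ℤ) * j)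
    exact hn.comp (hj.comp measurable_fst)
  have hlim : ∀ F : ((ℤ → Bool) × K) × ℝ → ℝ, Continuous F → HasCompactSupport F → ∀ ε : ℝ, 0 < ε →
      ∃ k₀ : ℕ, ∀ k : ℕ, k₀ ≤ k → ∀ s : ℝ, |F (dq q (w0 u (q * k)), s) - F (w0 u k, s)| ≤ ε := by
    intro F hF hc ε hε
    obtain ⟨J, hJ⟩ := cyl_uc F hF hc hε
    refine ⟨J + 1, fun k hk s => ?_⟩
    have h1 : dq q (w0 u (q * k)) = (fun j : ℤ => !(lamB (((q * k : ℕ) : ℤ) + (q : ℤ) * j)), u ^ k) := by
      unfold dq w0
      refine Prod.ext rfl ?_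
      show rt q (u ^ (q * k)) = u ^ k
      rw [mul_comm q k, pow_mul]
      exact rt_pow hK hq1 (u ^ k)
    rw [h1]
    refine hJ _ _ (fun j hj => ?_) _ s
    have h2 : (0 : ℤ) < (k : ℤ) + j := by
      have h3 : -(J : ℤ) ≤ j := (abs_le.mp hj).1
      have h4 : ((J : ℤ) + 1) ≤ (k : ℤ) := by exact_mod_cast hk
      linarith
    have h5 : (((q * k : ℕ) : ℤ) + (q : ℤ) * j) = (q : ℤ) * ((k : ℤ) + j) := by
      push_cast
      ring
    show (!(lamB (((q * k : ℕ) : ℤ) + (q : ℤ) * j))) = lamB ((k : ℤ) + j)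
    rw [h5, lamB_mul hq h2, Bool.not_not]
  have hmain := LL.dil hU h q hq1 ({x : (ℤ → Bool) × K | x.2 ∈ Kq K q}) hC hw (dq q) hd hdm hlim
  have hset : {z : ((ℤ → Bool) × K) × ℝ | z.1.2 ∈ Kq K q} =
      ({x : (ℤ → Bool) × K | x.2 ∈ Kq K q}) ×ˢ (Set.univ : Set ℝ) := by
    ext z
    simp
  rw [hset]
  have hq0 : (q : ℝ≥0∞) ≠ 0 := by
    exact_mod_cast hq.ne_zero
  have hqt : (q : ℝ≥0∞) ≠ ⊤ := ENNReal.natCast_ne_top q
  conv_rhs => rw [← hmain]
  rw [smul_smul, ENNReal.inv_mul_cancel hq0 hqt, one_smul]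

/-- the other properties of `D z = (dq q z.1, z.2 - log q)`; for the last one: `rt q (u ^ q * y) = u * rt q y` for
`y = x ^ q` (`rt_pow`). -/
theorem dil1 (hK : KD K u) {q : ℕ} (hq : q.Prime) :
    Measurable (fun z : ((ℤ → Bool) × K) × ℝ => (dq q z.1, z.2 - Real.log q)) ∧
    ∀ z : ((ℤ → Bool) × K) × ℝ, z.1.2 ∈ Kq K q →
      (dq q z.1).2 ^ q = z.1.2 ∧ sgn ((dq q z.1).1 0) = - sgn (z.1.1 0) ∧
      (dq q ((⇑(S0 u))^[q] z).1, ((⇑(S0 u))^[q] z).2 - Real.log q) =
        S0 u (dq q z.1, z.2 - Real.log q) := by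
  have hq1 : 1 ≤ q := hq.one_lt.le
  have hdm : Measurable (dq q : (ℤ → Bool) × K → (ℤ → Bool) × K) := by
    refine Measurable.prodMk ?_ ((rt_meas hK hq1).comp measurable_snd)
    refine measurable_pi_lambda _ fun j => ?_
    have hn : Measurable (fun b : Bool => !b) := measurable_of_countable _
    have hj : Measurable (fun l : ℤ → Bool => l ((q : ℤ) * j)) := measurable_pi_apply ((q : ℤ) * j)
    exact hn.comp (hj.comp measurable_fst)
  refine ⟨(hdm.comp measurable_fst).prodMk (measurable_snd.sub_const _), ?_⟩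
  rintro ⟨⟨l, y⟩, s⟩ ⟨x, hx⟩
  have hx' : x ^ q = y := hx
  refine ⟨?_, ?_, ?_⟩
  · show (rt q y) ^ q = y
    rw [← hx', rt_pow hK hq1]
  · show sgn (!(l ((q : ℤ) * 0))) = - sgn (l 0)
    rw [mul_zero, sgn_not]
  · rw [S0_iter, S0_apply]
    show ((fun j : ℤ => !(l ((q : ℤ) * j + (q : ℤ))), rt q (u ^ q * y)), s - Real.log q) =
      ((fun j : ℤ => !(l ((q : ℤ) * (j + 1))), u * rt q y), s - Real.log q)
    have h1 : rt q (u ^ q * y) = u * rt q y := by
      rw [← hx', ← mul_pow, rt_pow hK hq1, rt_pow hK hq1]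
    have h2 : (fun j : ℤ => !(l ((q : ℤ) * j + (q : ℤ)))) = (fun j : ℤ => !(l ((q : ℤ) * (j + 1)))) := by
      funext j
      rw [mul_add, mul_one]
    rw [h1, h2]
-- END s3

-- BEGIN s4
/-- NO EIGENVALUES. `hE2` is the number theoretic input (block E). Choose `φ ≥ 1` on `[α, β]` continuous with compact support;
the function `f z = φ(s) ‖(1/H) Σ_{h<H} w^h sgn (l_h)‖²` is continuous with compact support, `∫ f dM` is the limit along `U`
of `LS (w0 u) f N = Σ (1/n) φ(log (n/N)) ‖(1/H) Σ w^h lam(n+h)‖²`, so it is at most `ε` for `H ≥ H₀`. -/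
theorem atom0 (hU : U ≤ atTop) (h : LL U (w0 u) M) (w : Circle)
    (hE2 : ∀ φ : ℝ → ℝ, Continuous φ → HasCompactSupport φ → (∀ s, 0 ≤ φ s) → ∀ ε : ℝ, 0 < ε →
      ∃ H₀ : ℕ, ∀ H : ℕ, H₀ ≤ H → ∃ N₀ : ℕ, ∀ N : ℕ, N₀ ≤ N →
        ∑' n : ℕ, (1 / (n : ℝ)) * (‖(H : ℂ)⁻¹ * ∑ h ∈ Finset.range H, (w : ℂ) ^ h * (lam (n + h) : ℂ)‖ ^ 2 *
          φ (Real.log ((n : ℝ) / N))) ≤ ε)
    (α β : ℝ) :
    Tendsto (fun H : ℕ => ∫ z in (fun z : ((ℤ → Bool) × K) × ℝ => z.2) ⁻¹' Set.Ioc α β,
      ‖(H : ℂ)⁻¹ * ∑ h ∈ Finset.range H, (w : ℂ) ^ h * (sgn (((⇑(S0 u))^[h] z).1.1 0) : ℂ)‖ ^ 2 ∂M)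
      atTop (𝓝 0) := by
  have hfin := h.fin
  set A : ℝ := max |α| |β| with hA
  set φ : ℝ → ℝ := fun s => max 0 (A + 1 - |s|) with hφ
  have φc : Continuous φ := by
    rw [hφ]; fun_prop
  have φ0 : ∀ s, 0 ≤ φ s := fun s => le_max_left _ _
  have φs : ∀ s, A + 1 < |s| → φ s = 0 := fun s hs => max_eq_left (by linarith)
  have φk : HasCompactSupport φ := by
    refine HasCompactSupport.of_support_subset_isCompact (isCompact_Icc (a := -(A + 1)) (b := A + 1)) ?_
    intro s hs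
    by_contra hne
    rw [Set.mem_Icc, ← abs_le] at hne
    exact hs (φs s (not_le.mp hne))
  rw [Metric.tendsto_atTop]
  intro ε hε
  obtain ⟨H₀, hH₀⟩ := hE2 φ φc φk φ0 (ε / 2) (half_pos hε)
  refine ⟨H₀, fun H hH => ?_⟩
  obtain ⟨N₀, hN₀⟩ := hH₀ H hH
  set f : ((ℤ → Bool) × K) × ℝ → ℝ := fun z =>
    ‖(H : ℂ)⁻¹ * ∑ h ∈ Finset.range H, (w : ℂ) ^ h * (sgn (z.1.1 (h : ℤ)) : ℂ)‖ ^ 2 * φ z.2 with hf
  have sc : Continuous sgn := continuous_of_discreteTopology
  have c1 : ∀ i : ℕ, Continuous (fun z : ((ℤ → Bool) × K) × ℝ => ((sgn (z.1.1 (i : ℤ)) : ℝ) : ℂ)) := by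
    intro i
    have c0 : Continuous (fun z : ((ℤ → Bool) × K) × ℝ => z.1.1 (i : ℤ)) :=
      (continuous_apply (i : ℤ)).comp (continuous_fst.comp continuous_fst)
    exact Complex.continuous_ofReal.comp (sc.comp c0)
  have c2 : Continuous (fun z : ((ℤ → Bool) × K) × ℝ =>
      ∑ h ∈ Finset.range H, (w : ℂ) ^ h * (sgn (z.1.1 (h : ℤ)) : ℂ)) :=
    continuous_finsetSum _ fun i _ => continuous_const.mul (c1 i)
  have fc : Continuous f :=
    ((continuous_const.mul c2).norm.pow 2).mul (φc.comp continuous_snd)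
  have fS : Sup (A + 1) f := fun z hz => by
    simp only [hf, φs z.2 hz, mul_zero]
  have fk : HasCompactSupport f := fS.compact
  have f0 : ∀ z, 0 ≤ f z := fun z => mul_nonneg (sq_nonneg _) (φ0 _)
  have hle : ∫ z, f z ∂M ≤ ε / 2 := by
    refine le_of_tendsto (h.lim f fc fk) ?_
    have h1 : ∀ᶠ N in U, N₀ ≤ N := hU (eventually_ge_atTop N₀)
    filter_upwards [h1] with N hN
    have h2 := hN₀ N hN
    refine le_trans (le_of_eq ?_) h2
    unfold LS
    refine tsum_congr fun n => ?_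
    have h3 : ∀ i : ℕ, sgn ((w0 u n).1 (i : ℤ)) = lam (n + i) := fun i => by
      rw [← sgn_lamB]
      simp only [w0]
      push_cast
      rfl
    simp only [hf, h3]
  have key : ∫ z in (fun z : ((ℤ → Bool) × K) × ℝ => z.2) ⁻¹' Set.Ioc α β,
      ‖(H : ℂ)⁻¹ * ∑ h ∈ Finset.range H, (w : ℂ) ^ h * (sgn (((⇑(S0 u))^[h] z).1.1 0) : ℂ)‖ ^ 2 ∂M ≤
      ∫ z, f z ∂M := by
    have fi : Integrable f M := fc.integrable_of_hasCompactSupport fk
    refine le_trans (integral_mono_of_nonneg ?_ (fi.restrict) ?_)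
      (setIntegral_le_integral fi (Eventually.of_forall f0))
    · exact Eventually.of_forall fun z => sq_nonneg _
    · have mB : MeasurableSet ((fun z : ((ℤ → Bool) × K) × ℝ => z.2) ⁻¹' Set.Ioc α β) :=
        measurable_snd measurableSet_Ioc
      refine (ae_restrict_iff' mB).mpr (Eventually.of_forall fun z hz => ?_)
      have h4 : ∀ i : ℕ, ((⇑(S0 u))^[i] z).1.1 0 = z.1.1 (i : ℤ) := fun i => by
        rw [S0_iter]
        simp
      simp only [h4, hf]
      refine le_mul_of_one_le_right (sq_nonneg _) ?_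
      have h5 : |z.2| ≤ A := by
        rw [Set.mem_preimage, Set.mem_Ioc] at hz
        rw [hA]
        exact abs_le_max_abs_abs hz.1.le hz.2
      exact le_max_of_le_right (by linarith)
  rw [Real.dist_eq, sub_zero, abs_of_nonneg]
  · linarith
  · exact integral_nonneg fun z => sq_nonneg _
-- END s4

end top

section law

variable {G : Subgroup Circle} [Countable G] {m : Measure (KG G)} [m.IsHaarMeasure] [IsProbabilityMeasure m]

-- BEGIN s5
private theorem s5_int (μ : Measure (KG G)) [IsFiniteMeasure μ] {f : KG G → ℂ} (hf : Continuous f) :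
    Integrable f μ :=
  hf.integrable_of_hasCompactSupport (HasCompactSupport.of_compactSpace f)

private theorem s5_ev (w : G) : Continuous fun y : KG G => ((evG w y : Circle) : ℂ) :=
  continuous_subtype_val.comp (map_continuous (evG w))

private theorem s5_key (ν : Measure (KG G)) [IsFiniteMeasure ν] (h : ν.map (fun y => uG G * y) = ν)
    (w : G) : ∫ y, ((evG w y : Circle) : ℂ) ∂ν =
      ((ν.real Set.univ : ℝ) : ℂ) * ∫ y, ((evG w y : Circle) : ℂ) ∂m := by
  by_cases hw : w = 1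
  · have h1 : ∀ y : KG G, ((evG w y : Circle) : ℂ) = 1 := by
      intro y
      have h2 : evG w y = 1 := by
        rw [hw]
        exact map_one y
      rw [h2]
      rfl
    simp only [h1, integral_const, mul_one, probReal_univ, Complex.real_smul]
    simp
  · have hw' : (w : Circle) ≠ 1 := fun h3 => hw (Subtype.ext h3)
    have h1 : evG w ≠ 1 := by
      intro h2
      have h3 := evG_u w
      rw [h2] at h3
      exact hw' h3.symm
    rw [chr_int (m := m) (evG w) h1, mul_zero]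
    have h3 : ∫ y, ((evG w y : Circle) : ℂ) ∂ν =
        ((w : Circle) : ℂ) * ∫ y, ((evG w y : Circle) : ℂ) ∂ν := by
      have h4 : ∫ y, ((evG w y : Circle) : ℂ) ∂(ν.map (fun y => uG G * y)) =
          ((w : Circle) : ℂ) * ∫ y, ((evG w y : Circle) : ℂ) ∂ν := by
        rw [integral_map (measurable_const_mul (uG G)).aemeasurable
          (s5_ev w).aestronglyMeasurable, ← integral_const_mul]
        refine integral_congr_ae (Filter.Eventually.of_forall fun y => ?_)
        show ((evG w (uG G * y) : Circle) : ℂ) = ((w : Circle) : ℂ) * ((evG w y : Circle) : ℂ)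
        rw [map_mul, evG_u, Circle.coe_mul]
      rwa [h] at h4
    have h5 : ((w : Circle) : ℂ) ≠ 1 := fun h6 => hw' (Subtype.ext h6)
    have h6 : (1 - ((w : Circle) : ℂ)) * ∫ y, ((evG w y : Circle) : ℂ) ∂ν = 0 := by
      rw [sub_mul, one_mul, ← h3, sub_self]
    rcases mul_eq_zero.mp h6 with h7 | h7
    · exact absurd (sub_eq_zero.mp h7).symm h5
    · exact h7

private theorem s5_all (ν : Measure (KG G)) [IsFiniteMeasure ν] (h : ν.map (fun y => uG G * y) = ν)
    (f : KG G → ℂ) (hf : Continuous f) :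
    ∫ y, f y ∂ν = ((ν.real Set.univ : ℝ) : ℂ) * ∫ y, f y ∂m := by
  have hV : 0 ≤ ν.real Set.univ := measureReal_nonneg
  refine eq_of_forall_dist_le fun δ hδ => ?_
  have hε : 0 < δ / (2 * (ν.real Set.univ + 1)) := by positivity
  obtain ⟨n, w, c, hc⟩ := ev_dense f hf hε
  have hp : Continuous fun y : KG G => ∑ i, c i * ((evG (w i) y : Circle) : ℂ) :=
    continuous_finsetSum _ fun i _ => continuous_const.mul (s5_ev (w i))
  have e1 : ∀ (μ : Measure (KG G)) [IsFiniteMeasure μ],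
      ‖∫ y, f y ∂μ - ∫ y, (∑ i, c i * ((evG (w i) y : Circle) : ℂ)) ∂μ‖ ≤
        δ / (2 * (ν.real Set.univ + 1)) * μ.real Set.univ := by
    intro μ _
    rw [← integral_sub (s5_int μ hf) (s5_int μ hp)]
    exact norm_integral_le_of_norm_le_const (Filter.Eventually.of_forall hc)
  have e2 : ∀ (μ : Measure (KG G)) [IsFiniteMeasure μ],
      ∫ y, (∑ i, c i * ((evG (w i) y : Circle) : ℂ)) ∂μ =
        ∑ i, c i * ∫ y, ((evG (w i) y : Circle) : ℂ) ∂μ := by
    intro μ _
    have e5 := integral_finsetSum (μ := μ) Finset.univ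
      (f := fun (i : Fin n) (y : KG G) => c i * ((evG (w i) y : Circle) : ℂ))
      (fun i _ => s5_int μ (continuous_const.mul (s5_ev (w i))))
    exact e5.trans (Finset.sum_congr rfl fun i _ => integral_const_mul _ _)
  have e3 : ∫ y, (∑ i, c i * ((evG (w i) y : Circle) : ℂ)) ∂ν =
      ((ν.real Set.univ : ℝ) : ℂ) * ∫ y, (∑ i, c i * ((evG (w i) y : Circle) : ℂ)) ∂m := by
    rw [e2 ν, e2 m, Finset.mul_sum]
    refine Finset.sum_congr rfl fun i _ => ?_
    rw [s5_key (m := m) ν h (w i)]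
    ring
  have h1 := e1 ν
  have h2 := e1 m
  rw [probReal_univ (μ := m), mul_one] at h2
  rw [dist_eq_norm]
  have e4 : ∫ y, f y ∂ν - ((ν.real Set.univ : ℝ) : ℂ) * ∫ y, f y ∂m =
      (∫ y, f y ∂ν - ∫ y, (∑ i, c i * ((evG (w i) y : Circle) : ℂ)) ∂ν) -
        ((ν.real Set.univ : ℝ) : ℂ) *
          (∫ y, f y ∂m - ∫ y, (∑ i, c i * ((evG (w i) y : Circle) : ℂ)) ∂m) := by
    rw [e3]
    ring
  rw [e4]
  refine (norm_sub_le _ _).trans ?_
  have h3 : ‖((ν.real Set.univ : ℝ) : ℂ) *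
      (∫ y, f y ∂m - ∫ y, (∑ i, c i * ((evG (w i) y : Circle) : ℂ)) ∂m)‖ ≤
        ν.real Set.univ * (δ / (2 * (ν.real Set.univ + 1))) := by
    rw [norm_mul, Complex.norm_real, Real.norm_eq_abs, abs_of_nonneg hV]
    exact mul_le_mul_of_nonneg_left h2 hV
  refine (add_le_add h1 h3).trans ?_
  have h4 : δ / (2 * (ν.real Set.univ + 1)) * ν.real Set.univ +
      ν.real Set.univ * (δ / (2 * (ν.real Set.univ + 1))) =
        δ * (ν.real Set.univ / (ν.real Set.univ + 1)) := by
    field_simp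
    ring
  rw [h4]
  have h5 : ν.real Set.univ / (ν.real Set.univ + 1) ≤ 1 := by
    rw [div_le_one (by linarith)]
    linarith
  nlinarith

/-- UNIQUE ERGODICITY. `∫ evG w dν = w ∫ evG w dν`, so it is `0` for `w ≠ 1`, as for `m` (`chr_int`); `ev_dense`: the
integrals of every continuous function against `ν` and `ν(univ) • m` agree. -/
theorem uniq_erg (ν : Measure (KG G)) [IsFiniteMeasure ν] (h : ν.map (fun y => uG G * y) = ν) :
    ν = ν Set.univ • m := by
  haveI : IsFiniteMeasure (ν Set.univ • m) := Measure.smul_finite m (measure_ne_top ν _)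
  refine ext_of_forall_integral_eq_of_IsFiniteMeasure fun f => ?_
  have h1 := s5_all (m := m) ν h (fun y => ((f y : ℝ) : ℂ)) (Complex.continuous_ofReal.comp f.continuous)
  rw [integral_complex_ofReal, integral_complex_ofReal, ← Complex.ofReal_mul] at h1
  have h2 := Complex.ofReal_injective h1
  rw [integral_smul_measure, smul_eq_mul]
  exact h2
-- END s5

variable {U : Filter ℕ} [U.NeBot] {M : Measure (((ℤ → Bool) × KG G) × ℝ)}

-- BEGIN s6
private theorem s6_fin (hU : U ≤ atTop) (h : LL U (w0 (uG G)) M) {s : Set (KG G)} (hs : MeasurableSet s)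
    {t : Set ℝ} (ht : MeasurableSet t) (hfin : volume t ≠ ∞) :
    M.map (fun z => (z.1.2, z.2)) (s ×ˢ t) = m s * volume t := by
  have hf : Measurable (fun z : ((ℤ → Bool) × KG G) × ℝ => (z.1.2, z.2)) :=
    (measurable_snd.comp measurable_fst).prodMk measurable_snd
  have hy : Measurable (fun z : ((ℤ → Bool) × KG G) × ℝ => z.1.2) := measurable_snd.comp measurable_fst
  have hinv : M.map (Prod.map (sh (uG G)) id) = M :=
    h.inv hU _ (sh_cont _) (fun n _ => w0_succ _ n)
  have hsnd : M.map Prod.snd = volume := h.snd hU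
  have hsh : Measurable (Prod.map (sh (uG G)) (id : ℝ → ℝ)) :=
    ((sh_cont (uG G)).prodMap continuous_id).measurable
  have hA : ∀ A : Set (KG G), MeasurableSet A →
      ((M.restrict (Prod.snd ⁻¹' t)).map (fun z => z.1.2)) A =
        M ((fun z => z.1.2) ⁻¹' A ∩ Prod.snd ⁻¹' t) := by
    intro A hA
    rw [Measure.map_apply hy hA, Measure.restrict_apply (hy hA)]
  have huniv : ((M.restrict (Prod.snd ⁻¹' t)).map (fun z => z.1.2)) (Set.univ : Set (KG G)) = volume t := by
    rw [hA _ MeasurableSet.univ, Set.preimage_univ, Set.univ_inter, ← hsnd,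
      Measure.map_apply measurable_snd ht]
  haveI : IsFiniteMeasure ((M.restrict (Prod.snd ⁻¹' t)).map
      (fun z : ((ℤ → Bool) × KG G) × ℝ => z.1.2)) := ⟨by rw [huniv]; exact hfin.lt_top⟩
  have hrot : ((M.restrict (Prod.snd ⁻¹' t)).map (fun z : ((ℤ → Bool) × KG G) × ℝ => z.1.2)).map
      (fun y => uG G * y) = (M.restrict (Prod.snd ⁻¹' t)).map (fun z => z.1.2) := by
    ext A hAm
    have hm : Measurable (fun y : KG G => uG G * y) := measurable_const_mul (uG G)
    rw [Measure.map_apply hm hAm, hA _ (hm hAm), hA _ hAm]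
    have h1 : M ((fun z => z.1.2) ⁻¹' A ∩ Prod.snd ⁻¹' t) =
        M (Prod.map (sh (uG G)) id ⁻¹' ((fun z => z.1.2) ⁻¹' A ∩ Prod.snd ⁻¹' t)) := by
      rw [← Measure.map_apply hsh ((hy hAm).inter (measurable_snd ht)), hinv]
    rw [h1]
    rfl
  have h2 := uniq_erg (m := m) _ hrot
  rw [Measure.map_apply hf (hs.prod ht)]
  have h3 := hA s hs
  rw [h2, Measure.smul_apply, huniv, smul_eq_mul, mul_comm] at h3
  rw [h3]
  rfl

/-- LAW. `P = M.map (y, s)`; its second marginal is Lebesgue measure (`LL.snd`) and it is invariant under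
`(y, s) ↦ (u y, s)` (`LL.inv`). For `B ⊆ ℝ` measurable and bounded, `ν_B A = P (A ×ˢ B)` is finite and invariant, so
`ν_B = volume B • m` (`uniq_erg`); for general `B` cut into the pieces `B ∩ (k, k+1]`; `Measure.prod_eq`. -/
theorem law0 (hU : U ≤ atTop) (h : LL U (w0 (uG G)) M) :
    M.map (fun z => (z.1.2, z.2)) = m.prod volume := by
  symm
  refine Measure.prod_eq fun s t hs ht => ?_
  have ht' : t = ⋃ n : ℕ, t ∩ Set.Icc (-(n : ℝ)) n := by
    rw [← Set.inter_iUnion]
    refine (Set.inter_eq_left.mpr fun x _ => ?_).symm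
    obtain ⟨n, hn⟩ := exists_nat_ge |x|
    exact Set.mem_iUnion.mpr ⟨n, abs_le.mp hn⟩
  have hmono : Monotone fun n : ℕ => t ∩ Set.Icc (-(n : ℝ)) n := by
    intro a b hab
    have h1 : (a : ℝ) ≤ b := by exact_mod_cast hab
    exact Set.inter_subset_inter_right _ (Set.Icc_subset_Icc (by linarith) h1)
  have e1 : M.map (fun z => (z.1.2, z.2)) (s ×ˢ t) =
      ⨆ n : ℕ, M.map (fun z => (z.1.2, z.2)) (s ×ˢ (t ∩ Set.Icc (-(n : ℝ)) n)) := by
    rw [← Monotone.measure_iUnion, ← Set.prod_iUnion, ← ht']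
    intro a b hab
    exact Set.prod_mono_right (hmono hab)
  have e2 : volume t = ⨆ n : ℕ, volume (t ∩ Set.Icc (-(n : ℝ)) n) := by
    rw [← Monotone.measure_iUnion hmono, ← ht']
  rw [e1, e2, ENNReal.mul_iSup]
  refine iSup_congr fun n => s6_fin hU h hs (ht.inter measurableSet_Icc) ?_
  refine ((measure_mono Set.inter_subset_right).trans_lt ?_).ne
  rw [Real.volume_Icc]
  exact ENNReal.ofReal_lt_top
-- END s6

end law

section ds

variable {G : Subgroup Circle} [Countable G] {m : Measure (KG G)} [m.IsHaarMeasure] [IsProbabilityMeasure m]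
  {U : Filter ℕ} [U.NeBot] {M : Measure (((ℤ → Bool) × KG G) × ℝ)}

/-- the number theoretic input (E2) -/
def E2 : Prop := ∀ w : Circle, ∀ φ : ℝ → ℝ, Continuous φ → HasCompactSupport φ → (∀ s, 0 ≤ φ s) →
  ∀ ε : ℝ, 0 < ε → ∃ H₀ : ℕ, ∀ H : ℕ, H₀ ≤ H → ∃ N₀ : ℕ, ∀ N : ℕ, N₀ ≤ N →
    ∑' n : ℕ, (1 / (n : ℝ)) * (‖(H : ℂ)⁻¹ * ∑ h ∈ Finset.range H, (w : ℂ) ^ h * (lam (n + h) : ℂ)‖ ^ 2 *
      φ (Real.log ((n : ℝ) / N))) ≤ ε

-- BEGIN s7
/-- ASSEMBLY: `LL.inv` (`w0_succ`, `sh_cont`), `law0`, `dil0`, `dil1`, `atom0`, `kd_sat`. -/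
theorem ds0 (hG : Sat G) (hE : E2) (hU : U ≤ atTop) (h : LL U (w0 (uG G)) M) :
    DS (uG G) m M (S0 (uG G)) (fun z => z.1.2) (fun z => z.2) (fun z => sgn (z.1.1 0)) where
  inv := by
    refine ⟨(S0 (uG G)).measurable, ?_⟩
    have := h.inv hU (sh (uG G)) (sh_cont (uG G)) (fun n _ => w0_succ (uG G) n)
    exact this
  ym := measurable_snd.comp measurable_fst
  sm := measurable_snd
  lm := sgn_meas.comp ((measurable_pi_apply 0).comp (measurable_fst.comp measurable_fst))
  l1 := by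
    intro z
    unfold sgn
    split_ifs
    · exact Or.inl rfl
    · exact Or.inr rfl
  yS := fun z => rfl
  sS := fun z => rfl
  law := law0 hU h
  dil := by
    intro q hq
    obtain ⟨h1, h2⟩ := dil1 (kd_sat G hG) hq
    refine ⟨fun z => (dq q z.1, z.2 - Real.log q), h1, fun z hz => ?_, dil0 (kd_sat G hG) hU h hq⟩
    obtain ⟨a, b, c⟩ := h2 z hz
    exact ⟨a, rfl, b, c⟩
  atom := fun w α β => atom0 hU h w (hE w) α β
-- END s7

end ds

end Pool.Agent.S7
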